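import Pool.Agent.Lib.MP_75bae7_al.Own

/-!
The commutative end of the proof with any number of extra variables.
-/

set_option autoImplicit false
set_option linter.unusedSectionVars false

namespace Pool.Agent.Lib.MP_75bae7_al.Cn

open MvPolynomial

theorem ord_bound' {K Z τ : Type} [Field K] [Field Z] {e : MvPolynomial τ K →+* Z} (h : Fr e)
    {π : MvPolynomial τ K} (hπ : Prime π) {p C0 N : ℕ} (hp : 0 < p) (hC0 : C0 < p) {W : Z}
    (hW : W ≠ 0) {G H : MvPolynomial τ K} (hH : e H ≠ 0)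
    (eW : W ^ (p ^ N) * e H ^ p = e G ^ p) (dG : p * G.totalDegree ≤ p ^ N * C0)
    (dH : p * H.totalDegree ≤ p ^ N * C0) : |h.ord π W| < p := by
  have hH0 : H ≠ 0 := by rintro rfl; exact hH (map_zero _)
  have hG : e G ≠ 0 := by
    intro h0
    rw [h0, zero_pow hp.ne'] at eW
    exact mul_ne_zero (pow_ne_zero _ hW) (pow_ne_zero _ hH) eW
  have hG0 : G ≠ 0 := by rintro rfl; exact hG (map_zero _)
  have o := congrArg (h.ord π) eW
  rw [h.ord_mul hπ (pow_ne_zero _ hW) (pow_ne_zero _ hH), h.ord_pow hπ hW, h.ord_pow hπ hH,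
    h.ord_pow hπ hG, h.ord_e hπ hG0, h.ord_e hπ hH0] at o
  have a1 := (Nat.mul_le_mul_left p (mult_le_totalDegree hπ hG0)).trans dG
  have a2 := (Nat.mul_le_mul_left p (mult_le_totalDegree hπ hH0)).trans dH
  have a3 : p ^ N * C0 < p ^ N * p := Nat.mul_lt_mul_of_pos_left hC0 (pow_pos hp N)
  have a4 : (0 : ℤ) < (p ^ N : ℕ) := by exact_mod_cast pow_pos hp N
  generalize p ^ N = P at *
  generalize multiplicity π G = g at *
  generalize multiplicity π H = hh at *
  zify at a1 a2 a3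
  have b1 : (0 : ℤ) ≤ p * g := by positivity
  have b2 : (0 : ℤ) ≤ p * hh := by positivity
  rw [abs_lt]
  constructor
  · apply lt_of_mul_lt_mul_left _ a4.le
    nlinarith
  · apply lt_of_mul_lt_mul_left _ a4.le
    nlinarith

theorem endgame' {k K Z τ κ T : Type} [Field k] [Field K] [Field Z] [Algebra k K] [Algebra K Z]
    [Algebra k Z] [IsScalarTower k K Z] [Fintype τ] [Fintype κ] [Fintype T] {p : ℕ}
    [hp : Fact p.Prime] [CharP k p] (hp2 : p ≠ 2) (hτ : Fintype.card T + 3 ≤ Fintype.card τ)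
    (hκ : 2 ≤ Fintype.card κ) {z : τ → Z} (hz : AlgebraicIndependent K z)
    (hfr : ∀ c : Z, c ∈ IntermediateField.adjoin K (Set.range z))
    {y : κ → K} (hy : AlgebraicIndependent k y) (γ1 γ2 : K) (t : T → Z) {J s Δ η W : Z}
    (hgen : ∀ E : Subfield Z, (∀ c : k, algebraMap k Z c ∈ E) → algebraMap K Z γ1 ∈ E →
      algebraMap K Z γ2 ∈ E → (∀ i, t i ∈ E) → J ∈ E → s ∈ E → Δ ∈ E → η ∈ E → ∀ x, x ∈ E)
    (hs : s ≠ 0) (hW : W ≠ 0)
    (rel : Δ ^ 2 - s * η ^ 2 = s ^ 2 - algebraMap K Z (cc1 p γ1 γ2) * s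
      + algebraMap K Z (cc2 p γ1 γ2)) (hJ : J ^ 2 = s * W)
    {B : Z → Z → Z} (hB : IsBr B) (hBK : ∀ c x, B (algebraMap K Z c) x = 0)
    (hBz : ∀ a b, ∃ h : MvPolynomial τ K, B (z a) (z b) = aeval z h)
    (b1 : B s η = -2 * Δ) (b2 : B W η = 0) {C0 N : ℕ} (hC0 : C0 < p) {G H : MvPolynomial τ K}
    (hH : aeval z H ≠ 0) (eW : W ^ (p ^ N) * aeval z H ^ p = aeval z G ^ p)
    (dG : p * G.totalDegree ≤ p ^ N * C0) (dH : p * H.totalDegree ≤ p ^ N * C0) : False := by
  classical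
  have cK : CharP K p := charP_of_injective_algebraMap (algebraMap k K).injective p
  have cZ : CharP Z p := charP_of_injective_algebraMap (algebraMap k Z).injective p
  have h2K : (2 : K) ≠ 0 := by
    intro h0
    have := (CharP.cast_eq_zero_iff K p 2).1 (by exact_mod_cast h0)
    exact hp2 ((Nat.prime_dvd_prime_iff_eq hp.out Nat.prime_two).1 this)
  have h2Z : (2 : Z) ≠ 0 := by
    have := (map_ne_zero (algebraMap K Z)).2 h2K
    rwa [map_ofNat] at this
  set c1 := cc1 p γ1 γ2 with hc1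
  set c2 := cc2 p γ1 γ2 with hc2
  have hcard : Fintype.card (T ⊕ Fin 3) ≤ Fintype.card τ := by simpa using hτ
  have hk : ∀ (E : IntermediateField K Z) (c : k), algebraMap k Z c ∈ E := fun E c => by
    rw [IsScalarTower.algebraMap_apply k K Z]; exact E.algebraMap_mem _
  -- step A
  have hη : Transcendental K η := by
    let w1 : T ⊕ Fin 3 → Z := Sum.elim t ![J, s, η]
    let E := IntermediateField.adjoin K (Set.range w1)
    let E' := (algebraicClosure E Z).restrictScalars K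
    have hE : ∀ i, w1 i ∈ E' := fun i => (algebraicClosure E Z).algebraMap_mem
      (⟨w1 i, IntermediateField.subset_adjoin _ _ ⟨i, rfl⟩⟩ : E)
    have hs' : s ∈ E' := hE (.inr 1)
    have hη' : η ∈ E' := hE (.inr 2)
    have h1 := indep_of_alg' hz w1 hcard fun c => mem_algebraicClosure_iff.1
      (hgen E'.toSubfield (hk E') (E'.algebraMap_mem _) (E'.algebraMap_mem _)
        (fun i => hE (.inl i)) (hE (.inr 0)) hs' (by
          apply mem_algebraicClosure_iff.2
          apply isAlgebraic_of_sq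
          apply mem_algebraicClosure_iff.1
          rw [eq_add_of_sub_eq rel]
          exact E'.add_mem (E'.add_mem (E'.sub_mem (pow_mem hs' 2)
            (E'.mul_mem (E'.algebraMap_mem _) hs')) (E'.algebraMap_mem _))
            (E'.mul_mem hs' (pow_mem hη' 2))) hη' c)
    exact h1.transcendental (.inr 2)
  set u := Δ - s with hu
  have rel2 : s * (2 * u - η ^ 2 + algebraMap K Z c1) = algebraMap K Z c2 - u ^ 2 := by
    rw [hu]; linear_combination rel
  have hden : 2 * u - η ^ 2 + algebraMap K Z c1 ≠ 0 := by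
    intro h0
    rw [h0, mul_zero] at rel2
    apply hη
    apply isAlgebraic_of_sq
    have a1 : IsAlgebraic K u := by
      apply isAlgebraic_of_sq
      rw [← sub_eq_zero.1 rel2.symm]
      exact isAlgebraic_algebraMap _
    have : η ^ 2 = u + u + algebraMap K Z c1 := by linear_combination -h0
    rw [this]
    exact (a1.add a1).add (isAlgebraic_algebraMap _)
  have hgen2 : ∀ E : Subfield Z, (∀ c : k, algebraMap k Z c ∈ E) → algebraMap K Z γ1 ∈ E →
      algebraMap K Z γ2 ∈ E → (∀ i, t i ∈ E) → J ∈ E → u ∈ E → η ∈ E → ∀ x, x ∈ E := by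
    intro E a1 a2 a3 a4 a5 a6 a7
    have hs' : s ∈ E := by
      rw [eq_div_of_mul_eq hden rel2, hc1, hc2, map_cc1, map_cc2]
      exact E.div_mem (E.sub_mem (cc2_mem E p a2 a3) (pow_mem a6 2))
        (E.add_mem (E.sub_mem (E.mul_mem (ofNat_mem E 2) a6) (pow_mem a7 2)) (cc1_mem E p a2 a3))
    refine hgen E a1 a2 a3 a4 a5 hs' ?_ a7
    rw [show Δ = u + s by rw [hu]; ring]
    exact E.add_mem a6 hs'
  -- step B
  have hK : ∀ c, c ∈ IntermediateField.adjoin k (Set.range ![γ1, γ2]) := by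
    let w2 : T ⊕ Fin 3 → Z := Sum.elim t ![J, u, η]
    let E := IntermediateField.adjoin K (Set.range w2)
    have hE : ∀ i, w2 i ∈ E := fun i => IntermediateField.subset_adjoin _ _ ⟨i, rfl⟩
    have h1 := indep_of_alg' hz w2 hcard fun c => isAlgebraic_algebraMap
      (⟨c, hgen2 E.toSubfield (hk E) (E.algebraMap_mem _) (E.algebraMap_mem _)
        (fun i => hE (.inl i)) (hE (.inr 0)) (hE (.inr 1)) (hE (.inr 2)) c⟩ : E)
    refine mem_of_gen _ h1 fun E' a1 a2 => hgen2 E' (fun c => ?_)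
      (a1 _ (IntermediateField.subset_adjoin _ _ ⟨0, rfl⟩))
      (a1 _ (IntermediateField.subset_adjoin _ _ ⟨1, rfl⟩))
      (fun i => a2 (.inl i)) (a2 (.inr 0)) (a2 (.inr 1)) (a2 (.inr 2))
    rw [IsScalarTower.algebraMap_apply k K Z]
    exact a1 _ (IntermediateField.algebraMap_mem _ _)
  have hγ : AlgebraicIndependent k ![γ1, γ2] := indep_of_alg' hy _ (by simpa using hκ)
    fun c => isAlgebraic_algebraMap (⟨c, hK c⟩ : IntermediateField.adjoin k (Set.range ![γ1, γ2]))
  obtain ⟨L, _, φ, σ, m1, m2, hσ, hσφ, hm1, hm2, n1, n2, n3, e1, e2⟩ := exists_L (p := p) _ hγ hK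
  change φ c1 = _ at e1
  change φ c2 = _ at e2
  have h2L : (2 : L) ≠ 0 := by
    have := (map_ne_zero φ).2 h2K
    rwa [map_ofNat] at this
  -- step C
  have h := fr_aeval hz hfr
  let R' := MvPolynomial τ L
  let Z' := FractionRing R'
  have h' := fr_fractionRing R'
  obtain ⟨ψ, hψ⟩ := h.exists_lift ((algebraMap R' Z').comp (map φ))
    (h'.inj.comp (map_injective φ φ.injective))
  have hψK : ∀ c, ψ (algebraMap K Z c) = algebraMap L Z' (φ c) := fun c => by
    have := hψ (C c)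
    change ψ (aeval z (C c)) = algebraMap R' Z' (map φ (C c)) at this
    rw [aeval_C, map_C] at this
    exact this
  let σ' : R' ≃+* R' := mapEquiv τ σ
  have hσ' : ∀ a, σ' a = map (σ : L →+* L) a := fun _ => rfl
  obtain ⟨θ, hθ⟩ := h'.exists_lift ((algebraMap R' Z').comp σ'.toRingHom) (h'.inj.comp σ'.injective)
  have hθ' : ∀ a, θ (algebraMap R' Z' a) = algebraMap R' Z' (σ' a) := hθ
  have hθL : ∀ c, θ (algebraMap L Z' c) = algebraMap L Z' (σ c) := fun c => by
    rw [IsScalarTower.algebraMap_apply L R' Z', hθ', hσ', algebraMap_eq, map_C]; rfl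
  have hθψ : ∀ x, θ (ψ x) = ψ x := h.ext (φ := θ.comp ψ) (ψ := ψ) fun a => by
    rw [RingHom.comp_apply, hψ, RingHom.comp_apply, hθ', hσ', map_map]
    congr 2
    exact congrArg _ (RingHom.ext hσφ)
  have hpar : ∀ π0, Prime π0 → 0 < h.ord π0 s → Even (h.ord π0 s) := fun π0 hπ0 hpos =>
    parity_lemma h hπ0 hB (br_poly hB hBK hBz) hp.out h2Z (c1 := C c1) (c2 := C c2)
      (IsUnit.map C (Ne.isUnit fun h0 => by
        rw [h0, map_zero] at e2
        exact mul_ne_zero (pow_ne_zero _ n1) (pow_ne_zero _ n2) e2.symm)) hs hW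
      (by simpa using rel) hJ b1 b2 (ord_bound' h hπ0 hp.out.pos hC0 hW hH eW dG dH) hpos
  -- the last model
  let w3 : T ⊕ Fin 3 → Z' :=
    Sum.elim (fun i => ψ (t i)) ![ψ J, ψ u - algebraMap L Z' (m1 * m2), ψ η]
  have hg3 : ∀ c, c ∈ IntermediateField.adjoin L (Set.range w3) := by
    let E := IntermediateField.adjoin L (Set.range w3)
    have hE : ∀ i, w3 i ∈ E := fun i => IntermediateField.subset_adjoin _ _ ⟨i, rfl⟩
    have hKE : ∀ c, algebraMap K Z c ∈ E.toSubfield.comap ψ := fun c => by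
      rw [Subfield.mem_comap, hψK]; exact E.algebraMap_mem _
    have h1 := hgen2 (E.toSubfield.comap ψ)
      (fun c => by rw [IsScalarTower.algebraMap_apply k K Z]; exact hKE _) (hKE _) (hKE _)
      (fun i => hE (.inl i)) (hE (.inr 0))
      (by simpa [w3] using E.add_mem (hE (.inr 1)) (E.algebraMap_mem (m1 * m2))) (hE (.inr 2))
    intro c
    refine (IntermediateField.adjoin_le_iff.2 ?_ : _ ≤ E) (mem_adjoin_X c)
    rintro _ ⟨a, rfl⟩
    have := hψ (X a)
    change ψ (aeval z (X a)) = algebraMap R' Z' (map φ (X a)) at this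
    rw [aeval_X, map_X] at this
    have h2 := h1 (z a)
    rwa [Subfield.mem_comap, this] at h2
  have hi3 : AlgebraicIndependent L w3 := indep_of_alg' (indep_X_frac (σ := τ) (L := L)) w3 hcard
    fun c => isAlgebraic_algebraMap (⟨c, hg3 c⟩ : IntermediateField.adjoin L (Set.range w3))
  have h3 := fr_aeval hi3 hg3
  let σ3 : MvPolynomial (T ⊕ Fin 3) L ≃+* MvPolynomial (T ⊕ Fin 3) L := mapEquiv _ σ
  have hσ3 : ∀ a, σ3 a = map (σ : L →+* L) a := fun _ => rfl
  have hθ3 : ∀ a, θ ((aeval w3).toRingHom a) = (aeval w3).toRingHom (σ3 a) := by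
    intro a
    change θ (aeval w3 a) = aeval w3 (σ3 a)
    induction a using poly_ind with
    | hC c => rw [hσ3, map_C, aeval_C, aeval_C, hθL]; rfl
    | hadd a b ha hb => simp only [map_add, ha, hb]
    | hX a i ha =>
      rw [map_mul, map_mul, map_mul, map_mul, ha, hσ3 (X i), map_X, aeval_X]
      congr 1
      rcases i with i | i
      · exact hθψ _
      · fin_cases i
        · exact hθψ _
        · change θ (_ - _) = _ - _
          rw [map_sub, hθψ, hθL, map_mul, hm1, hm2, neg_mul_neg]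
        · exact hθψ _
  have hπ : Prime (X (.inr 1) : MvPolynomial (T ⊕ Fin 3) L) := X_prime
  have hev : ∀ (v : L) (f : MvPolynomial (T ⊕ Fin 3) L),
      eval (fun i => if i = .inr 2 then v else 0) f ≠ 0 →
        f ≠ 0 ∧ h3.ord (X (.inr 1)) (aeval w3 f) = 0 := by
    intro v f hf
    have h0 : f ≠ 0 := by rintro rfl; exact hf (map_zero _)
    refine ⟨h0, (h3.ord_e hπ h0).trans ?_⟩
    rw [multiplicity_eq_zero.2]
    · rfl
    · rintro ⟨g, rfl⟩
      simp at hf
  have d1 := hev 0 (-(X (.inr 1) + C (2 * (m1 * m2)))) (by simp [h2L, n1, n2])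
  have d2 : (2 * (X (.inr 1) + C (m1 * m2)) - X (.inr 2) ^ 2 + C (m1 ^ 2 + m2 ^ 2) :
      MvPolynomial (T ⊕ Fin 3) L) ≠ 0 ∧ h3.ord (X (.inr 1)) (aeval w3
        (2 * (X (.inr 1) + C (m1 * m2)) - X (.inr 2) ^ 2 + C (m1 ^ 2 + m2 ^ 2))) = 0 := by
    by_cases h0 : 2 * (m1 * m2) + (m1 ^ 2 + m2 ^ 2) = 0
    · refine hev 1 _ ?_
      have : 2 * (m1 * m2) - 1 + (m1 ^ 2 + m2 ^ 2) ≠ 0 := by
        intro h1
        exact one_ne_zero (α := L) (by linear_combination h0 - h1)
      simpa using this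
    · exact hev 0 _ (by simpa [map_ofNat] using h0)
  have hs' : ψ s ≠ 0 := (map_ne_zero ψ).2 hs
  have o1 : h3.ord (X (.inr 1)) (ψ s) = 1 := by
    have a1 := congrArg ψ rel2
    simp only [map_mul, map_add, map_sub, map_pow, map_ofNat, hψK, e1, e2] at a1
    have a2 : ψ s * aeval w3 (2 * (X (.inr 1) + C (m1 * m2)) - X (.inr 2) ^ 2
        + C (m1 ^ 2 + m2 ^ 2) : MvPolynomial (T ⊕ Fin 3) L)
        = aeval w3 (X (.inr 1) : MvPolynomial (T ⊕ Fin 3) L)
          * aeval w3 (-(X (.inr 1) + C (2 * (m1 * m2))) : MvPolynomial (T ⊕ Fin 3) L) := by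
      simp only [map_mul, map_add, map_sub, map_pow, map_ofNat, map_neg, aeval_X, aeval_C, w3,
        Sum.elim_inr, Matrix.cons_val_one, Matrix.cons_val_zero, Matrix.cons_val_two,
        Matrix.tail_cons, Matrix.head_cons]
      linear_combination a1
    have a3 := congrArg (h3.ord (X (.inr 1))) a2
    have ne3 : ∀ f, f ≠ 0 → aeval w3 f ≠ 0 := fun f hf => h3.ne hf
    rw [h3.ord_mul hπ hs' (ne3 _ d2.1), h3.ord_mul hπ (ne3 _ hπ.ne_zero) (ne3 _ d1.1), d1.2,
      d2.2] at a3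
    simpa using a3.trans (by rw [add_zero]; exact h3.ord_self hπ)
  have oL : ∀ c : L, c ≠ 0 → h3.ord (X (.inr 1)) (algebraMap L Z' c) = 0 := fun c hc => by
    simpa using (hev 0 (C c) (by simpa using hc)).2
  have nL : ∀ c : L, c ≠ 0 → algebraMap L Z' c ≠ 0 := fun c hc => (map_ne_zero _).2 hc
  have o2 := h3.ord_sub_of_gt hπ hs' (nL _ (pow_ne_zero 2 n1))
    (by rw [o1, oL _ (pow_ne_zero 2 n1)]; norm_num)
  rw [oL _ (pow_ne_zero 2 n1), map_pow] at o2
  have hC : ∀ c, algebraMap R' Z' (C c) = algebraMap L Z' c := fun c => rfl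
  obtain ⟨v, g, hv, hg, e3⟩ := exists_norm_frac σ' h' θ hθ'
    (fun a => by rw [hσ', hσ', map_map]; exact (congrArg (map · a) (RingHom.ext hσ)).trans (map_id a))
    (mul_ne_zero hs' o2.1)
    (by rw [map_mul, map_sub, map_pow, hθψ, hθL, hm1, map_neg, neg_sq])
    (fun π hπ' ha => even_ord σ' h' θ hθ' (IsUnit.map C h2L.isUnit) hπ' ha (m1 := C m1)
      (m2 := C m2) (IsUnit.map C n1.isUnit) (by simpa using IsUnit.map C n3.isUnit)
      (by rw [hσ', map_C, ← C_neg]; exact congrArg C hm1) (hθψ Δ) (hθψ η) hs' o2.1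
      (by
        have a1 := congrArg ψ rel
        simp only [map_mul, map_add, map_sub, map_pow, hψK, e1, e2] at a1
        rw [a1, hC, hC]; ring)
      (parity_transfer φ h h' ψ hψ hs hpar hπ'))
  obtain ⟨c, hc, rfl⟩ := isUnit_iff_eq_C_of_isReduced.1 hv
  have o3 := congrArg (h3.ord (X (.inr 1))) e3
  rw [hC, h3.ord_mul hπ hs' o2.1, o1, o2.2,
    h3.ord_mul hπ (mul_ne_zero (nL _ hc.ne_zero) hg) ((map_ne_zero θ).2 hg),
    h3.ord_mul hπ (nL _ hc.ne_zero) hg, oL _ hc.ne_zero,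
    ord_invol σ3 h3 θ hθ3 hπ (by rw [hσ3, map_X]) hg] at o3
  omega

end Pool.Agent.Lib.MP_75bae7_al.Cn
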