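import Pool.Agent.Lib.MP_75bae7_al.Cn.CtrP
import Pool.Agent.Lib.MP_75bae7_al.Cn.End

/-!
A Weyl skew field in characteristic 0 is not generated by the extended system.
-/

set_option autoImplicit false
set_option linter.unusedSectionVars false

namespace Pool.Agent.Lib.MP_75bae7_al.Cn

open MvPolynomial

theorem XS.congr {A : Type} [Ring A] {e : Fin 10 → A} {n : ℕ} {a b a' b' : ℕ → A}
    (X : XS e n a b) (ha : ∀ j < n, a' j = a j) (hb : ∀ j < n, b' j = b j) : XS e n a' b' where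
  S := X.S
  P := ⟨fun j hj => by rw [ha j hj, hb j hj]; exact X.P.shift j hj,
    fun i hi j hj => by rw [ha i hi, ha j hj]; exact X.P.tt i hi j hj,
    fun i hi j hj => by rw [hb i hi, hb j hj]; exact X.P.gg i hi j hj,
    fun i hi j hj hij => by rw [ha i hi, hb j hj]; exact X.P.tg i hi j hj hij⟩
  ca := fun j hj i => by rw [ha j hj]; exact X.ca j hj i
  cb := fun j hj i => by rw [hb j hj]; exact X.cb j hj i

theorem core' {ι κ F D : Type} [DecidableEq ι] [Fintype ι] [Fintype κ] [Field F] [CharZero F]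
    [DivisionRing D] [Algebra F D] (w : WF ι κ F D) {e : Fin 10 → D} {n : ℕ} {a b : ℕ → D}
    (S : XS e n a b) (hg : Gen F (xg e n a b)) (h1 : e 1 ≠ 0) (h3 : e 3 ≠ 0) (h5 : e 5 ≠ 0)
    (hψ : psi e ≠ 0) (hb : ∀ j < n, b j ≠ 0)
    (hind : ∀ g1 g2 : Ctr D, algebraMap _ D g1 = e 9 → algebraMap _ D g2 = gam2 e →
      AlgebraicIndependent F ![g1, g2]) : False := by
  classical
  obtain ⟨g1, hg1⟩ := hg.central S.c9
  obtain ⟨g2, hg2⟩ := hg.central S.gam2_comm
  have hκ := w.two_le_card _ (hind g1 g2 hg1 hg2)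
  obtain ⟨f, h, hh, hW⟩ := w.frac (e 5)
  have hf : f ≠ 0 := by rintro rfl; simp [hW] at h5
  have E1 : Ev fun V => ∀ i, w.nu V (xg e n a b i) ≤ 1 := Ev.all fun i => by
    by_cases h0 : xg e n a b i = 0
    · exact ⟨∅, fun V _ => by simp [h0]⟩
    · obtain ⟨S, hS⟩ := w.unit_control h0
      exact ⟨S, fun V hV => (hS V hV).le⟩
  have E2 : Ev fun V => ∀ c, ∀ T : Subring D, w.Closed V T → Set.range (xg e n a b) ⊆ T →
      w.g c ∈ T :=
    Ev.all fun c => hg (w.ctrl (Set.range (xg e n a b))) (w.ctrl_scal _)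
      (fun x hx => w.ctrl_inv _ hx) (fun i => w.ctrl_sub _ ⟨i, rfl⟩) (w.g c)
  have E3 : Ev fun V => ∀ j : Fin n, w.nu V (b j) = 1 :=
    Ev.all fun j => w.unit_control (hb j j.2)
  obtain ⟨S0, hS0⟩ := ((((E1.and E3).and E2).and (Ev.and (w.unit_control h1) (w.unit_control h3))).and
    (Ev.and (w.unit_control h5) (w.unit_control hψ))).and
    ((Ev.and (w.unit_control (w.phi_ne_zero hf)) (w.unit_control (w.phi_ne_zero hh))).and
    (Ev.and (w.central_ctrl (u := e 9) (fun x => hg1 ▸ Algebra.commutes g1 x))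
      (w.central_ctrl (u := gam2 e) (fun x => hg2 ▸ Algebra.commutes g2 x))))
  obtain ⟨V, p, hp, hN, hSV, hv⟩ :=
    exists_valuationSubring S0 (max (max f.totalDegree h.totalDegree) 2)
  obtain ⟨⟨⟨⟨⟨vx, vb⟩, vg⟩, v1, v3⟩, v5, vψ⟩, ⟨vf, vh⟩, c1, c2⟩ := hS0 V hSV
  have : Fact p.Prime := ⟨hp⟩
  have := WF.charP_residue hp hv
  have hp2 : p ≠ 2 := by omega
  obtain ⟨m, hpm⟩ := hp.odd_of_ne_two hp2
  have v0 : ∀ i, w.nu V (e i) ≤ 1 := fun i => vx (.inl i)
  let e0 : Fin 10 → w.O V := fun i => ⟨e i, v0 i⟩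
  let a0 : ℕ → w.O V := fun j => if hj : j < n then ⟨a j, vx (.inr (.inl ⟨j, hj⟩))⟩ else 0
  let b0 : ℕ → w.O V := fun j => if hj : j < n then ⟨b j, vx (.inr (.inr ⟨j, hj⟩))⟩ else 0
  have ha0 : ∀ j < n, (a0 j : D) = a j := fun j hj => by simp only [a0, dif_pos hj]
  have hb0 : ∀ j < n, (b0 j : D) = b j := fun j hj => by simp only [b0, dif_pos hj]
  have X1 : XS e0 n a0 b0 :=
    XS.of_map (w.O V).subtype Subtype.val_injective (S.congr ha0 hb0)
  have S1 : Sys e0 := X1.S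
  have S2 := X1.map (w.red V)
  have hx0 : ∀ i, ((xg e0 n a0 b0 i : w.O V) : D) = xg e n a b i := by
    rintro (i | j | j)
    exacts [rfl, ha0 j j.2, hb0 j j.2]
  have hO : ∀ T : Subring D, w.Closed V T → (∀ i, xg e n a b i ∈ T) → w.O V ≤ T := fun T hT hi =>
    hT.O_le w V fun c => vg c T hT (by rintro _ ⟨i, rfl⟩; exact hi i)
  have hgb : Gen (IsLocalRing.ResidueField V)
      (xg (fun i => w.red V (e0 i)) n (fun j => w.red V (a0 j)) (fun j => w.red V (b0 j))) := by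
    intro T a1 a2 a3 x
    obtain ⟨x, rfl⟩ := w.red_surjective V x
    obtain ⟨u, hu, e1⟩ := hO _ (w.closed_preimage V T a1 a2) (fun i => ⟨xg e0 n a0 b0 i, by
      have := a3 i
      rcases i with i | j | j <;> exact this, hx0 i⟩) x.2
    rw [← Subtype.ext e1]; exact hu
  choose y0 hy0 using fun j => Ctr.exists_eq ((w.wb V).g (.inr j)) ((w.wb V).y_central j)
  choose z hz using fun a => Ctr.exists_eq ((w.wb V).g (.inl a) ^ p) ((w.wb V).pow_central _)
  let K := IntermediateField.adjoin (IsLocalRing.ResidueField V) (Set.range y0)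
  let y : κ → K := fun j => ⟨y0 j, IntermediateField.subset_adjoin _ _ ⟨j, rfl⟩⟩
  have hy : ∀ j, algebraMap (Ctr (w.Db V)) (w.Db V) (algebraMap K _ (y j)) = (w.wb V).g (.inr j) :=
    hy0
  have hKc : ∀ u : w.O V, (∀ T : Subring D, w.Closed V T →
      (Set.range fun j => w.g (.inr j)) ⊆ T → (u : D) ∈ T) →
      ∃ c : K, algebraMap (Ctr (w.Db V)) (w.Db V) (algebraMap K _ c) = w.red V u := by
    intro u hu
    obtain ⟨u', ⟨c, hc, e2⟩, e1⟩ := hu _ (w.closed_preimage V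
      (K.toSubring.map (algebraMap (Ctr (w.Db V)) (w.Db V)))
      (fun c => ⟨_, K.algebraMap_mem c, rfl⟩) (by
        rintro _ ⟨c, hc, rfl⟩
        exact ⟨c⁻¹, K.inv_mem hc, map_inv₀ _ _⟩)) (by
      rintro _ ⟨j, rfl⟩
      exact ⟨w.gO V (.inr j), ⟨y0 j, (y j).2, hy0 j⟩, rfl⟩)
    exact ⟨⟨c, hc⟩, e2.trans (congrArg _ (Subtype.ext e1))⟩
  obtain ⟨γ1, hγ1⟩ := hKc (e0 9) c1
  obtain ⟨γ2, hγ2⟩ := hKc (gam2 e0) (by
    have := map_gam2 (w.O V).subtype e0
    change (↑(gam2 e0) : D) = gam2 e at this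
    rw [this]; exact c2)
  rw [map_gam2] at hγ2
  have hi := (w.wb V).indep_zy y hy z hz
  rw [AlgebraicIndependent.sumElim_iff] at hi
  have n5 : w.red V (e0 5) ≠ 0 := (w.red_ne_zero_iff V _).2 v5
  obtain ⟨hr, t, J, s, Δ, η, W, hgen, hs, hW0, rel, hJ, eW, es, eη, eΔ⟩ := S2.center_data hpm hgb
    ((w.red_ne_zero_iff V _).2 v1) ((w.red_ne_zero_iff V _).2 v3) n5 (by
      rw [← map_psi, w.red_ne_zero_iff]
      have := map_psi (w.O V).subtype e0
      change (↑(psi e0) : D) = psi e at this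
      rw [this]; exact vψ) (fun j hj => by
      rw [w.red_ne_zero_iff, hb0 j hj]; exact vb ⟨j, hj⟩) hγ1 hγ2 ((w.wb V).finrank_center y hy z hz)
  obtain ⟨B, hB, hBK, hBz, spec⟩ := WF.exists_bracket hp hv y hy (fun c => c.2) z hz
  have good : ∀ u : w.O V, (∀ c : w.O V, (∀ i, Commute c (e0 i)) → Commute c u) →
      (∀ i, ∃ x : w.O V, u * e0 i - e0 i * u = p * x) → w.Good V p u := by
    intro u hc hu
    refine w.good_of_le V p (hO _ (w.cmt_closed V _ _) fun i => ⟨vx i, ?_⟩)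
    obtain ⟨x, hx⟩ : ∃ x : w.O V, u * xg e0 n a0 b0 i - xg e0 n a0 b0 i * u = p * x := by
      rcases i with i | j | j
      · exact hu i
      · exact ⟨0, by rw [mul_zero, sub_eq_zero]; exact (hc _ (X1.ca j j.2)).eq.symm⟩
      · exact ⟨0, by rw [mul_zero, sub_eq_zero]; exact (hc _ (X1.cb j j.2)).eq.symm⟩
    rw [← hx0 i]
    exact w.nu_le_of_eq V p (e := x) (by simpa using congrArg Subtype.val hx)
  have z0 : ∀ {u : w.O V} {i}, Commute (e0 i) u → ∃ x : w.O V, u * e0 i - e0 i * u = p * x :=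
    fun h => ⟨0, by rw [h.eq, sub_self, mul_zero]⟩
  set σ : w.O V := (ss e0 ^ m - 1) * (ss e0 ^ m - 1) * ss e0 with hσ
  have hTT : TT e0 p * TT e0 p = sc σ := by rw [hpm, S1.TT_sq]
  have cσ : ∀ {u : w.O V}, Commute u (ss e0) → Commute u σ := fun h =>
    (((h.pow_right m).sub_right (Commute.one_right _)).mul_right
      ((h.pow_right m).sub_right (Commute.one_right _))).mul_right h
  have rσ : w.red V σ = algebraMap _ _ s := by
    rw [es, hσ, map_mul, map_mul, map_sub, map_pow, map_one, map_ss]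
  have gσ : w.Good V p σ := by
    obtain ⟨M, hM⟩ := S1.br_one hp ⟨m, hpm⟩
    rw [hTT] at hM
    have q0 := congrFun (congrFun hM 0) 0
    have a1 := congrFun (congrFun hM 1) 0
    rw [Matrix.sub_apply, sc_mul_apply, mul_sc_apply, natCast_mul_apply] at q0 a1
    refine good _ (fun c hc => cσ (((hc 6).mul_right (hc 6)).mul_right (hc 5))) fun i => ?_
    fin_cases i
    exacts [z0 (cσ (S1.ss_comm 0 rfl rfl)), z0 (cσ (S1.ss_comm 1 rfl rfl)), z0 (cσ (S1.ss_comm 2 rfl rfl)),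
      z0 (cσ (S1.ss_comm 3 rfl rfl)), z0 (cσ S1.H_ss), z0 (cσ (S1.ss_comm 5 rfl rfl)), z0 (cσ (S1.ss_comm 6 rfl rfl)),
      ⟨_, a1⟩, ⟨_, q0⟩, z0 (cσ (S1.ss_comm 9 rfl rfl))]
  have gW : w.Good V p (e0 5 ^ p) := by
    refine good _ (fun c hc => (hc 5).pow_right p) fun i => ?_
    by_cases hi : i = 4
    · subst hi
      have a1 : ∀ n : ℕ, e0 4 * e0 5 ^ n - e0 5 ^ n * e0 4 = n * (2 * e0 5 ^ n) := by
        intro n
        induction n with
        | zero => simp
        | succ n ih =>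
          have : e0 4 * e0 5 ^ (n + 1) - e0 5 ^ (n + 1) * e0 4
              = (e0 4 * e0 5 ^ n - e0 5 ^ n * e0 4) * e0 5
                + e0 5 ^ n * (e0 4 * e0 5 - e0 5 * e0 4) := by rw [pow_succ]; noncomm_ring
          rw [this, ih, S1.r45, pow_succ]; push_cast; noncomm_ring
      exact ⟨-(2 * e0 5 ^ p), by rw [mul_neg, ← a1, neg_sub]⟩
    · exact z0 ((S1.c i 5 (by revert i; decide)).pow_right p)
  have rW : w.red V (e0 5 ^ p) = algebraMap _ _ W := by rw [eW, map_pow]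
  have rξ : w.red V ((ap e0 ^ p * TT e0 p) 0 0) = algebraMap _ _ (η * s) := by
    rw [eη, ← map_ap, ← map_TT, ← map_pow, ← map_mul]; rfl
  have inj := (algebraMap (Ctr (w.Db V)) (w.Db V)).injective
  have cZ : CharP (Ctr (w.Db V)) p :=
    charP_of_injective_algebraMap (algebraMap (IsLocalRing.ResidueField V) _).injective p
  have h2 : (2 : Ctr (w.Db V)) ≠ 0 := by
    intro h0
    have := (CharP.cast_eq_zero_iff (Ctr (w.Db V)) p 2).1 (by exact_mod_cast h0)
    exact hp2 ((Nat.prime_dvd_prime_iff_eq hp Nat.prime_two).1 this)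
  have b1 : B s η = -2 * Δ := by
    obtain ⟨M, hM⟩ := S1.br_p hp
    rw [hTT] at hM
    have q0 := congrFun (congrFun hM 0) 0
    rw [Matrix.sub_apply, sc_mul_apply, mul_sc_apply, natCast_mul_apply] at q0
    have a1 := spec s (η * s) _ _ _ gσ rσ rξ q0
    have a2 : (w.red V).mapMatrix (p : M2 (w.O V)) = 0 := by
      rw [map_natCast]; exact cast_p_eq_zero (IsLocalRing.ResidueField V)
    change _ = (w.red V).mapMatrix _ 0 0 at a1
    rw [map_mul, map_mul, map_add, map_mul, map_mul, a2, zero_mul, add_zero, map_pow, map_ap,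
      map_TT, map_neg, map_ofNat, mul_assoc, mul_assoc, ← mul_assoc (TT _ _), neg_mul,
      Matrix.neg_apply, two_mul, Matrix.add_apply, ← eΔ, ← map_add, ← map_neg] at a1
    have a3 := inj a1
    rw [hB.mul', hB.self h2] at a3
    apply mul_left_cancel₀ hs
    linear_combination a3
  have b2 : B W η = 0 := by
    have a1 := spec W s _ _ 0 gW rW rσ (by
      rw [((cσ (S1.ss_comm 5 rfl rfl)).pow_left p).eq, sub_self, mul_zero])
    have a2 := spec W (η * s) _ _ 0 gW rW rξ (by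
      have c1 : Commute (sc (e0 5)) (tt e0) :=
        commute_sc_qm (Commute.zero_right _) (S1.c 5 6 rfl) (S1.c 5 5 rfl)
      have c2 : Commute (sc (e0 5)) (ap e0 ^ p * TT e0 p) :=
        ((commute_sc_qm (S1.c 5 8 rfl) (S1.c 5 7 rfl) (S1.c 5 5 rfl)).pow_right p).mul_right
          ((c1.pow_right p).sub_right c1)
      rw [((commute_sc.1 c2 0 0).pow_left p).eq, sub_self, mul_zero])
    rw [map_zero, map_eq_zero] at a1 a2
    rw [hB.mul', a1, mul_zero, zero_add] at a2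
    exact (mul_eq_zero.1 a2).resolve_left hs
  rw [w.nu_phi] at vf vh
  obtain ⟨f0, hf0⟩ := exists_lift vf.le
  obtain ⟨h0, hh0⟩ := exists_lift vh.le
  have hu : w.red V (e0 5) * (w.wb V).Φ (map (IsLocalRing.residue V) h0)
      = (w.wb V).Φ (map (IsLocalRing.residue V) f0) := by
    have a1 := w.red_phiO V h0
    have a2 := w.red_phiO V f0
    change _ = (w.wb V).Φ _ at a1 a2
    rw [← a1, ← a2, ← map_mul]
    congr 1
    apply Subtype.ext
    rw [Subring.coe_mul, w.coe_phiO, w.coe_phiO, hf0, hh0]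
    change e 5 * _ = _
    rw [hW, mul_assoc, inv_mul_cancel₀ (w.phi_ne_zero hh), mul_one]
  obtain ⟨G, H, hH, eG, dG, dH⟩ := (w.wb V).norm_bound y hy z hz
    (C0 := max f.totalDegree h.totalDegree)
    (degLT_of_map _ Subtype.val_injective _ (hf0 ▸ (degLT_totalDegree f).mono (by omega)))
    (degLT_of_map _ Subtype.val_injective _ (hh0 ▸ (degLT_totalDegree h).mono (by omega)))
    ((gauss_map_eq_one_iff _).1 (hh0 ▸ vh)) hu eW
  have hzK : AlgebraicIndependent K z := (IntermediateField.algebraicIndependent_adjoin_iff).2 hi.2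
  exact endgame' (K := K) hp2 (by simp [hr]; omega) hκ hzK
    (fun c => by
      obtain ⟨a1, b1, -, e1⟩ := (w.wb V).center_frac y hy z hz c
      exact (IntermediateField.mem_adjoin_range_iff _ _ _).2 ⟨a1, b1, e1⟩)
    (AlgebraicIndependent.of_comp K.val hi.1) γ1 γ2 t hgen hs hW0
    (by rw [map_cc1, map_cc2]; exact rel) hJ hB hBK hBz b1 b2 (by omega) hH eG dG dH

end Pool.Agent.Lib.MP_75bae7_al.Cn
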