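import Pool.Agent.Lib.MP_75bae7_al.Cn.Defs

/-!
Row vectors over a skew field.
-/

set_option autoImplicit false
set_option linter.unusedSectionVars false

namespace Pool.Agent.Lib.MP_75bae7_al.Cn

open Matrix

variable {n D : Type} [Fintype n] [DecidableEq n] [DivisionRing D]

theorem unit_of_rows {M : Matrix n n D} (h : ∀ u : n → D, u ᵥ* M = 0 → u = 0) : IsUnit M := by
  have hi : Function.Injective (Matrix.toLinearMapRight' M) :=
    (injective_iff_map_eq_zero _).2 h
  have hs : Function.Surjective (Matrix.toLinearMapRight' M) :=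
    LinearMap.injective_iff_surjective.1 hi
  choose v hv using fun i : n => hs (Pi.single i 1)
  have h1 : Matrix.of v * M = 1 := by
    ext i j
    have := congrFun (hv i) j
    rw [Matrix.toLinearMapRight'_apply] at this
    rw [Matrix.one_apply, Matrix.mul_apply_eq_vecMul]
    exact this.trans (by rw [Pi.single_apply]; simp only [eq_comm])
  have h2 : M * Matrix.of v = 1 := by
    ext i j
    have h3 : (M * Matrix.of v - 1) * M = 0 := by
      rw [sub_mul, Matrix.mul_assoc, h1, Matrix.mul_one, Matrix.one_mul, sub_self]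
    have h4 := h ((M * Matrix.of v - 1) i) (by
      rw [← Matrix.mul_apply_eq_vecMul, h3]; rfl)
    exact sub_eq_zero.1 (congrFun h4 j)
  exact ⟨⟨M, Matrix.of v, h2, h1⟩, rfl⟩

theorem descend (T : Subfield D) {M : Matrix n n D} (hM : ∀ i j, M i j ∈ T) {u : n → D}
    (hu : u ≠ 0) (h : u ᵥ* M = 0) : ∃ v : n → D, (∀ i, v i ∈ T) ∧ v ≠ 0 ∧ v ᵥ* M = 0 := by
  by_contra hc
  let N : Matrix n n T := Matrix.of fun i j => ⟨M i j, hM i j⟩
  have e : T.subtype.mapMatrix N = M := by ext i j; rfl
  have h1 : IsUnit N := unit_of_rows fun w hw => by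
    by_contra h0
    refine hc ⟨fun i => w i, fun i => (w i).2, fun h2 => h0 ?_, ?_⟩
    · ext i; exact congrFun h2 i
    · ext j
      have := congrArg T.subtype (congrFun hw j)
      rw [Matrix.vecMul, dotProduct, map_sum] at this
      simpa [Matrix.vecMul, dotProduct, N] using this
  obtain ⟨K, hK⟩ := (e ▸ h1.map T.subtype.mapMatrix : IsUnit M).exists_right_inv
  apply hu
  rw [← Matrix.vecMul_one u, ← hK, ← Matrix.vecMul_vecMul, h, Matrix.zero_vecMul]

theorem shift_rows [CharZero D] (τ : D →+* D) {M : Matrix n n D} (hM : ∀ i j, τ (M i j) = M i j)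
    {c : D} (hc : τ c = c + 1) {u : n → D} (h : u ᵥ* (M + Matrix.scalar n c) = 0) : u = 0 := by
  by_contra hu
  let w : ℕ → n → D := fun k i => τ^[k] (u i)
  let φ := Matrix.toLinearMapRight' (M + Matrix.scalar n c)
  have form : ∀ (v : n → D) (d : D) (j : n),
      (v ᵥ* (M + Matrix.scalar n d)) j = ∑ i, v i * M i j + v j * d := fun v d j => by
    rw [Matrix.vecMul_add, Pi.add_apply, Matrix.scalar_apply, Matrix.vecMul_diagonal]; rfl
  have h1 : ∀ (k : ℕ) (j : n), ∑ i, w k i * M i j + w k j * (c + k) = 0 := fun k => by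
    induction k with
    | zero => intro j; simpa [w] using (form u c j).symm.trans (congrFun h j)
    | succ k ih =>
      intro j
      have := congrArg τ (ih j)
      simp only [map_add, map_sum, map_mul, hM, hc, map_natCast, map_zero] at this
      simp only [w, Function.iterate_succ_apply']
      rw [← this, Nat.cast_succ, add_assoc c, add_comm (1 : D)]
  have h2 : ∀ k : ℕ, φ (w k) = -((k : D) • w k) := fun k => by
    ext j
    have := h1 k j
    rw [mul_add, ← add_assoc] at this
    rw [Matrix.toLinearMapRight'_apply, form, Pi.neg_apply, Pi.smul_apply, smul_eq_mul,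
      (Nat.cast_commute k (w k j)).eq]
    exact eq_neg_of_add_eq_zero_left this
  have h3 : ∀ k, w k ≠ 0 := fun k h0 => hu (funext fun i =>
    (τ.injective.iterate k) ((congrFun h0 i).trans (Function.iterate_fixed (map_zero τ) k).symm))
  have h4 : LinearIndependent D w := by
    rw [linearIndependent_iff']
    intro s
    induction s using Finset.induction_on with
    | empty => simp
    | insert a s ha ih =>
      intro g hg
      have h5 : ∑ k ∈ s, (g k * ((a : D) - k)) • w k = 0 := by
        have h6 : φ (∑ k ∈ insert a s, g k • w k) + (a : D) • ∑ k ∈ insert a s, g k • w k = 0 := by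
          rw [hg, map_zero, smul_zero, add_zero]
        rw [map_sum, Finset.smul_sum, ← Finset.sum_add_distrib] at h6
        have h7 : ∀ k : ℕ, φ (g k • w k) + (a : D) • g k • w k = (g k * ((a : D) - k)) • w k :=
          fun k => by
            rw [map_smul, h2, smul_neg, smul_smul, smul_smul, (Nat.cast_commute a (g k)).eq,
              mul_sub, sub_smul, neg_add_eq_sub]
        simp only [h7] at h6
        rwa [Finset.sum_insert ha, sub_self, mul_zero, zero_smul, zero_add] at h6
      have h8 : ∀ k ∈ s, g k = 0 := fun k hk => by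
        refine (mul_eq_zero.1 (ih _ h5 k hk)).resolve_right fun e => ha ?_
        rwa [Nat.cast_injective (sub_eq_zero.1 e)]
      intro k hk
      rcases Finset.mem_insert.1 hk with rfl | hk
      · rw [Finset.sum_insert ha, Finset.sum_eq_zero fun k hk => by rw [h8 k hk, zero_smul],
          add_zero] at hg
        exact (smul_eq_zero.1 hg).resolve_right (h3 _)
      · exact h8 k hk
  exact Module.Finite.not_linearIndependent_of_infinite w h4

theorem Eig.isAlgebraic {Z : Type} [Field Z] {T : Subfield Z} {c : Z} (h : Eig T c) :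
    IsAlgebraic T c := by
  obtain ⟨n, _, _, M, u, hM, hu, h⟩ := h
  let N : Matrix n n T := Matrix.of fun i j => ⟨-M i j, T.neg_mem (hM i j)⟩
  have h1 : (M + Matrix.scalar n c).det = 0 := Matrix.exists_vecMul_eq_zero_iff.1 ⟨u, hu, h⟩
  refine ⟨N.charpoly, N.charpoly_monic.ne_zero, ?_⟩
  rw [Polynomial.aeval_def, Polynomial.eval₂_eq_eval_map, ← Matrix.charpoly_map,
    Matrix.eval_charpoly, ← h1]
  refine congrArg Matrix.det ?_
  ext i j
  rw [Matrix.sub_apply, Matrix.add_apply, add_comm, sub_eq_add_neg]
  exact congrArg _ (neg_neg (M i j))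

end Pool.Agent.Lib.MP_75bae7_al.Cn
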