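import Pool.Agent.Lib.MP_75bae7_al.Cn.Frac
import Pool.Agent.Lib.MP_75bae7_al.Cn.Rows

/-!
Simplicity of the Weyl algebra in characteristic 0 and its consequences.
-/

set_option autoImplicit false
set_option linter.unusedSectionVars false

namespace Pool.Agent.Lib.MP_75bae7_al.Cn

open MvPolynomial

section
variable {ι κ k : Type} [DecidableEq ι] [Fintype ι] [Fintype κ] [Field k] [CharZero k]

theorem simple_core (N : MvPolynomial ((ι ⊕ ι) ⊕ κ) k → Prop)
    (hN : ∀ a f, N f → N (der (sh1 ι κ) k (.inl a) f)) {f : MvPolynomial ((ι ⊕ ι) ⊕ κ) k}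
    (hf : f ≠ 0) (h : N f) : ∃ f0 : MvPolynomial κ k, f0 ≠ 0 ∧ N (rename Sum.inr f0) := by
  have key : ∀ (m : ℕ) (f : MvPolynomial ((ι ⊕ ι) ⊕ κ) k), f ≠ 0 → DegLT m f → N f →
      ∃ f0 : MvPolynomial κ k, f0 ≠ 0 ∧ N (rename Sum.inr f0) := by
    intro m
    induction m with
    | zero =>
      intro f h0 hm _
      exact absurd (hm.totalDegree_lt h0) (by simp)
    | succ m ih =>
      intro f h0 hm hf
      by_cases hall : ∀ a, der (sh1 ι κ) k (.inl a) f = 0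
      · obtain ⟨f1, rfl⟩ := WF.exists_rename hall
        exact ⟨f1, fun h => h0 (by rw [h, map_zero]), hf⟩
      · push Not at hall
        obtain ⟨a, ha⟩ := hall
        exact ih _ ha (hm.der _) (hN a f hf)
  exact key _ f hf (degLT_totalDegree f) h

theorem phi_inj {M : Type} [Ring M] [Algebra k M] {g : (ι ⊕ ι) ⊕ κ → M} (hg : (sh1 ι κ).IsSys g)
    (hy : ∀ f0 : MvPolynomial κ k, f0 ≠ 0 → phi (sh1 ι κ) k g (rename Sum.inr f0) ≠ 0) :
    Function.Injective (phi (sh1 ι κ) k g) := by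
  rw [injective_iff_map_eq_zero]
  intro f hf
  by_contra h0
  obtain ⟨f0, h1, h2⟩ := simple_core (fun f => phi (sh1 ι κ) k g f = 0) (fun a f h => by
    rw [← ad_phi hg, h, mul_zero, zero_mul, sub_zero]) h0 hf
  exact hy f0 h1 h2

theorem unit_matrix {n D : Type} [Fintype n] [DecidableEq n] [DivisionRing D] [Algebra k D]
    {g : (ι ⊕ ι) ⊕ Empty → Matrix n n D} (hg : (sh1 ι Empty).IsSys g)
    {f : MvPolynomial ((ι ⊕ ι) ⊕ Empty) k} (hf : f ≠ 0) : IsUnit (phi (sh1 ι Empty) k g f) := by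
  obtain ⟨W, _, _, ⟨w⟩⟩ := exists_WFk ι Empty k
  have hmul : ∀ (u : n → D) (h b : MvPolynomial ((ι ⊕ ι) ⊕ Empty) k),
      Matrix.vecMul u (phi (sh1 ι Empty) k g h) = 0 →
      Matrix.vecMul u (phi (sh1 ι Empty) k g (star (sh1 ι Empty) h b)) = 0 := by
    intro u h b hu
    rw [phi_star hg, ← Matrix.vecMul_vecMul, hu, Matrix.zero_vecMul]
  have hcom : ∀ h h' : MvPolynomial ((ι ⊕ ι) ⊕ Empty) k, h ≠ 0 → h' ≠ 0 →
      ∃ H : MvPolynomial ((ι ⊕ ι) ⊕ Empty) k, H ≠ 0 ∧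
        (∀ u : n → D, Matrix.vecMul u (phi (sh1 ι Empty) k g h) = 0 →
          Matrix.vecMul u (phi (sh1 ι Empty) k g H) = 0) ∧
        (∀ u : n → D, Matrix.vecMul u (phi (sh1 ι Empty) k g h') = 0 →
          Matrix.vecMul u (phi (sh1 ι Empty) k g H) = 0) := by
    intro h h' h0 h0'
    obtain ⟨a, b, hb, e, -⟩ := w.ore h h0'
    refine ⟨star (sh1 ι Empty) h b, star_ne_zero h0 hb, fun u hu => hmul u h b hu, fun u hu => ?_⟩
    rw [e]
    exact hmul u h' a hu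
  let T : Submodule D (n → D) :=
    { carrier := {u | ∃ h : MvPolynomial ((ι ⊕ ι) ⊕ Empty) k, h ≠ 0 ∧
        Matrix.vecMul u (phi (sh1 ι Empty) k g h) = 0}
      zero_mem' := ⟨1, one_ne_zero, Matrix.zero_vecMul _⟩
      add_mem' := by
        rintro u v ⟨h, h0, hu⟩ ⟨h', h0', hv⟩
        obtain ⟨H, hH, h1, h2⟩ := hcom h h' h0 h0'
        exact ⟨H, hH, by rw [Matrix.add_vecMul, h1 u hu, h2 v hv, add_zero]⟩
      smul_mem' := by
        rintro c u ⟨h, h0, hu⟩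
        exact ⟨h, h0, by rw [Matrix.smul_vecMul, hu, smul_zero]⟩ }
  have hT : ∀ u, u ∈ T ↔ ∃ h : MvPolynomial ((ι ⊕ ι) ⊕ Empty) k, h ≠ 0 ∧
      Matrix.vecMul u (phi (sh1 ι Empty) k g h) = 0 := fun _ => Iff.rfl
  have hst : ∀ a, ∀ u ∈ T, Matrix.vecMul u (g a) ∈ T := by
    intro a u hu
    obtain ⟨h, h0, hu⟩ := (hT u).1 hu
    obtain ⟨c, b, hb, e, -⟩ := w.ore (X a) h0
    refine (hT _).2 ⟨b, hb, ?_⟩
    rw [Matrix.vecMul_vecMul, ← phi_X (R := k) hg a, ← phi_star hg, e]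
    exact hmul u h c hu
  have hfin : ∀ s : Finset (n → D), (∀ u ∈ s, u ∈ T) →
      ∃ h : MvPolynomial ((ι ⊕ ι) ⊕ Empty) k, h ≠ 0 ∧
        ∀ u ∈ s, Matrix.vecMul u (phi (sh1 ι Empty) k g h) = 0 := by
    classical
    intro s
    induction s using Finset.induction_on with
    | empty => exact fun _ => ⟨1, one_ne_zero, fun u hu => absurd hu (Finset.notMem_empty u)⟩
    | insert v s _ ih =>
      intro hs
      obtain ⟨h, h0, hh⟩ := ih fun u hu => hs u (Finset.mem_insert_of_mem hu)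
      obtain ⟨h', h0', hv⟩ := (hT v).1 (hs v (Finset.mem_insert_self v s))
      obtain ⟨H, hH, h1, h2⟩ := hcom h h' h0 h0'
      refine ⟨H, hH, fun u hu => ?_⟩
      rcases Finset.mem_insert.1 hu with rfl | hu
      · exact h2 _ hv
      · exact h1 u (hh u hu)
  obtain ⟨s, hs⟩ : T.FG := IsNoetherian.noetherian T
  obtain ⟨h, h0, hh⟩ := hfin s fun u hu => hs ▸ Submodule.subset_span hu
  have hall : ∀ u ∈ T, Matrix.vecMul u (phi (sh1 ι Empty) k g h) = 0 := by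
    intro u hu
    rw [← hs] at hu
    induction hu using Submodule.span_induction with
    | mem x hx => exact hh x hx
    | zero => exact Matrix.zero_vecMul _
    | add x y _ _ hx hy => rw [Matrix.add_vecMul, hx, hy, add_zero]
    | smul c x _ hx => rw [Matrix.smul_vecMul, hx, smul_zero]
  obtain ⟨f0, h1, h2⟩ := simple_core
    (fun h => ∀ u ∈ T, Matrix.vecMul u (phi (sh1 ι Empty) k g h) = 0) (fun a h hN u hu => by
      rw [← ad_phi hg, Matrix.vecMul_sub, ← Matrix.vecMul_vecMul, ← Matrix.vecMul_vecMul,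
        hN _ (hst _ u hu), hN u hu, Matrix.zero_vecMul, sub_zero]) h0 hall
  refine unit_of_rows fun u hu => ?_
  have h3 := h2 u ((hT u).2 ⟨f, hf, hu⟩)
  rw [eq_C_of_isEmpty f0] at h1 h3
  have hc : coeff 0 f0 ≠ 0 := fun hc => h1 (by rw [hc, map_zero])
  rw [rename_C, phi_C hg] at h3
  have h4 := congrArg (fun v => Matrix.vecMul v (algebraMap k (Matrix n n D) (coeff 0 f0)⁻¹)) h3
  simp only [Matrix.vecMul_vecMul, ← map_mul, mul_inv_cancel₀ hc, map_one, Matrix.vecMul_one,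
    Matrix.zero_vecMul] at h4
  exact h4

/-- normal ordering on polynomials in the central letters is evaluation -/
theorem phi_rename_inr {D Z : Type} [Ring D] [Algebra k D] {g : (ι ⊕ ι) ⊕ κ → D}
    (hg : (sh1 ι κ).IsSys g) [CommRing Z] [Algebra k Z] [Algebra Z D] [IsScalarTower k Z D]
    (y : κ → Z) (hy : ∀ j, algebraMap Z D (y j) = g (.inr j)) (f : MvPolynomial κ k) :
    phi (sh1 ι κ) k g (rename Sum.inr f) = algebraMap Z D (aeval y f) := by
  induction f using poly_ind with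
  | hC c => rw [rename_C, phi_C hg, aeval_C, ← IsScalarTower.algebraMap_apply]
  | hadd p q hp hq => simp [hp, hq]
  | hX p j hp =>
    rw [map_mul, rename_X, phi_left hg rfl, hp, map_mul, aeval_X, map_mul, hy]

theorem aeval_shift_ne {f0 : MvPolynomial κ k} (hf : f0 ≠ 0) (c : κ → k) :
    aeval (fun i => (X i + C (c i) : MvPolynomial κ k)) f0 ≠ 0 := by
  intro h
  apply hf
  have h1 : (aeval (fun i => (X i - C (c i) : MvPolynomial κ k))).comp
      (aeval (fun i => (X i + C (c i) : MvPolynomial κ k))) = AlgHom.id k _ := by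
    apply MvPolynomial.algHom_ext
    intro i
    simp
  have h2 := congrArg (fun φ : MvPolynomial κ k →ₐ[k] MvPolynomial κ k => φ f0) h1
  simp only [AlgHom.comp_apply, h, map_zero, AlgHom.id_apply] at h2
  exact h2.symm

theorem WF_shift {D : Type} [DivisionRing D] [Algebra k D] (w : WF ι κ k D) (j : κ) :
    ∃ τ : D →ₐ[k] D, τ (w.g (.inr j)) = w.g (.inr j) + 1 ∧
      ∀ a, a ≠ .inr j → τ (w.g a) = w.g a := by
  classical
  choose y hy using fun i : κ => Ctr.exists_eq (w.g (.inr i)) (w.y_central i)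
  let c : κ → k := fun i => if i = j then 1 else 0
  let g' : (ι ⊕ ι) ⊕ κ → D := fun a => w.g a + if a = .inr j then 1 else 0
  have hg' : (sh1 ι κ).IsSys g' := by
    intro a b
    rw [← w.sys a b]
    simp only [g']
    split_ifs <;> noncomm_ring
  have hy' : ∀ i, algebraMap (Ctr D) D (y i + algebraMap k (Ctr D) (c i)) = g' (.inr i) := by
    intro i
    rw [map_add, hy, ← IsScalarTower.algebraMap_apply]
    simp only [g', c, Sum.inr.injEq]
    split_ifs <;> simp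
  have hinj : Function.Injective (phi (sh1 ι κ) k g') := by
    refine phi_inj hg' fun f0 hf0 => ?_
    rw [phi_rename_inr hg' _ hy']
    have h1 : aeval (fun i => y i + algebraMap k (Ctr D) (c i)) f0
        = aeval y (aeval (fun i => (X i + C (c i) : MvPolynomial κ k)) f0) := by
      rw [← AlgHom.comp_apply]
      congr 1
      apply MvPolynomial.algHom_ext
      intro i
      simp
    rw [h1, ← phi_rename_inr w.sys y hy]
    refine w.phi_ne_zero fun h => aeval_shift_ne hf0 c ?_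
    exact rename_injective _ Sum.inr_injective (h.trans (map_zero _).symm)
  obtain ⟨τ, hτ⟩ := WF_lift w hg' fun f hf =>
    Ne.isUnit fun h => hf (hinj (h.trans (map_zero _).symm))
  refine ⟨τ, ?_, fun a ha => ?_⟩
  · rw [hτ]; simp [g']
  · rw [hτ]; simp [g', ha]

theorem WF_of_gen {D : Type} [DivisionRing D] [Algebra k D] {g : (ι ⊕ ι) ⊕ κ → D}
    (hg : (sh1 ι κ).IsSys g) (y : κ → Ctr D) (hy : ∀ j, algebraMap (Ctr D) D (y j) = g (.inr j))
    (hi : AlgebraicIndependent k y) (gen : Gen k g) : Nonempty (WF ι κ k D) := by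
  have hinj : Function.Injective (phi (sh1 ι κ) k g) := by
    refine phi_inj hg fun f0 hf0 => ?_
    rw [phi_rename_inr hg y hy]
    intro h
    have h1 : aeval y f0 = 0 := (algebraMap (Ctr D) D).injective (h.trans (map_zero _).symm)
    exact hf0 (hi (h1.trans (map_zero _).symm))
  obtain ⟨W, _, _, ⟨w⟩⟩ := exists_WFk ι κ k
  obtain ⟨ψ, hψ⟩ := WF_lift w hg fun f hf =>
    Ne.isUnit fun h => hf (hinj (h.trans (map_zero _).symm))
  have hφ : ∀ f, ψ (phi (sh1 ι κ) k w.g f) = phi (sh1 ι κ) k g f := by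
    intro f
    have := map_phi w.sys (RingHom.id k) (ψ : W →+* D) (fun c => ψ.commutes c) f
    rw [map_id] at this
    have h2 : (fun a => (ψ : W →+* D) (w.g a)) = g := funext hψ
    rw [h2] at this
    exact this
  refine ⟨⟨g, hg, hinj, fun u => ?_⟩⟩
  have hu : u ∈ (ψ : W →+* D).range := by
    refine gen (ψ : W →+* D).range
      (fun c => RingHom.mem_range.2 ⟨algebraMap k W c, ψ.commutes c⟩) ?_
      (fun a => RingHom.mem_range.2 ⟨w.g a, hψ a⟩) u
    rintro _ ⟨x, rfl⟩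
    exact ⟨x⁻¹, map_inv₀ _ x⟩
  obtain ⟨x, rfl⟩ := hu
  obtain ⟨f, h, h0, rfl⟩ := w.frac x
  refine ⟨f, h, h0, ?_⟩
  rw [map_mul, map_inv₀]
  exact congrArg₂ (fun a b => a * b⁻¹) (hφ f) (hφ h)

end

theorem isSys_in1 {ι1 κ1 ι2 κ2 A : Type} [DecidableEq ι1] [DecidableEq ι2] [Ring A]
    {g : Var (ι1 ⊕ ι2) (κ1 ⊕ κ2) → A} (hg : (sh1 (ι1 ⊕ ι2) (κ1 ⊕ κ2)).IsSys g) :
    (sh1 ι1 κ1).IsSys fun a => g (in1 ι2 κ2 a) := by
  intro a b
  rw [hg]
  rcases a with (a | a) | a <;> rcases b with (b | b) | b <;> simp [sh1, om1, om0, in1]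

theorem isSys_in2 {ι1 κ1 ι2 κ2 A : Type} [DecidableEq ι1] [DecidableEq ι2] [Ring A]
    {g : Var (ι1 ⊕ ι2) (κ1 ⊕ κ2) → A} (hg : (sh1 (ι1 ⊕ ι2) (κ1 ⊕ κ2)).IsSys g) :
    (sh1 ι2 κ2).IsSys fun a => g (in2 ι1 κ1 a) := by
  intro a b
  rw [hg]
  rcases a with (a | a) | a <;> rcases b with (b | b) | b <;> simp [sh1, om1, om0, in2]

theorem commute_in12 {ι1 κ1 ι2 κ2 A : Type} [DecidableEq ι1] [DecidableEq ι2] [Ring A]
    {g : Var (ι1 ⊕ ι2) (κ1 ⊕ κ2) → A} (hg : (sh1 (ι1 ⊕ ι2) (κ1 ⊕ κ2)).IsSys g) (a : Var ι1 κ1)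
    (b : Var ι2 κ2) : Commute (g (in1 ι2 κ2 a)) (g (in2 ι1 κ1 b)) := by
  rw [Commute, SemiconjBy, ← sub_eq_zero, hg]
  rcases a with (a | a) | a <;> rcases b with (b | b) | b <;> simp [sh1, om1, om0, in1, in2]

theorem in1_injective {ι1 κ1 : Type} (ι2 κ2 : Type) :
    Function.Injective (in1 (ι1 := ι1) (κ1 := κ1) ι2 κ2) :=
  (Sum.inl_injective.sumMap Sum.inl_injective).sumMap Sum.inl_injective

theorem phi_in1 {ι1 κ1 ι2 κ2 A : Type} [DecidableEq ι1] [DecidableEq ι2] [Ring A]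
    [Algebra ℂ A] {g : Var (ι1 ⊕ ι2) (κ1 ⊕ κ2) → A} (hg : (sh1 (ι1 ⊕ ι2) (κ1 ⊕ κ2)).IsSys g)
    (f : MvPolynomial (Var ι1 κ1) ℂ) :
    phi (sh1 ι1 κ1) ℂ (fun a => g (in1 ι2 κ2 a)) f
      = phi (sh1 (ι1 ⊕ ι2) (κ1 ⊕ κ2)) ℂ g (rename (in1 ι2 κ2) f) := by
  have h1 := isSys_in1 hg
  induction f using poly_ind with
  | hC c => rw [rename_C, phi_C hg, phi_C h1]
  | hadd p q hp hq => rw [map_add, map_add, map_add, hp, hq]
  | hX p a hp =>
    have hl : (sh1 (ι1 ⊕ ι2) (κ1 ⊕ κ2)).left (in1 ι2 κ2 a) = (sh1 ι1 κ1).left a := by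
      rcases a with (a | a) | a <;> rfl
    rw [map_mul (rename (in1 ι2 κ2)), rename_X]
    by_cases ha : (sh1 ι1 κ1).left a = true
    · rw [phi_left h1 ha, phi_left hg (hl.trans ha), hp]
    · have ha' := Bool.eq_false_iff.2 ha
      rw [phi_right h1 ha', phi_right hg (hl.trans ha'), hp]

theorem phi_inj_in1 {ι1 κ1 ι2 κ2 A : Type} [DecidableEq ι1] [DecidableEq ι2] [Ring A]
    [Algebra ℂ A] {g : Var (ι1 ⊕ ι2) (κ1 ⊕ κ2) → A} (hg : (sh1 (ι1 ⊕ ι2) (κ1 ⊕ κ2)).IsSys g)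
    (hi : Function.Injective (phi (sh1 (ι1 ⊕ ι2) (κ1 ⊕ κ2)) ℂ g)) :
    Function.Injective (phi (sh1 ι1 κ1) ℂ fun a => g (in1 ι2 κ2 a)) := by
  intro f h e
  rw [phi_in1 hg, phi_in1 hg] at e
  exact rename_injective _ (in1_injective ι2 κ2) (hi e)

end Pool.Agent.Lib.MP_75bae7_al.Cn
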