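import Pool.Agent.Lib.MP_75bae7_al.Cn.Ext
import Pool.Agent.Lib.MP_75bae7_al.Cn.Simple

/-!
The extended system in characteristic 0: the centre is generated by two elements.
-/

set_option autoImplicit false
set_option linter.unusedSectionVars false

namespace Pool.Agent.Lib.MP_75bae7_al.Cn

open MvPolynomial

theorem pairs_sys {R : Type} [Ring R] {N : ℕ} {θ g : ℕ → R} (P : Pairs N θ g) (u : Fin N → Rˣ)
    (hu : ∀ j : Fin N, (u j : R) = g j) :
    (sh1 (Fin N) Empty).IsSys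
      (Sum.elim (Sum.elim (fun j : Fin N => ((u j)⁻¹ : Rˣ) * θ j) (fun j : Fin N => g j))
        Empty.elim) := by
  have hgg : ∀ i j : Fin N, Commute (u i : R) (u j) := fun i j => by
    rw [hu, hu]; exact P.gg _ i.2 _ j.2
  have htg : ∀ i j : Fin N, i ≠ j → Commute (θ i) (u j) := fun i j h => by
    rw [hu]; exact P.tg _ i.2 _ j.2 fun h' => h (Fin.ext h')
  have hdx : ∀ i j : Fin N, ((u i)⁻¹ : Rˣ) * θ i * g j - g j * (((u i)⁻¹ : Rˣ) * θ i)
      = if i = j then 1 else 0 := by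
    intro i j
    by_cases h : i = j
    · subst h
      have h1 := P.shift _ i.2
      rw [← hu] at h1 ⊢
      rw [if_pos rfl, mul_assoc, sub_eq_iff_eq_add'.1 h1, mul_add, Units.inv_mul_cancel_left,
        Units.mul_inv_cancel_left, Units.inv_mul, add_sub_cancel_left]
    · rw [if_neg h, ← hu, sub_eq_zero]
      exact ((hgg i j).units_inv_left.mul_left (htg i j h)).eq
  rintro ((i | i) | i) ((j | j) | j)
  · change _ = ((0 : ℤ) : R)
    rw [Int.cast_zero, sub_eq_zero]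
    by_cases h : i = j
    · rw [h]
    · exact (((hgg i j).units_inv_left.units_inv_right.mul_right
        (htg j i (Ne.symm h)).units_inv_right.symm).mul_left
        ((htg i j h).units_inv_right.mul_right (P.tt _ i.2 _ j.2))).eq
  · change _ = (((if i = j then 1 else 0 : ℤ)) : R)
    rw [Int.cast_ite, Int.cast_one, Int.cast_zero]
    exact hdx i j
  · exact j.elim
  · change _ = (((if i = j then -1 else 0 : ℤ)) : R)
    rw [← neg_sub]
    change -(((u j)⁻¹ : Rˣ) * θ j * g i - g i * (((u j)⁻¹ : Rˣ) * θ j)) = _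
    rw [hdx j i]
    by_cases h : i = j
    · rw [if_pos h, if_pos h.symm, Int.cast_neg, Int.cast_one]
    · rw [if_neg h, if_neg (Ne.symm h), Int.cast_zero, neg_zero]
  · change _ = ((0 : ℤ) : R)
    rw [Int.cast_zero, sub_eq_zero]
    exact (P.gg _ i.2 _ j.2).eq
  · exact j.elim
  · exact i.elim
  · exact i.elim
  · exact i.elim

theorem exists_field_ring {E Z D ι : Type} [Field E] [CharZero E] [Field Z] [DivisionRing D]
    [Algebra E Z] [Algebra Z D] [Algebra E D] [IsScalarTower E Z D] [DecidableEq ι] [Fintype ι]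
    {g : (ι ⊕ ι) ⊕ Empty → M2 D} (hg : (sh1 ι Empty).IsSys g) :
    ∃ A : Subring (M2 D), (∀ a, g a ∈ A) ∧ (∀ c : E, sc (algebraMap E D c) ∈ A) ∧
      (∀ M ∈ A, M ≠ 0 → ∃ N ∈ A, M * N = 1 ∧ N * M = 1) ∧
      ∀ M ∈ A, M 0 1 = 0 → ∀ x : Z, algebraMap Z D x = M 0 0 → ∃ c : E, algebraMap E Z c = x := by
  obtain ⟨W, _, _, ⟨w⟩⟩ := exists_WFk ι Empty E
  obtain ⟨ψ, hψ⟩ := WF_lift w hg (fun f hf => unit_matrix hg hf)
  have cZ : CharZero Z := charZero_of_injective_algebraMap (algebraMap E Z).injective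
  have hΦ : ∀ f, ψ (w.Φ f) = phi (sh1 ι Empty) Z g (map (algebraMap E Z) f) := by
    intro f
    have h1 := map_phi w.sys (algebraMap E Z) ψ.toRingHom (fun c => by
      rw [← sc_algebraMap, ← IsScalarTower.algebraMap_apply, sc_algebraMap]
      exact ψ.commutes c) f
    have h2 : (fun a => ψ.toRingHom (w.g a)) = g := funext hψ
    rw [h2] at h1
    exact h1
  refine ⟨ψ.toRingHom.range, fun a => ⟨w.g a, hψ a⟩, fun c => ⟨algebraMap E W c, ?_⟩, ?_, ?_⟩
  · rw [sc_algebraMap]; exact ψ.commutes c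
  · rintro _ ⟨y, rfl⟩ h0
    have hy : y ≠ 0 := fun h => h0 (by rw [h, map_zero])
    exact ⟨_, ⟨y⁻¹, rfl⟩, by rw [← map_mul, mul_inv_cancel₀ hy, map_one],
      by rw [← map_mul, inv_mul_cancel₀ hy, map_one]⟩
  · rintro _ ⟨y, rfl⟩ h01 x hx
    obtain ⟨f, h, h0, hy⟩ := w.frac y
    have h1 : y * w.Φ h = w.Φ f := by
      rw [hy]; exact inv_mul_cancel_right₀ (w.phi_ne_zero h0) _
    have h2 : phi (sh1 ι Empty) Z g (map (algebraMap E Z) f - x • map (algebraMap E Z) h)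
        = (ψ y - sc (algebraMap Z D x)) * ψ (w.Φ h) := by
      rw [map_sub, map_smul, ← hΦ, ← hΦ, sub_mul, ← map_mul, h1, sc_algebraMap, Algebra.smul_def]
    have h3 : map (algebraMap E Z) f - x • map (algebraMap E Z) h = 0 := by
      by_contra hne
      obtain ⟨v, hv⟩ := (unit_matrix hg hne).exists_right_inv
      rw [h2, mul_assoc] at hv
      have h4 := congrFun (congrFun hv 0) 0
      have a0 : (ψ y - sc (algebraMap Z D x)) 0 0 = 0 := by
        rw [Matrix.sub_apply, sc00, hx]; exact sub_self _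
      have a1 : (ψ y - sc (algebraMap Z D x)) 0 1 = 0 := by
        rw [Matrix.sub_apply, sc01, sub_zero]; exact h01
      rw [m2_mul, a0, a1, zero_mul, zero_mul, add_zero, Matrix.one_apply_eq] at h4
      exact zero_ne_one h4
    obtain ⟨m, hm⟩ := exists_coeff_ne_zero h0
    have h5 := congrArg (coeff m) h3
    rw [coeff_sub, coeff_smul, coeff_map, coeff_map, coeff_zero, smul_eq_mul, sub_eq_zero] at h5
    refine ⟨coeff m f / coeff m h, ?_⟩
    rw [map_div₀, h5, mul_div_cancel_right₀ _ ((map_ne_zero _).2 hm)]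

theorem XS.center0 {k D : Type} [Field k] [CharZero k] [DivisionRing D] [Algebra k D]
    {e : Fin 10 → D} {n : ℕ} {a b : ℕ → D} (S : XS e n a b) (hg : Gen k (xg e n a b))
    (h1 : e 1 ≠ 0) (h3 : e 3 ≠ 0) (h5 : e 5 ≠ 0) (hψ : psi e ≠ 0) (hb : ∀ j < n, b j ≠ 0)
    {g1 g2 : Ctr D} (hg1 : algebraMap _ D g1 = e 9) (hg2 : algebraMap _ D g2 = gam2 e)
    (E : Subfield (Ctr D)) (hk : ∀ c : k, algebraMap k (Ctr D) c ∈ E) (e1 : g1 ∈ E)
    (e2 : g2 ∈ E) (x : Ctr D) : x ∈ E := by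
  have cZ : CharZero (Ctr D) :=
    charZero_of_injective_algebraMap (algebraMap k (Ctr D)).injective
  have cD : CharZero D := charZero_of_injective_algebraMap (algebraMap k D).injective
  have hun := S.units h1 h3 h5 hψ hb
  have hs := pairs_sys S.pairs (fun j => (hun j j.2).unit) (fun j => (hun j j.2).unit_spec)
  obtain ⟨A, a1, a2, a3, a4⟩ := exists_field_ring (E := E) (Z := Ctr D) hs
  have hE : ∀ z ∈ E, sc (algebraMap (Ctr D) D z) ∈ A := fun z hz => a2 ⟨z, hz⟩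
  have hp : ∀ j < 4 + n, th' e a j ∈ A ∧ gg' e b j ∈ A := by
    intro j hj
    have b1 : gg' e b j ∈ A := a1 (.inl (.inr ⟨j, hj⟩))
    have b2 : (((hun j hj).unit⁻¹ : (M2 D)ˣ) : M2 D) * th' e a j ∈ A := a1 (.inl (.inl ⟨j, hj⟩))
    refine ⟨?_, b1⟩
    have b3 := A.mul_mem b1 b2
    rwa [← mul_assoc, IsUnit.mul_val_inv, one_mul] at b3
  let U : Subring D :=
    { carrier := {y | ∃ M ∈ A, M 0 1 = 0 ∧ M 1 0 = 0 ∧ M 0 0 = y}
      mul_mem' := by
        rintro _ _ ⟨M, hM, m1, m2, rfl⟩ ⟨N, hN, n1, n2, rfl⟩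
        exact ⟨M * N, A.mul_mem hM hN, by rw [m2_mul, m1, n1, mul_zero, zero_mul, add_zero],
          by rw [m2_mul, m2, n2, mul_zero, zero_mul, add_zero],
          by rw [m2_mul, m1, zero_mul, add_zero]⟩
      one_mem' := ⟨1, A.one_mem, rfl, rfl, rfl⟩
      add_mem' := by
        rintro _ _ ⟨M, hM, m1, m2, rfl⟩ ⟨N, hN, n1, n2, rfl⟩
        exact ⟨M + N, A.add_mem hM hN, by rw [Matrix.add_apply, m1, n1, add_zero],
          by rw [Matrix.add_apply, m2, n2, add_zero], rfl⟩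
      zero_mem' := ⟨0, A.zero_mem, rfl, rfl, rfl⟩
      neg_mem' := by
        rintro _ ⟨M, hM, m1, m2, rfl⟩
        exact ⟨-M, A.neg_mem hM, by rw [Matrix.neg_apply, m1, neg_zero],
          by rw [Matrix.neg_apply, m2, neg_zero], rfl⟩ }
  have hU : ∀ y ∈ U, y⁻¹ ∈ U := by
    rintro _ ⟨M, hM, m1, m2, rfl⟩
    by_cases h0 : M 0 0 = 0
    · rw [h0, inv_zero]; exact U.zero_mem
    · obtain ⟨N, hN, n1, n2⟩ := a3 M hM (fun h => h0 (by rw [h]; rfl))
      have c0 := congrFun (congrFun n1 0) 0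
      have c1 := congrFun (congrFun n1 0) 1
      have c2 := congrFun (congrFun n2 1) 0
      rw [m2_mul, m1, zero_mul, add_zero, Matrix.one_apply_eq] at c0
      rw [m2_mul, m1, zero_mul, add_zero, Matrix.one_apply_ne (by decide)] at c1
      rw [m2_mul, m2, mul_zero, add_zero, Matrix.one_apply_ne (by decide)] at c2
      exact ⟨N, hN, (mul_eq_zero.1 c1).resolve_left h0, (mul_eq_zero.1 c2).resolve_right h0,
        eq_inv_of_mul_eq_one_right c0⟩
  have hinv : ∀ M : M2 D, M * ap e = 1 → M ∈ A := by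
    intro M hM
    have b1 : ap e ∈ A := (hp 3 (by omega)).2
    obtain ⟨N, hN, n1, -⟩ := a3 _ b1 (fun h => by
      rw [h, mul_zero] at hM; exact zero_ne_one hM)
    have b2 : M = N := by rw [← mul_one M, ← n1, ← mul_assoc, hM, one_mul]
    rwa [b2]
  obtain ⟨M, hM, m1, -, m0⟩ := S.gen_diag hg h5 hψ two_ne_zero A hp (hg1 ▸ hE _ e1)
    (hg2 ▸ hE _ e2) (fun c => hE _ (hk c)) hinv U hU (fun M hM m1 m2 => ⟨M, hM, m1, m2, rfl⟩)
    (algebraMap (Ctr D) D x)
  obtain ⟨c, hc⟩ := a4 M hM m1 x m0.symm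
  rw [← hc]
  exact c.2

end Pool.Agent.Lib.MP_75bae7_al.Cn
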