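import Pool.Agent.Lib.MP_75bae7_al.Cn.Ext

/-!
The extended system in characteristic `p`: description of the centre.
-/

set_option autoImplicit false
set_option linter.unusedSectionVars false

namespace Pool.Agent.Lib.MP_75bae7_al.Cn

open Polynomial

/-- matrices commuting with all extended pairs -/
def CCx {A : Type} [Ring A] (e : Fin 10 → A) (n : ℕ) (a b : ℕ → A) (M : M2 A) : Prop :=
  ∀ j < 4 + n, Commute M (th' e a j) ∧ Commute M (gg' e b j)

theorem CCx.mul {A : Type} [Ring A] {e : Fin 10 → A} {n : ℕ} {a b : ℕ → A} {M N : M2 A}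
    (hM : CCx e n a b M) (hN : CCx e n a b N) : CCx e n a b (M * N) :=
  fun j hj => ⟨(hM j hj).1.mul_left (hN j hj).1, (hM j hj).2.mul_left (hN j hj).2⟩

theorem th4_add {A : Type} [Ring A] (e : Fin 10 → A) (a : ℕ → A) (j : ℕ) :
    th' e a (4 + j) = sc (a j) := by
  rw [th', if_neg (by omega), Nat.add_sub_cancel_left]

theorem gg4_add {A : Type} [Ring A] (e : Fin 10 → A) (b : ℕ → A) (j : ℕ) :
    gg' e b (4 + j) = sc (b j) := by
  rw [gg', if_neg (by omega), Nat.add_sub_cancel_left]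

theorem CCx.ww {A : Type} [Ring A] {e : Fin 10 → A} {n : ℕ} {a b : ℕ → A} {M : M2 A}
    (hM : CCx e n a b M) : Commute M (qm (e 5) 0 1) := (hM 2 (by omega)).2

theorem XS.center_data {k D : Type} [Field k] [DivisionRing D] [Algebra k D] {e : Fin 10 → D}
    {n : ℕ} {a b : ℕ → D} (S : XS e n a b) {p m : ℕ} (hpm : p = 2 * m + 1) [hp : Fact p.Prime]
    [CharP k p] (hg : Gen k (xg e n a b)) (h1 : e 1 ≠ 0) (h3 : e 3 ≠ 0) (h5 : e 5 ≠ 0)
    (hψ : psi e ≠ 0) (hb : ∀ j < n, b j ≠ 0) {g1 g2 : Ctr D}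
    (hg1 : algebraMap _ D g1 = e 9) (hg2 : algebraMap _ D g2 = gam2 e) {r : ℕ}
    (hr : Module.finrank (Ctr D) D = p ^ (2 * r)) :
    r = 4 + n ∧ ∃ (t : Fin 5 ⊕ Fin n ⊕ Fin n → Ctr D) (J s Δ η W : Ctr D),
      (∀ E : Subfield (Ctr D), (∀ c : k, algebraMap k (Ctr D) c ∈ E) → g1 ∈ E → g2 ∈ E →
        (∀ i, t i ∈ E) → J ∈ E → s ∈ E → Δ ∈ E → η ∈ E → ∀ x, x ∈ E) ∧ s ≠ 0 ∧ W ≠ 0 ∧
      Δ ^ 2 - s * η ^ 2 = s ^ 2 - cc1 p g1 g2 * s + cc2 p g1 g2 ∧
      J ^ 2 = s * W ∧ algebraMap _ D W = e 5 ^ p ∧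
      algebraMap _ D s = (ss e ^ m - 1) * (ss e ^ m - 1) * ss e ∧
      algebraMap _ D (η * s) = (ap e ^ p * TT e p) 0 0 ∧
      algebraMap _ D (s * Δ) = (TT e p * ap e ^ p * TT e p) 0 0 := by
  classical
  have X0 := S
  clear S
  have cZ : CharP (Ctr D) p := charP_of_injective_algebraMap (algebraMap k (Ctr D)).injective p
  have hp3 : 3 ≤ p := by have := hp.out.two_le; omega
  have h2Z : (2 : Ctr D) ≠ 0 := by
    intro h0
    have := Nat.le_of_dvd two_pos ((CharP.cast_eq_zero_iff (Ctr D) p 2).1 (by exact_mod_cast h0))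
    omega
  have h2 : (2 : D) ≠ 0 := by
    have := (map_ne_zero (algebraMap (Ctr D) D)).2 h2Z
    rwa [map_ofNat] at this
  have fin : Module.Finite (Ctr D) D := Module.finite_of_finrank_pos (by rw [hr]; positivity)
  have P := X0.pairs
  have S := X0.S
  have hu := X0.units h1 h3 h5 hψ hb
  have cθ : ∀ i < 4 + n, CCx e n a b (th' e a i ^ p - th' e a i) :=
    fun i hi j hj => (P.cen (Ctr D) hi hj).1
  have cg : ∀ i < 4 + n, CCx e n a b (gg' e b i ^ p) := fun i hi j hj => (P.cen (Ctr D) hi hj).2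
  have cen : ∀ {M : M2 D}, CCx e n a b M → ∃ z : Ctr D, algebraMap (Ctr D) D z = M 0 0 :=
    fun hM => X0.cc_central hg hψ h2 hM
  have inj : Function.Injective (algebraMap (Ctr D) (M2 D)) := (algebraMap (Ctr D) (M2 D)).injective
  have r4 : 4 + n ≤ r := by
    have a1 := P.le_finrank (Z := Ctr D) (p := p) hu
    rw [Module.finrank_matrix, hr] at a1
    by_contra hc
    have a2 : p ^ (2 * r) ≤ p ^ (6 + 2 * n) := Nat.pow_le_pow_right (by omega) (by omega)
    have a3 : 0 < p ^ (6 + 2 * n) := by positivity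
    have a4 : p ^ (2 * (4 + n)) = p * p * p ^ (6 + 2 * n) := by ring
    simp only [Fintype.card_fin] at a1
    nlinarith [Nat.mul_le_mul hp3 hp3]
  set T := TT e p with hT
  have cT : CCx e n a b T := cθ 3 (by omega)
  obtain ⟨s, hs⟩ := cen (cT.mul cT)
  rw [hT, hpm, S.TT_sq, sc00] at hs
  have hTT : T * T = algebraMap (Ctr D) (M2 D) s := by
    rw [hT, hpm, S.TT_sq, ← sc_algebraMap, hs]
  have hind : ∀ G : (Ctr D)[X], G.degree < p → aeval (tt e) G = 0 → G = 0 := fun G a1 a2 =>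
    poly_indep (p := p) (v := fun _ : Unit => (1 : M2 D)) (by simp) S.tt_ap (S.unit_ap hψ)
      (fun _ => Commute.one_left _) p le_rfl (fun _ => G) (fun _ => a1) (by simpa using a2) ()
  have hs0 : s ≠ 0 := by
    intro h0
    rw [h0, map_zero] at hs
    have a1 : ss e ^ m - 1 ≠ 0 := by
      intro h
      have := hind (X ^ (2 * m) - C 1) (by
        rw [degree_X_pow_sub_C (by omega)]; exact_mod_cast (by omega : 2 * m < p)) (by
        rw [map_sub, map_pow, aeval_X, pow_mul, S.tt_sq, ← map_pow, sub_eq_zero.1 h]; simp)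
      exact X_pow_sub_C_ne_zero (by omega) _ this
    have a2 : e 6 ≠ 0 := by
      intro h
      exact X_ne_zero (hind X (by rw [degree_X]; exact_mod_cast hp.out.one_lt) (by
        rw [aeval_X, tt, h, ← sc_eq, map_zero]))
    exact mul_ne_zero (mul_ne_zero a1 a1) (mul_ne_zero (mul_ne_zero a2 a2) h5) hs.symm
  have dec : ∀ M, CCx e n a b M → ∃ x y : Ctr D, M = algebraMap _ _ x + algebraMap _ _ y * T ∧
      algebraMap _ D x = M 0 0 ∧ algebraMap _ D (y * s) = (M * T) 0 0 := by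
    intro M hM
    obtain ⟨x, hx⟩ := cen hM
    obtain ⟨ξ, hξ⟩ := cen (hM.mul cT)
    have a1 : (M - algebraMap _ _ x) * T = algebraMap _ _ ξ := by
      rw [← sc_algebraMap, ← sc_algebraMap, hx, hξ, hT, hpm, S.TT_eq,
        (eq_qm hM.ww).1, qm00, sc_eq (e 5), qm_sub,
        qm_mul _ _ (Commute.zero_left _) (S.tau_W m), qm_mul _ _ (Commute.zero_left _) (S.tau_W m),
        sc_eq (e 5)]
      simp
    refine ⟨x, ξ / s, ?_, hx, by rw [div_mul_cancel₀ _ hs0, hξ]⟩
    have a2 : (M - algebraMap _ _ x) * algebraMap (Ctr D) (M2 D) s = algebraMap _ _ ξ * T := by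
      rw [← hTT, ← mul_assoc, a1]
    rw [← sub_eq_iff_eq_add', div_eq_inv_mul, map_mul, mul_assoc, ← a2, ← Algebra.commutes,
      ← mul_assoc, ← map_mul, inv_mul_cancel₀ hs0, map_one, one_mul]
  obtain ⟨Δ, η, ea, hΔ, hη⟩ := dec _ (cg 3 (by omega))
  change ap e ^ p = _ at ea
  change _ = (ap e ^ p * T) 0 0 at hη
  obtain ⟨x, j, ew, hx, -⟩ := dec _ (cg 2 (by omega))
  change ww e ^ p = _ at ew
  have hwp : ww e ^ p = qm (e 5) 0 (e 5 ^ m) := by
    rw [hpm, pow_succ, pow_mul, sq, Sys.ww_sq, ← map_pow, ww, sc_mul_qm]; simp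
  have hx0 : x = 0 := by
    change _ = (ww e ^ p) 0 0 at hx
    rw [hwp, qm00, map_eq_zero] at hx; exact hx
  rw [hx0, map_zero, zero_add] at ew
  have hW : algebraMap _ D (j ^ 2 * s) = e 5 ^ p := by
    have a1 : (ww e * ww e) ^ p = algebraMap _ _ (j ^ 2 * s) := by
      rw [(Commute.refl _).mul_pow, ew, map_mul, ← hTT, sq, map_mul, mul_assoc,
        ← mul_assoc T, ← Algebra.commutes, mul_assoc, mul_assoc]
    rw [Sys.ww_sq, ← map_pow, ← sc_algebraMap] at a1
    exact (congrFun (congrFun a1 0) 0).symm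
  have sct : ∀ M : M2 D, CCx e n a b M → M 1 0 = 0 → ∃ z : Ctr D, M = algebraMap _ _ z := by
    intro M hM h0
    obtain ⟨z, hz⟩ := cen hM
    exact ⟨z, by rw [← sc_algebraMap, hz, sc_eq (e 5), ← h0]; exact (eq_qm hM.ww).1⟩
  obtain ⟨t0, ht0⟩ := sct (sc (e 0) ^ p - sc (e 0)) (cθ 0 (by omega))
    (by rw [← map_pow, ← map_sub, sc10])
  obtain ⟨t1, ht1⟩ := sct (sc (e 1) ^ p) (cg 0 (by omega)) (by rw [← map_pow, sc10])
  obtain ⟨t2, ht2⟩ := sct (sc (e 2) ^ p - sc (e 2)) (cθ 1 (by omega))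
    (by rw [← map_pow, ← map_sub, sc10])
  obtain ⟨t3, ht3⟩ := sct (sc (e 3) ^ p) (cg 1 (by omega)) (by rw [← map_pow, sc10])
  obtain ⟨t4, ht4⟩ := sct (HH e ^ p - HH e) (cθ 2 (by omega)) (by
    have : HH e = Matrix.diagonal ![e 4, e 4 + 1] := by apply m2_ext <;> simp [HH]
    rw [this, Matrix.diagonal_pow]; simp)
  choose ta hta using fun i : Fin n => sct _ (cθ (4 + i) (by have := i.2; omega))
    (by rw [th4_add, ← map_pow, ← map_sub, sc10])
  choose tb htb using fun i : Fin n => sct _ (cg (4 + i) (by have := i.2; omega))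
    (by rw [gg4_add, ← map_pow, sc10])
  have hgen : ∀ E : Subfield (Ctr D), (∀ c : k, algebraMap k (Ctr D) c ∈ E) → g1 ∈ E → g2 ∈ E →
      (∀ i, Sum.elim ![t0, t1, t2, t3, t4] (Sum.elim ta tb) i ∈ E) → j * s ∈ E → s ∈ E → Δ ∈ E →
      η ∈ E → Module.Finite E D ∧ Module.finrank E D ≤ p ^ (2 * (4 + n)) := by
    intro E a1 a2 a3 a4 a5 a6 a7 a8
    have : CharP E p := (E.subtype.charP_iff_charP p).2 cZ
    have hj : j ∈ E := by
      have := E.div_mem a5 a6
      rwa [mul_div_cancel_right₀ _ hs0] at this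
    obtain ⟨f0, d0⟩ := adjoin_sq (E := E) (s := ⟨s, a6⟩) hTT
    have hA0 : ∀ z ∈ E, algebraMap (Ctr D) (M2 D) z ∈ Algebra.adjoin E {T} := fun z hz =>
      Subalgebra.algebraMap_mem _ (⟨z, hz⟩ : E)
    have hT0 : T ∈ Algebra.adjoin E {T} := Algebra.subset_adjoin rfl
    obtain ⟨A, fA, dA, leA, mA⟩ := P.exists_subalgebra (p := p) (Algebra.adjoin E {T})
      (fun a ha j hj => ⟨(Algebra.commute_of_mem_adjoin_of_forall_mem_commute ha
          (by rintro _ rfl; exact (cT j hj).1.symm)).symm,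
        (Algebra.commute_of_mem_adjoin_of_forall_mem_commute ha
          (by rintro _ rfl; exact (cT j hj).2.symm)).symm⟩)
      (fun i hi => by
        rcases Nat.lt_or_ge i 4 with h4 | h4
        · interval_cases i
          exacts [(ht0 ▸ hA0 _ (a4 (.inl 0)) : sc (e 0) ^ p - sc (e 0) ∈ _),
            (ht2 ▸ hA0 _ (a4 (.inl 2)) : sc (e 2) ^ p - sc (e 2) ∈ _),
            (ht4 ▸ hA0 _ (a4 (.inl 4)) : HH e ^ p - HH e ∈ _), hT0]
        · obtain ⟨i, rfl⟩ := Nat.exists_eq_add_of_le h4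
          have := hta ⟨i, by omega⟩
          rw [show th' e a (4 + i) ^ p - th' e a (4 + i) = _ from this]
          exact hA0 _ (a4 (.inr (.inl ⟨i, by omega⟩))))
      (fun i hi => by
        rcases Nat.lt_or_ge i 4 with h4 | h4
        · interval_cases i
          exacts [(ht1 ▸ hA0 _ (a4 (.inl 1)) : sc (e 1) ^ p ∈ _),
            (ht3 ▸ hA0 _ (a4 (.inl 3)) : sc (e 3) ^ p ∈ _),
            (ew ▸ mul_mem (hA0 _ hj) hT0 : ww e ^ p ∈ _),
            (ea ▸ add_mem (hA0 _ a7) (mul_mem (hA0 _ a8) hT0) : ap e ^ p ∈ _)]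
        · obtain ⟨i, rfl⟩ := Nat.exists_eq_add_of_le h4
          have := htb ⟨i, by omega⟩
          rw [show gg' e b (4 + i) ^ p = _ from this]
          exact hA0 _ (a4 (.inr (.inr ⟨i, by omega⟩))))
    have mw : ww e ∈ A := (mA 2 (by omega)).2
    have ma : ap e ∈ A := (mA 3 (by omega)).2
    obtain ⟨b1, b2⟩ := halve A h5 mw (fun U hU hM =>
      X0.gen_diag hg h5 hψ h2 A.toSubring mA
        (by rw [← hg1, sc_algebraMap]; exact leA (hA0 _ a2))
        (by rw [← hg2, sc_algebraMap]; exact leA (hA0 _ a3))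
        (fun c => by
          have : algebraMap k D c = algebraMap (Ctr D) D (algebraMap k (Ctr D) c) := rfl
          rw [this, sc_algebraMap]; exact leA (hA0 _ (a1 c)))
        (fun M h => inv_mem_of_finite A ma h) U.toSubring hU hM)
    refine ⟨b1, ?_⟩
    have : _ ≤ 2 * p ^ (2 * (4 + n)) :=
      b2.trans (dA.trans (Nat.mul_le_mul_right (p ^ (2 * (4 + n))) d0))
    omega
  have hgen' : ∀ E : Subfield (Ctr D),
      (Module.Finite E D ∧ Module.finrank E D ≤ p ^ (2 * (4 + n))) →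
      r = 4 + n ∧ ∀ x, x ∈ E := by
    rintro E ⟨a1, a2⟩
    have a3 := Module.finrank_mul_finrank E (Ctr D) D
    have a4 : 0 < Module.finrank E D := Module.finrank_pos
    rw [hr] at a3
    have a5 : p ^ (2 * (4 + n)) ≤ p ^ (2 * r) := Nat.pow_le_pow_right (by omega) (by omega)
    have a6 : 0 < p ^ (2 * (4 + n)) := by positivity
    have a7 : Module.finrank E (Ctr D) = 1 := by
      rcases Nat.lt_trichotomy (Module.finrank E (Ctr D)) 1 with h | h | h
      · have : Module.finrank E (Ctr D) = 0 := by omega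
        rw [this] at a3; omega
      · exact h
      · nlinarith
    rw [a7, one_mul] at a3
    refine ⟨?_, fun x => ?_⟩
    · have := Nat.pow_right_injective hp.out.two_le (le_antisymm a5 (a3.trans_le a2))
      omega
    · obtain ⟨c, hc⟩ := (finrank_eq_one_iff_of_nonzero' (1 : Ctr D) one_ne_zero).1 a7 x
      rw [← hc, Subfield.smul_def, smul_eq_mul, mul_one]; exact c.2
  refine ⟨(hgen' ⊤ (hgen ⊤ ?_ ?_ ?_ ?_ ?_ ?_ ?_ ?_)).1,
    Sum.elim ![t0, t1, t2, t3, t4] (Sum.elim ta tb), j * s, s, Δ, η,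
    j ^ 2 * s, fun E a1 a2 a3 a4 a5 a6 a7 a8 => (hgen' E (hgen E a1 a2 a3 a4 a5 a6 a7 a8)).2, hs0,
    ?_, ?_, by ring, hW, hs, hη, ?_⟩
  any_goals simp only [Subfield.mem_top, implies_true]
  · intro h0
    rw [h0, map_zero] at hW
    exact pow_ne_zero _ h5 hW.symm
  · have a1 : ∀ n : ℕ, ap e ^ n * am e ^ n = aeval (tt e) (PiP n g1 g2) := by
      intro n
      induction n with
      | zero => simp [PiP]
      | succ n ih =>
        have b1 := semiconj_aeval (S.ap_pow_tt n)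
          ((X ^ 2 - X) ^ 2 - C g1 * (X ^ 2 - X) + C g2 : (Ctr D)[X])
        rw [pow_succ, pow_succ', mul_assoc, ← mul_assoc (ap e), S.ap_am, ← mul_assoc, PiP,
          Finset.prod_range_succ_comm, map_mul, ← PiP, ← ih, ← mul_assoc]
        congr 1
        rw [Gq, ← hg2, ← hg1, sc_algebraMap, sc_algebraMap]
        simpa using b1
    have a2 : am e ^ p = algebraMap _ _ Δ - algebraMap _ _ η * T := by
      rw [← Sys.cj_ap, ← map_pow, ea, map_add, map_mul, ← sc_algebraMap, ← sc_algebraMap, cj_sc,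
        cj_sc, hT, hpm, S.TT_eq, cj_qm0, mul_neg, ← sub_eq_add_neg]
    have a3 := a1 p
    rw [PiP_eq, a2, ea] at a3
    simp only [map_add, map_sub, map_mul, map_pow, aeval_X, aeval_C] at a3
    change _ = T ^ 4 - _ * T ^ 2 + _ at a3
    rw [show T ^ 4 = (T * T) * (T * T) by noncomm_ring, sq T, hTT] at a3
    apply inj
    simp only [map_add, map_sub, map_mul, sq, ← a3]
    simp only [add_mul, mul_sub, smul_mul_assoc, mul_smul_comm, hTT,
      Algebra.algebraMap_eq_smul_one, one_mul, mul_one]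
    module
  · have a1 : T * ap e ^ p * T = algebraMap _ _ (s * Δ) + algebraMap _ _ (s * η) * T := by
      rw [ea]
      simp only [add_mul, mul_add, smul_mul_assoc, mul_smul_comm, hTT,
        Algebra.algebraMap_eq_smul_one, one_mul, mul_one]
      module
    rw [a1, ← sc_algebraMap, ← sc_algebraMap, hT, hpm, S.TT_eq, sc_mul_qm, Matrix.add_apply, sc00,
      qm00, mul_zero, add_zero]

end Pool.Agent.Lib.MP_75bae7_al.Cn
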