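import Pool.Agent.Lib.MP_75bae7_al.Own

/-!
Symplectic Lie algebras of a form `J`, one step of parabolic induction, relative realisations.
-/

set_option autoImplicit false
set_option linter.unusedSectionVars false

namespace Pool.Agent.Lib.MP_75bae7_al.Cn

open Matrix

section Sympl
variable {I : Type} [Fintype I] [DecidableEq I]

/-- a complex structure that is also an alternating form -/
structure IsJ (J : Matrix I I ℂ) : Prop where
  anti : Jᵀ = -J
  sq : J * J = -1

/-- membership in the symplectic Lie algebra of `J` -/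
def Sk (J X : Matrix I I ℂ) : Prop := Xᵀ * J = J * (-X)

theorem mem_sk {J X : Matrix I I ℂ} : X ∈ skewAdjointMatricesSubmodule J ↔ Sk J X :=
  mem_skewAdjointMatricesSubmodule _ _

theorem mem_skL {J X : Matrix I I ℂ} : X ∈ skewAdjointMatricesLieSubalgebra J ↔ Sk J X :=
  (mem_skewAdjointMatricesLieSubalgebra _ _).trans mem_sk

/-- twice the projection onto the symplectic Lie algebra -/
def pi2 (J Z : Matrix I I ℂ) : Matrix I I ℂ := Z + J * Zᵀ * J

theorem IsJ.pi2_of_sk {J X : Matrix I I ℂ} (hJ : IsJ J) (hX : Sk J X) : pi2 J X = (2 : ℂ) • X := by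
  rw [pi2, Matrix.mul_assoc, hX, ← Matrix.mul_assoc, hJ.sq, two_smul]; simp

theorem IsJ.sk_pi2 {J : Matrix I I ℂ} (hJ : IsJ J) (Z : Matrix I I ℂ) : Sk J (pi2 J Z) := by
  have h1 : ∀ Y : Matrix I I ℂ, J * (J * Y) = -Y := fun Y => by
    rw [← Matrix.mul_assoc, hJ.sq]; simp
  rw [Sk, pi2]
  simp only [transpose_add, transpose_mul, transpose_transpose, hJ.anti, Matrix.mul_neg,
    Matrix.neg_mul, neg_neg, Matrix.add_mul, Matrix.mul_add, Matrix.mul_assoc, h1, hJ.sq,
    Matrix.mul_one, neg_add_rev]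

variable {A : Type} [Ring A] [Algebra ℂ A]

/-- `r` is a Lie homomorphism on the symplectic Lie algebra -/
def IsLie (J : Matrix I I ℂ) (r : Matrix I I ℂ →ₗ[ℂ] A) : Prop :=
  ∀ X Y, Sk J X → Sk J Y → r X * r Y - r Y * r X = r (X * Y - Y * X)

/-- the matrix of generators -/
noncomputable def hat (J : Matrix I I ℂ) (r : Matrix I I ℂ →ₗ[ℂ] A) : Matrix I I A :=
  Matrix.of fun i k => r (pi2 J (Matrix.single k i 1))

theorem IsJ.sum_hat {J X : Matrix I I ℂ} (hJ : IsJ J) (hX : Sk J X) (r : Matrix I I ℂ →ₗ[ℂ] A) :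
    (2⁻¹ : ℂ) • ∑ i, ∑ k, X i k • hat J r k i = r X := by
  have h1 : ∑ i, ∑ k, X i k • pi2 J (Matrix.single i k 1) = pi2 J X := by
    conv_rhs => rw [Matrix.matrix_eq_sum_single X]
    simp only [pi2, smul_add, Finset.sum_add_distrib, transpose_sum, Finset.mul_sum,
      Finset.sum_mul]
    congr 1
    · simp
    · refine Finset.sum_congr rfl fun i _ => Finset.sum_congr rfl fun k _ => ?_
      rw [← Matrix.smul_mul, ← Matrix.mul_smul, ← transpose_smul]; simp
  simp only [hat, of_apply, ← map_smul, ← map_sum, h1, hJ.pi2_of_sk hX, smul_smul]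
  norm_num

/-- the form with one more hyperbolic plane: `none` is the first index, `some none` the last -/
def upJ (J : Matrix I I ℂ) : Matrix (Option (Option I)) (Option (Option I)) ℂ :=
  Matrix.of fun a b => match a, b with
    | none, some none => -1
    | some none, none => 1
    | some (some a), some (some b) => J a b
    | _, _ => 0

/-- last row of the generic lower nilpotent matrix -/
noncomputable def yy (J : Matrix I I ℂ) (z : Option I → A) (b : I) : A :=
  ∑ c, J c b • z (some c)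

/-- the generic lower nilpotent matrix -/
noncomputable def NN (J : Matrix I I ℂ) (z : Option I → A) :
    Matrix (Option (Option I)) (Option (Option I)) A :=
  Matrix.of fun a b => match a, b with
    | some a, none => z a
    | some none, some (some b) => yy J z b
    | _, _ => 0

/-- left invariant vector fields -/
noncomputable def LL (J : Matrix I I ℂ) (z ξ : Option I → A) : Option I → A
  | none => ξ none
  | some c => ξ (some c) + yy J z c * ξ none

/-- the operator attached to a matrix of functions -/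
noncomputable def T0 (J : Matrix I I ℂ) (r : Matrix I I ℂ →ₗ[ℂ] A) (z ξ : Option I → A) (l : A)
    (Y : Matrix (Option (Option I)) (Option (Option I)) A) : A :=
  -(∑ a, Y (some a) none * LL J z ξ a) + Y none none * l
    + (2⁻¹ : ℂ) • ∑ i, ∑ k, Y (some (some i)) (some (some k)) * hat J r k i

theorem T0_add (J : Matrix I I ℂ) (r : Matrix I I ℂ →ₗ[ℂ] A) (z ξ : Option I → A) (l : A)
    (Y Y' : Matrix (Option (Option I)) (Option (Option I)) A) :
    T0 J r z ξ l (Y + Y') = T0 J r z ξ l Y + T0 J r z ξ l Y' := by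
  simp only [T0, Matrix.add_apply, add_mul, Finset.sum_add_distrib, smul_add]; abel

theorem T0_smul (J : Matrix I I ℂ) (r : Matrix I I ℂ →ₗ[ℂ] A) (z ξ : Option I → A) (l : A)
    (c : A) (Y : Matrix (Option (Option I)) (Option (Option I)) A) :
    T0 J r z ξ l (c • Y) = c * T0 J r z ξ l Y := by
  simp only [T0, Matrix.smul_apply, smul_eq_mul, mul_add, mul_neg, Finset.mul_sum, mul_smul_comm,
    mul_assoc]

/-- one step of parabolic induction -/
noncomputable def stepE (J : Matrix I I ℂ) (r : Matrix I I ℂ →ₗ[ℂ] A) (z ξ : Option I → A)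
    (l : A) : Matrix (Option (Option I)) (Option (Option I)) ℂ →ₗ[ℂ] A where
  toFun X := T0 J r z ξ l ((1 - NN J z) * X.map (algebraMap ℂ A) * (1 + NN J z))
  map_add' X Y := by
    rw [← T0_add, Matrix.map_add _ (map_add _), Matrix.mul_add (1 - NN J z), Matrix.add_mul]
  map_smul' c X := by
    have : (c • X).map (algebraMap ℂ A) = c • X.map (algebraMap ℂ A) := by
      ext i k
      rw [Matrix.map_apply, Matrix.smul_apply, Matrix.smul_apply, Matrix.map_apply, smul_eq_mul,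
        map_mul, Algebra.smul_def]
    rw [this, Matrix.mul_smul, Matrix.smul_mul, RingHom.id_apply, Algebra.smul_def c (T0 ..),
      ← T0_smul, algebraMap_smul]

theorem stepE_apply (J : Matrix I I ℂ) (r : Matrix I I ℂ →ₗ[ℂ] A) (z ξ : Option I → A) (l : A)
    (X : Matrix (Option (Option I)) (Option (Option I)) ℂ) : stepE J r z ξ l X
      = T0 J r z ξ l ((1 - NN J z) * X.map (algebraMap ℂ A) * (1 + NN J z)) := rfl

/-- commutation relations for one step (`ε = 1` quantum, `ε = 0` classical) -/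
structure Ok1 (J : Matrix I I ℂ) (ε : ℤ) (r : Matrix I I ℂ →ₗ[ℂ] A) (z ξ : Option I → A)
    (l : A) : Prop where
  zz : ∀ a b, Commute (z a) (z b)
  xx : ∀ a b, Commute (ξ a) (ξ b)
  xz : ∀ a b, ξ a * z b - z b * ξ a = if a = b then (ε : A) else 0
  lz : ∀ a, Commute l (z a)
  lx : ∀ a, Commute l (ξ a)
  rz : ∀ X, Sk J X → ∀ a, Commute (r X) (z a)
  rx : ∀ X, Sk J X → ∀ a, Commute (r X) (ξ a)
  rl : ∀ X, Sk J X → Commute (r X) l

end Sympl

/-- `-c` is an eigenvalue of a matrix with entries in `T` -/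
def Eig {Q : Type} [DivisionRing Q] (T : Subfield Q) (c : Q) : Prop :=
  ∃ (n : Type) (_ : Fintype n) (_ : DecidableEq n) (M : Matrix n n Q) (u : n → Q),
    (∀ i j, M i j ∈ T) ∧ u ≠ 0 ∧ u ᵥ* (M + Matrix.scalar n c) = 0

/-- variables: derivatives, coordinates, central letters -/
abbrev Var (ι κ : Type) : Type := (ι ⊕ ι) ⊕ κ

/-- weights of the variables -/
def wt {ι κ : Type} : Var ι κ → ℕ
  | .inl (.inl _) => 1
  | .inl (.inr _) => 0
  | .inr _ => 1

/-- a multiplicative family of subspaces -/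
structure Grad {A : Type} [Ring A] [Algebra ℂ A] (G : ℕ → Submodule ℂ A) : Prop where
  one : 1 ∈ G 0
  mul : ∀ k l x y, x ∈ G k → y ∈ G l → x * y ∈ G (k + l)

/-- commutation relations for a relative realisation -/
structure Ok {I ι κ A : Type} [Fintype I] [DecidableEq I] [DecidableEq ι] [Ring A] [Algebra ℂ A]
    (J : Matrix I I ℂ) (ε : ℤ) (r : Matrix I I ℂ →ₗ[ℂ] A) (g : Var ι κ → A) : Prop where
  sys : ∀ a b, g a * g b - g b * g a = ((ε * om1 ι κ a b : ℤ) : A)
  com : ∀ X, Sk J X → ∀ a, Commute (r X) (g a)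

/-- a realisation of the Lie algebra of `J` over the Lie algebra of `J0` and Weyl variables -/
structure Rel {I0 I : Type} [Fintype I0] [DecidableEq I0] [Fintype I] [DecidableEq I]
    (J0 : Matrix I0 I0 ℂ) (J : Matrix I I ℂ) where
  ι : Type
  κ : Type
  [dι : DecidableEq ι]
  [fι : Fintype ι]
  [dκ : DecidableEq κ]
  [fκ : Fintype κ]
  E : ∀ {A : Type} [Ring A] [Algebra ℂ A],
    (Matrix I0 I0 ℂ →ₗ[ℂ] A) → (Var ι κ → A) → Matrix I I ℂ →ₗ[ℂ] A
  map : ∀ {A B : Type} [Ring A] [Algebra ℂ A] [Ring B] [Algebra ℂ B] (φ : A →ₐ[ℂ] B)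
    (r : Matrix I0 I0 ℂ →ₗ[ℂ] A) (g : Var ι κ → A) (X : Matrix I I ℂ),
    φ (E r g X) = E (φ.toLinearMap ∘ₗ r) (fun a => φ (g a)) X
  mem : ∀ {A : Type} [Ring A] [Algebra ℂ A] (G : ℕ → Submodule ℂ A), Grad G →
    ∀ (r : Matrix I0 I0 ℂ →ₗ[ℂ] A) (g : Var ι κ → A), (∀ X, Sk J0 X → r X ∈ G 1) →
    (∀ a, g a ∈ G (wt a)) → ∀ X, Sk J X → E r g X ∈ G 1
  lie : ∀ {A : Type} [Ring A] [Algebra ℂ A] (r : Matrix I0 I0 ℂ →ₗ[ℂ] A) (g : Var ι κ → A),
    Ok J0 1 r g → IsLie J0 r → IsLie J (E r g)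
  gen : ∀ {Q : Type} [DivisionRing Q] [Algebra ℂ Q] (ε : ℤ) (r : Matrix I0 I0 ℂ →ₗ[ℂ] Q)
    (g : Var ι κ → Q), Ok J0 ε r g →
    (∀ k, ∃ τ : Q →ₐ[ℂ] Q, (∀ X, Sk J0 X → τ (r X) = r X) ∧ τ (g (.inr k)) = g (.inr k) + 1 ∧
      ∀ a, a ≠ .inr k → τ (g a) = g a) →
    ∀ T : Subfield Q, (∀ c, algebraMap ℂ Q c ∈ T) → (∀ X, Sk J X → E r g X ∈ T) →
    (∀ k, Eig T (g (.inr k)) → g (.inr k) ∈ T) → (∀ X, Sk J0 X → r X ∈ T) ∧ ∀ a, g a ∈ T
  count : Module.finrank ℂ (skewAdjointMatricesSubmodule J)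
    ≤ Module.finrank ℂ (skewAdjointMatricesSubmodule J0) + Fintype.card (Var ι κ)

attribute [instance] Rel.dι Rel.fι Rel.dκ Rel.fκ

theorem Rel.mem_sub {I0 I : Type} [Fintype I0] [DecidableEq I0] [Fintype I] [DecidableEq I]
    {J0 : Matrix I0 I0 ℂ} {J : Matrix I I ℂ} (R : Rel J0 J) {A : Type} [Ring A] [Algebra ℂ A]
    (S : Subalgebra ℂ A) {r : Matrix I0 I0 ℂ →ₗ[ℂ] A} {g : Var R.ι R.κ → A}
    (hr : ∀ X, Sk J0 X → r X ∈ S) (hg : ∀ a, g a ∈ S) {X : Matrix I I ℂ} (hX : Sk J X) :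
    R.E r g X ∈ S :=
  R.mem (fun _ => Subalgebra.toSubmodule S) ⟨S.one_mem, fun _ _ _ _ hx hy => S.mul_mem hx hy⟩
    r g hr hg X hX

/-- first block of variables -/
def in1 {ι1 κ1 : Type} (ι2 κ2 : Type) : Var ι1 κ1 → Var (ι1 ⊕ ι2) (κ1 ⊕ κ2) :=
  Sum.map (Sum.map Sum.inl Sum.inl) Sum.inl

/-- second block of variables -/
def in2 (ι1 κ1 : Type) {ι2 κ2 : Type} : Var ι2 κ2 → Var (ι1 ⊕ ι2) (κ1 ⊕ κ2) :=
  Sum.map (Sum.map Sum.inr Sum.inr) Sum.inr

/-- the reduced system with extra commuting shift pairs -/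
structure XS {A : Type} [Ring A] (e : Fin 10 → A) (m : ℕ) (a b : ℕ → A) : Prop where
  S : Sys e
  P : Pairs m a b
  ca : ∀ j < m, ∀ i, Commute (a j) (e i)
  cb : ∀ j < m, ∀ i, Commute (b j) (e i)

/-- all generators of the extended system -/
def xg {A : Type} (e : Fin 10 → A) (m : ℕ) (a b : ℕ → A) : Fin 10 ⊕ Fin m ⊕ Fin m → A :=
  Sum.elim e (Sum.elim (fun j => a j) (fun j => b j))

/-- weights of the extended pairs -/
def th' {A : Type} [Ring A] (e : Fin 10 → A) (a : ℕ → A) (j : ℕ) : M2 A :=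
  if j < 4 then th e j else sc (a (j - 4))

/-- weight vectors of the extended pairs -/
def gg' {A : Type} [Ring A] (e : Fin 10 → A) (b : ℕ → A) (j : ℕ) : M2 A :=
  if j < 4 then gg e j else sc (b (j - 4))

end Pool.Agent.Lib.MP_75bae7_al.Cn
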