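import Pool.Agent.Lib.MP_75bae7_al.Cn.Defs

/-!
Faithfulness on the enveloping algebra from independence of symbols.
-/

set_option autoImplicit false
set_option linter.unusedSectionVars false

namespace Pool.Agent.Lib.MP_75bae7_al.Cn

attribute [local instance 100] LieRing.ofAssociativeRing

section Words
variable {U : Type} [Ring U] [Algebra ℂ U] {N : ℕ}

/-- the product of the letters of a word -/
def wordE (e : Fin N → U) (w : List (Fin N)) : U := (w.map e).prod

/-- the span of the words of length less than `k` -/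
def wordV (e : Fin N → U) (k : ℕ) : Submodule ℂ U :=
  Submodule.span ℂ {u | ∃ w : List (Fin N), w.length < k ∧ wordE e w = u}

theorem wordE_cons (e : Fin N → U) (i : Fin N) (w : List (Fin N)) :
    wordE e (i :: w) = e i * wordE e w := by
  simp [wordE]

theorem wordE_append (e : Fin N → U) (w w' : List (Fin N)) :
    wordE e (w ++ w') = wordE e w * wordE e w' := by
  simp [wordE]

theorem wordE_mem (e : Fin N → U) {k : ℕ} (w : List (Fin N)) (h : w.length < k) :
    wordE e w ∈ wordV e k :=
  Submodule.subset_span ⟨w, h, rfl⟩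

theorem wordV_mono (e : Fin N → U) {k l : ℕ} (h : k ≤ l) : wordV e k ≤ wordV e l :=
  Submodule.span_mono fun _ ⟨w, hw, hu⟩ => ⟨w, lt_of_lt_of_le hw h, hu⟩

theorem wordV_left (e : Fin N → U) (w : List (Fin N)) {k : ℕ} {u : U} (hu : u ∈ wordV e k) :
    wordE e w * u ∈ wordV e (w.length + k) := by
  induction hu using Submodule.span_induction with
  | mem u hu =>
    obtain ⟨w', hw', rfl⟩ := hu
    rw [← wordE_append]
    exact wordE_mem e _ (by rw [List.length_append]; omega)
  | zero => simp
  | add u v _ _ hu hv => rw [mul_add]; exact Submodule.add_mem _ hu hv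
  | smul c u _ hu => rw [mul_smul_comm]; exact Submodule.smul_mem _ _ hu

theorem wordV_mul (e : Fin N → U) {k l : ℕ} {u v : U} (hu : u ∈ wordV e k) (hv : v ∈ wordV e l) :
    u * v ∈ wordV e (k + l) := by
  induction hu using Submodule.span_induction with
  | mem u hu =>
    obtain ⟨w, hw, rfl⟩ := hu
    exact wordV_mono e (by omega) (wordV_left e w hv)
  | zero => simp
  | add u u' _ _ hu hu' => rw [add_mul]; exact Submodule.add_mem _ hu hu'
  | smul c u _ hu => rw [smul_mul_assoc]; exact Submodule.smul_mem _ _ hu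

theorem wordE_perm (e : Fin N → U)
    (he : ∀ i j, ∃ c : Fin N → ℂ, e i * e j - e j * e i = ∑ m, c m • e m)
    {w w' : List (Fin N)} (h : w.Perm w') : wordE e w - wordE e w' ∈ wordV e w.length := by
  induction h with
  | nil => simp
  | @cons x l1 l2 _ ih =>
    rw [wordE_cons, wordE_cons, ← mul_sub]
    have := wordV_left e [x] ih
    simpa [wordE, add_comm] using this
  | swap x y l =>
    obtain ⟨c, hc⟩ := he y x
    rw [wordE_cons, wordE_cons, wordE_cons, wordE_cons, ← mul_assoc, ← mul_assoc, ← sub_mul, hc,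
      Finset.sum_mul]
    refine Submodule.sum_mem _ fun m _ => ?_
    rw [smul_mul_assoc, ← wordE_cons]
    exact Submodule.smul_mem _ _ (wordE_mem e _ (by simp))
  | @trans l1 l2 l3 h1 _ ih1 ih2 =>
    rw [← h1.length_eq] at ih2
    have := Submodule.add_mem _ ih1 ih2
    simpa using this

/-- a word with given multiplicities of the letters -/
noncomputable def wordOf (a : Fin N →₀ ℕ) : List (Fin N) := (Finsupp.toMultiset a).toList

theorem wordOf_perm (w : List (Fin N)) :
    w.Perm (wordOf (Multiset.toFinsupp (w : Multiset (Fin N)))) := by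
  rw [← Multiset.coe_eq_coe, wordOf, Multiset.coe_toList, Multiset.toFinsupp_toMultiset]

theorem word_monomial (w : List (Fin N)) :
    (MvPolynomial.monomial (Multiset.toFinsupp (w : Multiset (Fin N))) (1 : ℂ))
      = (w.map MvPolynomial.X).prod := by
  induction w with
  | nil => simp
  | cons i w ih =>
    rw [List.map_cons, List.prod_cons, ← ih, ← Multiset.cons_coe, ← Multiset.singleton_add,
      Multiset.toFinsupp_add, Multiset.toFinsupp_singleton, MvPolynomial.X,
      MvPolynomial.monomial_mul, one_mul]

/-- the linear map that sends a monomial to a word with the same letters -/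
noncomputable def wordS (e : Fin N → U) : MvPolynomial (Fin N) ℂ →ₗ[ℂ] U :=
  (MvPolynomial.basisMonomials (Fin N) ℂ).constr ℂ fun a => wordE e (wordOf a)

theorem wordS_monomial (e : Fin N → U) (a : Fin N →₀ ℕ) :
    wordS e (MvPolynomial.monomial a 1) = wordE e (wordOf a) := by
  have := (MvPolynomial.basisMonomials (Fin N) ℂ).constr_basis ℂ
    (fun a => wordE e (wordOf a)) a
  rwa [MvPolynomial.coe_basisMonomials] at this

theorem word_inj {A P : Type} [Ring A] [Algebra ℂ A] [CommRing P] [Algebra ℂ P]
    (e : Fin N → U) (he : ∀ i j, ∃ c : Fin N → ℂ, e i * e j - e j * e i = ∑ m, c m • e m)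
    (ψ : U →ₐ[ℂ] A) (s : Fin N → P)
    (hs : AlgebraicIndependent ℂ s) (G : ℕ → Submodule ℂ (A × P)) (hG : Grad G)
    (h1 : ∀ i, (ψ (e i), s i) ∈ G 1)
    (lower : ∀ j k x h, j < k → (x, h) ∈ G j → (x, (0 : P)) ∈ G k)
    (top : ∀ k h, ((0 : A), h) ∈ G k → h = 0) (k : ℕ) :
    ∀ u ∈ wordV e k, ψ u = 0 → u = 0 := by
  have hw : ∀ w : List (Fin N), (ψ (wordE e w), (w.map s).prod) ∈ G w.length := by
    intro w
    induction w with
    | nil =>
      have : wordE e [] = 1 := by simp [wordE]
      rw [this, map_one]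
      exact hG.one
    | cons i w ih =>
      have := hG.mul _ _ _ _ (h1 i) ih
      rw [wordE_cons, map_mul, List.map_cons, List.prod_cons, List.length_cons, add_comm]
      exact this
  have hlow : ∀ k, ∀ v ∈ wordV e k, (ψ v, (0 : P)) ∈ G k := by
    intro k v hv
    induction hv using Submodule.span_induction with
    | mem u hu =>
      obtain ⟨w, hw', rfl⟩ := hu
      exact lower _ _ _ _ hw' (hw w)
    | zero => rw [map_zero]; exact Submodule.zero_mem _
    | add u v _ _ hu hv =>
      have := Submodule.add_mem _ hu hv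
      rwa [Prod.mk_add_mk, add_zero, ← map_add] at this
    | smul c u _ hu =>
      have := Submodule.smul_mem _ c hu
      rwa [Prod.smul_mk, smul_zero, ← map_smul] at this
  have htop : ∀ k, ∀ u ∈ wordV e (k + 1), ∃ f : MvPolynomial (Fin N) ℂ,
      u - wordS e f ∈ wordV e k ∧ (ψ (wordS e f), MvPolynomial.aeval s f) ∈ G k := by
    intro k u hu
    induction hu using Submodule.span_induction with
    | mem u hu =>
      obtain ⟨w, hw', rfl⟩ := hu
      rcases Nat.lt_succ_iff_lt_or_eq.mp hw' with h | h
      · refine ⟨0, ?_, ?_⟩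
        · rw [map_zero, sub_zero]; exact wordE_mem e w h
        · rw [map_zero, map_zero, map_zero]; exact Submodule.zero_mem _
      · have hp := wordOf_perm w
        refine ⟨MvPolynomial.monomial (Multiset.toFinsupp (w : Multiset (Fin N))) 1, ?_, ?_⟩
        · rw [wordS_monomial, ← h]; exact wordE_perm e he hp
        · have h2 := hw (wordOf (Multiset.toFinsupp (w : Multiset (Fin N))))
          rw [← hp.length_eq, h, ← (hp.map s).prod_eq] at h2
          rw [wordS_monomial, word_monomial, map_list_prod, List.map_map]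
          have : (MvPolynomial.aeval s : MvPolynomial (Fin N) ℂ →ₐ[ℂ] P) ∘ MvPolynomial.X = s := by
            funext i; simp
          rw [this]; exact h2
    | zero =>
      refine ⟨0, by simp, ?_⟩
      rw [map_zero, map_zero, map_zero]; exact Submodule.zero_mem _
    | add u v _ _ hu hv =>
      obtain ⟨f, hf, hf'⟩ := hu
      obtain ⟨g, hg, hg'⟩ := hv
      refine ⟨f + g, ?_, ?_⟩
      · have := Submodule.add_mem _ hf hg
        rw [map_add]
        convert this using 1
        abel
      · have := Submodule.add_mem _ hf' hg'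
        rw [map_add, map_add, map_add]
        exact this
    | smul c u _ hu =>
      obtain ⟨f, hf, hf'⟩ := hu
      refine ⟨c • f, ?_, ?_⟩
      · rw [map_smul, ← smul_sub]; exact Submodule.smul_mem _ c hf
      · have := Submodule.smul_mem _ c hf'
        rw [map_smul, map_smul, map_smul]
        exact this
  induction k with
  | zero =>
    intro u hu _
    have : wordV e 0 = ⊥ := by
      rw [wordV, Submodule.span_eq_bot]
      rintro x ⟨w, hw', _⟩
      omega
    rwa [this, Submodule.mem_bot] at hu
  | succ k ih =>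
    intro u hu h0
    obtain ⟨f, hf, hf'⟩ := htop k u hu
    have h3 := Submodule.add_mem _ (hlow k _ hf) hf'
    rw [Prod.mk_add_mk, ← map_add, sub_add_cancel, h0, zero_add] at h3
    have h4 : f = 0 := hs (by rw [map_zero]; exact top k _ h3)
    rw [h4, map_zero, sub_zero] at hf
    exact ih u hf h0

end Words

theorem env_inj {L A P : Type} [LieRing L] [LieAlgebra ℂ L] [Ring A] [Algebra ℂ A] [CommRing P]
    [Algebra ℂ P] {N : ℕ} (b : Module.Basis (Fin N) ℂ L) (φ : L →ₗ⁅ℂ⁆ A) (s : Fin N → P)
    (hs : AlgebraicIndependent ℂ s) (G : ℕ → Submodule ℂ (A × P)) (hG : Grad G)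
    (h1 : ∀ i, (φ (b i), s i) ∈ G 1)
    (lower : ∀ j k x h, j < k → (x, h) ∈ G j → (x, (0 : P)) ∈ G k)
    (top : ∀ k h, ((0 : A), h) ∈ G k → h = 0) :
    Function.Injective (UniversalEnvelopingAlgebra.lift ℂ φ) := by
  have hι : ∀ x : L, UniversalEnvelopingAlgebra.ι ℂ x
      = ∑ m, b.repr x m • UniversalEnvelopingAlgebra.ι ℂ (b m) := by
    intro x
    conv_lhs => rw [← b.sum_repr x]
    rw [map_sum]
    simp only [map_smul]
  set e : Fin N → UniversalEnvelopingAlgebra ℂ L := fun i => UniversalEnvelopingAlgebra.ι ℂ (b i)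
    with he0
  have he : ∀ i j, ∃ c : Fin N → ℂ, e i * e j - e j * e i = ∑ m, c m • e m := by
    intro i j
    refine ⟨fun m => b.repr ⁅b i, b j⁆ m, ?_⟩
    rw [← hι, LieHom.map_lie, LieRing.of_associative_ring_bracket]
  have hall : ∀ u : UniversalEnvelopingAlgebra ℂ L, ∃ k, u ∈ wordV e k := by
    intro u
    obtain ⟨x, rfl⟩ : ∃ y, UniversalEnvelopingAlgebra.mkAlgHom ℂ L y = u := Quot.exists_rep u
    induction x using TensorAlgebra.induction with
    | algebraMap r =>
      refine ⟨1, ?_⟩
      rw [AlgHom.commutes, Algebra.algebraMap_eq_smul_one]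
      exact Submodule.smul_mem _ _ (by simpa [wordE] using wordE_mem e [] (k := 1) (by simp))
    | ι x =>
      refine ⟨2, ?_⟩
      rw [← UniversalEnvelopingAlgebra.ι_apply, hι]
      refine Submodule.sum_mem _ fun m _ => Submodule.smul_mem _ _ ?_
      have h2 := wordE_mem e [m] (k := 2) (by simp)
      have h3 : wordE e [m] = e m := by simp [wordE]
      rw [h3] at h2
      exact h2
    | mul x y hx hy =>
      obtain ⟨k, hk⟩ := hx
      obtain ⟨l, hl⟩ := hy
      exact ⟨k + l, by rw [map_mul]; exact wordV_mul e hk hl⟩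
    | add x y hx hy =>
      obtain ⟨k, hk⟩ := hx
      obtain ⟨l, hl⟩ := hy
      exact ⟨k + l, by
        rw [map_add]
        exact Submodule.add_mem _ (wordV_mono e (by omega) hk) (wordV_mono e (by omega) hl)⟩
  rw [injective_iff_map_eq_zero]
  intro u hu
  obtain ⟨k, hk⟩ := hall u
  refine word_inj e he _ s hs G hG (fun i => ?_) lower top k u hk hu
  rw [he0]
  simp only [UniversalEnvelopingAlgebra.lift_ι_apply]
  exact h1 i

end Pool.Agent.Lib.MP_75bae7_al.Cn
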