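import Pool.Agent.Lib.MP_75bae7_al.Cn.Defs

/-!
The extended system: pairs, units, generation by diagonal matrices.
-/

set_option autoImplicit false
set_option linter.unusedSectionVars false

namespace Pool.Agent.Lib.MP_75bae7_al.Cn

namespace XS
section
variable {A : Type} [Ring A] {e : Fin 10 → A} {m : ℕ} {a b : ℕ → A}

theorem sc_th {x : A} (h : ∀ i, Commute x (e i)) (j : ℕ) : Commute (sc x) (th e j) := by
  match j with
  | 0 => exact (h 0).map sc
  | 1 => exact (h 2).map sc
  | 2 => exact Sys.sc_HH (h 4)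
  | _ + 3 => exact commute_sc_qm (Commute.zero_right _) (h 6) (h 5)

theorem sc_gg {x : A} (h : ∀ i, Commute x (e i)) (j : ℕ) : Commute (sc x) (gg e j) := by
  match j with
  | 0 => exact (h 1).map sc
  | 1 => exact (h 3).map sc
  | 2 => exact commute_sc_qm (Commute.zero_right _) (Commute.one_right _) (h 5)
  | _ + 3 => exact commute_sc_qm (h 8) (h 7) (h 5)

theorem th'_lt {j : ℕ} (h : j < 4) : th' e a j = th e j := if_pos h

theorem gg'_lt {j : ℕ} (h : j < 4) : gg' e b j = gg e j := if_pos h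

theorem th'_ge {j : ℕ} (h : ¬j < 4) : th' e a j = sc (a (j - 4)) := if_neg h

theorem gg'_ge {j : ℕ} (h : ¬j < 4) : gg' e b j = sc (b (j - 4)) := if_neg h

theorem th'_add (j : ℕ) : th' e a (j + 4) = sc (a j) := by
  rw [th'_ge (by omega), Nat.add_sub_cancel]

theorem gg'_add (j : ℕ) : gg' e b (j + 4) = sc (b j) := by
  rw [gg'_ge (by omega), Nat.add_sub_cancel]

theorem map (X : XS e m a b) {A' : Type} [Ring A'] (φ : A →+* A') :
    XS (fun i => φ (e i)) m (fun j => φ (a j)) (fun j => φ (b j)) := by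
  refine ⟨X.S.map φ, ⟨fun j hj => ?_, fun i hi j hj => (X.P.tt i hi j hj).map φ,
    fun i hi j hj => (X.P.gg i hi j hj).map φ, fun i hi j hj hij => (X.P.tg i hi j hj hij).map φ⟩,
    fun j hj i => (X.ca j hj i).map φ, fun j hj i => (X.cb j hj i).map φ⟩
  rw [← map_mul, ← map_mul, ← map_sub, X.P.shift j hj]

theorem of_map {A' : Type} [Ring A'] (φ : A →+* A') (hφ : Function.Injective φ)
    (X : XS (fun i => φ (e i)) m (fun j => φ (a j)) (fun j => φ (b j))) : XS e m a b := by
  have c : ∀ {x y : A}, Commute (φ x) (φ y) → Commute x y := fun h =>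
    hφ (by rw [map_mul, map_mul]; exact h.eq)
  refine ⟨Sys.of_map φ hφ X.S, ⟨fun j hj => hφ ?_, fun i hi j hj => c (X.P.tt i hi j hj),
    fun i hi j hj => c (X.P.gg i hi j hj), fun i hi j hj hij => c (X.P.tg i hi j hj hij)⟩,
    fun j hj i => c (X.ca j hj i), fun j hj i => c (X.cb j hj i)⟩
  rw [map_sub, map_mul, map_mul]
  exact X.P.shift j hj

theorem pairs (X : XS e m a b) : Pairs (4 + m) (th' e a) (gg' e b) := by
  have P := X.S.pairs
  refine ⟨fun j hj => ?_, fun i hi j hj => ?_, fun i hi j hj => ?_, fun i hi j hj hij => ?_⟩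
  · by_cases h : j < 4
    · rw [th'_lt h, gg'_lt h]; exact P.shift j h
    · rw [th'_ge h, gg'_ge h, ← map_mul, ← map_mul, ← map_sub, X.P.shift _ (by omega)]
  · by_cases h : i < 4 <;> by_cases h' : j < 4
    · rw [th'_lt h, th'_lt h']; exact P.tt i h j h'
    · rw [th'_lt h, th'_ge h']; exact (sc_th (X.ca _ (by omega)) i).symm
    · rw [th'_ge h, th'_lt h']; exact sc_th (X.ca _ (by omega)) j
    · rw [th'_ge h, th'_ge h']; exact (X.P.tt _ (by omega) _ (by omega)).map sc
  · by_cases h : i < 4 <;> by_cases h' : j < 4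
    · rw [gg'_lt h, gg'_lt h']; exact P.gg i h j h'
    · rw [gg'_lt h, gg'_ge h']; exact (sc_gg (X.cb _ (by omega)) i).symm
    · rw [gg'_ge h, gg'_lt h']; exact sc_gg (X.cb _ (by omega)) j
    · rw [gg'_ge h, gg'_ge h']; exact (X.P.gg _ (by omega) _ (by omega)).map sc
  · by_cases h : i < 4 <;> by_cases h' : j < 4
    · rw [th'_lt h, gg'_lt h']; exact P.tg i h j h' hij
    · rw [th'_lt h, gg'_ge h']; exact (sc_th (X.cb _ (by omega)) i).symm
    · rw [th'_ge h, gg'_lt h']; exact sc_gg (X.ca _ (by omega)) j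
    · rw [th'_ge h, gg'_ge h']; exact (X.P.tg _ (by omega) _ (by omega) (by omega)).map sc

theorem c9 (X : XS e m a b) (i : Fin 10 ⊕ Fin m ⊕ Fin m) : Commute (e 9) (xg e m a b i) := by
  rcases i with i | j | j
  · exact X.S.c 9 i (by revert i; decide)
  · exact (X.ca j j.2 9).symm
  · exact (X.cb j j.2 9).symm

theorem gam2_comm (X : XS e m a b) (i : Fin 10 ⊕ Fin m ⊕ Fin m) :
    Commute (gam2 e) (xg e m a b i) := by
  have key : ∀ x : A, (∀ i, Commute x (e i)) → Commute (gam2 e) x := fun x h => by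
    have hs : Commute x (ss e) := ((h 6).mul_right (h 6)).mul_right (h 5)
    exact ((((h 8).mul_right (h 8)).sub_right (((h 7).mul_right (h 7)).mul_right (h 5))).sub_right
      (((hs.mul_right hs).add_right hs).sub_right ((h 9).mul_right hs))).symm
  rcases i with i | j | j
  · exact X.S.gam2_comm i
  · exact key _ (X.ca j j.2)
  · exact key _ (X.cb j j.2)

end

variable {k D : Type} [Field k] [DivisionRing D] [Algebra k D] {e : Fin 10 → D} {m : ℕ}
  {a b : ℕ → D}

theorem units (X : XS e m a b) (h1 : e 1 ≠ 0) (h3 : e 3 ≠ 0) (h5 : e 5 ≠ 0) (hψ : psi e ≠ 0)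
    (hb : ∀ j < m, b j ≠ 0) : ∀ j < 4 + m, IsUnit (gg' e b j) := by
  intro j hj
  by_cases h : j < 4
  · rw [gg'_lt h]; exact X.S.units h1 h3 h5 hψ j h
  · rw [gg'_ge h]; exact (hb _ (by omega)).isUnit.map sc

/-- a subring of matrices holding the pairs sees every element on the diagonal -/
theorem gen_diag (X : XS e m a b) (hg : Gen k (xg e m a b)) (h5 : e 5 ≠ 0) (hψ : psi e ≠ 0)
    (h2 : (2 : D) ≠ 0) (A : Subring (M2 D)) (hp : ∀ j < 4 + m, th' e a j ∈ A ∧ gg' e b j ∈ A)
    (h9 : sc (e 9) ∈ A) (hγ : sc (gam2 e) ∈ A) (hk : ∀ c : k, sc (algebraMap k D c) ∈ A)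
    (hinv : ∀ M : M2 D, M * ap e = 1 → M ∈ A) (U : Subring D) (hU : ∀ x ∈ U, x⁻¹ ∈ U)
    (hM : ∀ M ∈ A, M 0 1 = 0 → M 1 0 = 0 → M 0 0 ∈ U) (x : D) : x ∈ U := by
  have S := X.S
  have mA : ∀ j < 4, th e j ∈ A ∧ gg e j ∈ A := fun j hj => by
    have := hp j (by omega)
    rwa [th'_lt hj, gg'_lt hj] at this
  have mw : ww e ∈ A := (mA 2 (by norm_num)).2
  have mt : tt e ∈ A := (mA 3 (by norm_num)).1
  have ma : ap e ∈ A := (mA 3 (by norm_num)).2
  have mb : am e ∈ A := by
    obtain ⟨u, hu'⟩ := S.unit_ap hψ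
    have b1 : (↑u⁻¹ : M2 D) ∈ A := hinv _ (by rw [← hu', u.inv_mul])
    have b2 : am e = ↑u⁻¹ * (ap e * am e) := by rw [← hu', u.inv_mul_cancel_left]
    have b3 := A.sub_mem (A.pow_mem mt 2) mt
    rw [b2, S.ap_am, Gq]
    exact A.mul_mem b1 (A.add_mem (A.sub_mem (A.pow_mem b3 2) (A.mul_mem h9 b3)) hγ)
  have hsc : ∀ x, sc x ∈ A → x ∈ U := fun x hx => hM _ hx rfl rfl
  have u5 : e 5 ∈ U := hsc _ (Sys.ww_sq (e := e) ▸ A.mul_mem mw mw)
  have u2 : (2 : D)⁻¹ ∈ U := hU _ (ofNat_mem U 2)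
  have key : ∀ b, qm (e 5) 0 b ∈ A → b ∈ U := by
    intro b hb
    have c1 := A.mul_mem hb mw
    rw [ww, qm_mul _ _ (Commute.zero_left _) (Commute.one_left _)] at c1
    simp only [mul_zero, zero_add, mul_one, ← sc_eq] at c1
    have c2 := U.mul_mem (hsc _ c1) (hU _ u5)
    rwa [mul_inv_cancel_right₀ h5] at c2
  refine hg U (fun c => hsc _ (hk c)) hU (fun i => ?_) x
  rcases i with i | j | j
  · change e i ∈ U
    fin_cases i
    exacts [hsc _ (mA 0 (by norm_num)).1, hsc _ (mA 0 (by norm_num)).2,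
      hsc _ (mA 1 (by norm_num)).1, hsc _ (mA 1 (by norm_num)).2,
      hM _ (mA 2 (by norm_num)).1 rfl rfl, u5, key _ mt,
      by
        have c1 := A.sub_mem ma mb
        rw [ap, am, qm_sub, sub_self, sub_neg_eq_add, ← two_mul] at c1
        have c2 := U.mul_mem u2 (key _ c1)
        rwa [inv_mul_cancel_left₀ h2] at c2,
      by
        have c1 := A.add_mem ma mb
        rw [ap, am, qm_add, add_neg_cancel, ← two_mul, ← sc_eq] at c1
        have c2 := U.mul_mem u2 (hsc _ c1)
        rwa [inv_mul_cancel_left₀ h2] at c2,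
      hsc _ h9]
  · have := (hp (j + 4) (by have := j.2; omega)).1
    rw [th'_add] at this
    exact hsc _ this
  · have := (hp (j + 4) (by have := j.2; omega)).2
    rw [gg'_add] at this
    exact hsc _ this

theorem cc_cj (X : XS e m a b) (hg : Gen k (xg e m a b)) (hψ : psi e ≠ 0) {M : M2 D}
    (hM : CC e M) : CC e (cj M) := by
  have S := X.S
  obtain ⟨g1, hg1⟩ := hg.central X.c9
  obtain ⟨g2, hg2⟩ := hg.central X.gam2_comm
  have h1 : Commute M (am e) := by
    have a1 : Commute M (tt e) := (hM 3 (by norm_num)).1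
    have a2 : Commute M (ap e) := (hM 3 (by norm_num)).2
    have a3 : Commute M (ap e * am e) := by
      have a4 := (a1.pow_right 2).sub_right a1
      rw [S.ap_am, Gq, ← hg2, ← hg1, sc_algebraMap, sc_algebraMap]
      exact ((a4.pow_right 2).sub_right ((Algebra.commute_algebraMap_right _ _).mul_right
        a4)).add_right (Algebra.commute_algebraMap_right _ _)
    apply (S.unit_ap hψ).mul_left_cancel
    rw [← mul_assoc, ← a2.eq, mul_assoc, a3.eq, mul_assoc]
  intro j hj
  have a := (hM j hj).1.map cj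
  have b := (hM j hj).2.map cj
  interval_cases j
  · exact ⟨by rwa [th, cj_sc] at a, by rwa [gg, cj_sc] at b⟩
  · exact ⟨by rwa [th, cj_sc] at a, by rwa [gg, cj_sc] at b⟩
  · refine ⟨by rwa [th, show cj (HH e) = HH e by apply m2_ext <;> simp [HH]] at a, ?_⟩
    rw [gg, ww, cj_qm0] at b
    have := b.neg_right
    rwa [neg_neg] at this
  · have c := h1.map cj
    rw [Sys.cj_am] at c
    change Commute _ (cj (tt e)) at a
    rw [Sys.cj_tt] at a
    have := a.neg_right
    rw [neg_neg] at this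
    exact ⟨this, c⟩

/-- a matrix commuting with all pairs has a central upper left entry -/
theorem cc_central (X : XS e m a b) (hg : Gen k (xg e m a b)) (hψ : psi e ≠ 0) (h2 : (2 : D) ≠ 0)
    {M : M2 D} (hM : ∀ j < 4 + m, Commute M (th' e a j) ∧ Commute M (gg' e b j)) :
    ∃ z : Ctr D, algebraMap (Ctr D) D z = M 0 0 := by
  have hC : CC e M := fun j hj => by
    have := hM j (by omega)
    rwa [th'_lt hj, gg'_lt hj] at this
  obtain ⟨g1, hg1⟩ := hg.central X.c9
  have h1 := hC.add (X.cc_cj hg hψ hC)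
  rw [(eq_qm (hC 2 (by norm_num)).2).1, cj_qm, qm_add, add_neg_cancel, ← sc_eq, ← two_mul] at h1
  refine hg.central fun i => ?_
  rcases i with i | j | j
  · change Commute _ (e i)
    have : Commute (2 * M 0 0) (e i) := by
      fin_cases i
      exacts [commute_sc.1 (h1 0 (by norm_num)).1 0 0, commute_sc.1 (h1 0 (by norm_num)).2 0 0,
        commute_sc.1 (h1 1 (by norm_num)).1 0 0, commute_sc.1 (h1 1 (by norm_num)).2 0 0,
        commute_sc.1 (h1 2 (by norm_num)).1 0 0,
        by simpa [gg, ww] using commute_sc.1 (h1 2 (by norm_num)).2 0 1,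
        commute_sc.1 (h1 3 (by norm_num)).1 1 0, commute_sc.1 (h1 3 (by norm_num)).2 1 0,
        commute_sc.1 (h1 3 (by norm_num)).2 0 0,
        by change Commute _ (e 9); rw [← hg1]; exact Algebra.commute_algebraMap_right _ _]
    apply mul_left_cancel₀ h2
    rw [← mul_assoc, this.eq, ← mul_assoc, ← mul_assoc, (Commute.ofNat_right (e i) 2).eq]
  · have := (hM (j + 4) (by have := j.2; omega)).1
    rw [th'_add] at this
    exact (commute_sc.1 this.symm 0 0).symm
  · have := (hM (j + 4) (by have := j.2; omega)).2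
    rw [gg'_add] at this
    exact (commute_sc.1 this.symm 0 0).symm

end XS

end Pool.Agent.Lib.MP_75bae7_al.Cn
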