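import Pool.Agent.Lib.MP_75bae7_al.Own

/-!
Existence of Weyl skew fields over any field and extension of homomorphisms to fractions.
-/

set_option autoImplicit false
set_option linter.unusedSectionVars false

namespace Pool.Agent.Lib.MP_75bae7_al.Cn

open MvPolynomial

theorem gr_of_poly (d : ℕ → ℕ) (N : ℕ) (h0 : 1 ≤ d 0) (hb : ∀ n, d n ≤ (n + 1) ^ N) (c : ℕ) :
    ∃ n, d (c + n) < 2 * d n := by
  by_contra hh
  push Not at hh
  have h1 : ∀ k, 2 ^ k ≤ d (c * k) := by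
    intro k
    induction k with
    | zero => simpa using h0
    | succ k ih => have := hh (c * k); rw [show c * (k + 1) = c + c * k by ring, pow_succ]; omega
  have h2 : ∀ k : ℕ, (2:ℝ) ^ k ≤ ((c:ℝ) + 1) ^ N * ((k:ℝ) + 1) ^ N := by
    intro k
    have a : ((2 ^ k : ℕ) : ℝ) ≤ (((c * k + 1) ^ N : ℕ) : ℝ) := by exact_mod_cast (h1 k).trans (hb _)
    push_cast at a
    rw [← mul_pow]
    refine a.trans (pow_le_pow_left₀ (by positivity) (by nlinarith [Nat.cast_nonneg (α := ℝ) c, Nat.cast_nonneg (α := ℝ) k]) N)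
  have h3 := tendsto_pow_const_div_const_pow_of_one_lt N (r := (2:ℝ)) one_lt_two
  have h4 := (Filter.tendsto_add_atTop_iff_nat 1).2 h3
  have hpos : (0:ℝ) < 1 / (2 * ((c:ℝ) + 1) ^ N) := by positivity
  obtain ⟨k, hk⟩ := (h4.eventually (gt_mem_nhds hpos)).exists
  have a := h2 k
  push_cast at hk
  rw [div_lt_div_iff₀ (by positivity) (by positivity), pow_succ] at hk
  nlinarith

theorem fr_bound {σ : Type} [Fintype σ] (k : Type) [Field k] (n : ℕ) :
    Module.finrank k (restrictTotalDegree σ k n) ≤ (n + 1) ^ Fintype.card σ := by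
  classical
  refine (Submodule.finrank_mono (restrictTotalDegree_le_restrictDegree σ k n)).trans ?_
  have := Module.finrank_eq_nat_card_basis (basisRestrictSupport k {m : σ →₀ ℕ | ∀ i, m i ≤ n})
  refine this.le.trans ?_
  have : Nat.card {m : σ →₀ ℕ | ∀ i, m i ≤ n} ≤ Nat.card (σ → Fin (n + 1)) :=
    Nat.card_le_card_of_injective (fun m i => ⟨m.1 i, Nat.lt_succ_of_le (m.2 i)⟩) (by
      intro a b h
      ext i
      simpa using congrFun h i)
  simpa using this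

theorem ore_of_growth {k A : Type} [Field k] [Ring A] [IsDomain A] [Algebra k A] (F : ℕ → Submodule k A)
    (fin : ∀ n, Module.Finite k (F n)) (mul : ∀ m n, ∀ a ∈ F m, ∀ b ∈ F n, a * b ∈ F (m + n))
    (ex : ∀ a b : A, ∃ n, a ∈ F n ∧ b ∈ F n)
    (gr : ∀ c, ∃ n, Module.finrank k (F (c + n)) < 2 * Module.finrank k (F n))
    (a b : A) (hb : b ≠ 0) : ∃ x y : A, y ≠ 0 ∧ a * y = b * x := by
  obtain ⟨c, ha, hb'⟩ := ex a b
  obtain ⟨n, hn⟩ := gr c
  let f : F n × F n →ₗ[k] F (c + n) := LinearMap.codRestrict _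
    ((LinearMap.mulLeft k a ∘ₗ (F n).subtype).coprod (-(LinearMap.mulLeft k b ∘ₗ (F n).subtype)))
    (fun x => by
      simpa using (F (c + n)).add_mem (mul _ _ _ ha _ x.1.2) ((F (c + n)).neg_mem (mul _ _ _ hb' _ x.2.2)))
  have hni : ¬ Function.Injective f := fun h => by
    have := LinearMap.finrank_le_finrank_of_injective h
    rw [Module.finrank_prod] at this
    omega
  rw [injective_iff_map_eq_zero] at hni
  push Not at hni
  obtain ⟨⟨y, x⟩, h0, hne⟩ := hni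
  have h1 : a * (y : A) = b * x := by
    have := congrArg Subtype.val h0
    simpa [f, add_neg_eq_zero] using this
  refine ⟨x, y, fun hy => hne ?_, h1⟩
  have hx : (x : A) = 0 := by
    rw [hy, mul_zero] at h1
    exact (mul_eq_zero.1 h1.symm).resolve_left hb
  ext <;> simp [hx, hy]

section
open MulOpposite nonZeroDivisors OreLocalization
theorem exists_frac {k A : Type} [Field k] [Ring A] [IsDomain A] [Algebra k A]
    (ore : ∀ a b : A, b ≠ 0 → ∃ x y : A, y ≠ 0 ∧ a * y = b * x) :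
    ∃ (K : Type) (_ : DivisionRing K) (_ : Algebra k K) (f : A →ₐ[k] K), Function.Injective f ∧
      ∀ x : K, ∃ a b : A, b ≠ 0 ∧ x = f a * (f b)⁻¹ := by
  have h : Nonempty (OreSet (Aᵐᵒᵖ)⁰) := by
    rw [nonempty_oreSet_iff_of_noZeroDivisors]
    intro r s
    obtain ⟨x, y, hy, e⟩ := ore r.unop (s : Aᵐᵒᵖ).unop (by simpa using nonZeroDivisors.ne_zero s.2)
    exact ⟨op x, ⟨op y, mem_nonZeroDivisors_of_ne_zero (by simpa using hy)⟩, by
      apply unop_injective; simpa using e⟩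
  obtain ⟨inst⟩ := h
  let Q := (Aᵐᵒᵖ)[(Aᵐᵒᵖ)⁰⁻¹]
  let n : Aᵐᵒᵖ →ₐ[k] Q := { (numeratorRingHom : Aᵐᵒᵖ →+* Q) with commutes' := fun c => rfl }
  have ninj : Function.Injective n := numeratorHom_inj fun x hx => hx.1
  refine ⟨Qᵐᵒᵖ, inferInstance, inferInstance, (AlgHom.op n).comp (AlgEquiv.opOp k A).toAlgHom, ?_, fun x => ?_⟩
  · intro a b hab
    have : n (op a) = n (op b) := by simpa using hab
    exact op_injective (ninj this)
  · obtain ⟨x⟩ := x
    induction x using OreLocalization.ind with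
    | _ r s =>
    refine ⟨r.unop, (s : Aᵐᵒᵖ).unop, by simpa using nonZeroDivisors.ne_zero s.2, ?_⟩
    apply unop_injective
    have hs : n s ≠ 0 := (map_ne_zero_iff _ ninj).2 (nonZeroDivisors.ne_zero s.2)
    have : n s * (r /ₒ s) = n r := by
      change ((s : Aᵐᵒᵖ) /ₒ 1) * (r /ₒ s) = r /ₒ 1
      exact OreLocalization.mul_cancel
    have h2 : r /ₒ s = (n s)⁻¹ * n r := by rw [← this, ← mul_assoc, inv_mul_cancel₀ hs, one_mul]
    change r /ₒ s = _
    simpa using h2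

end

theorem degLT_iff {σ k : Type} [Field k] (n : ℕ) (f : MvPolynomial σ k) : DegLT (n + 1) f ↔ f ∈ restrictTotalDegree σ k n := by
  rw [mem_restrictTotalDegree]
  constructor
  · intro h
    by_cases h0 : f = 0
    · simp [h0]
    · exact Nat.lt_succ_iff.1 (h.totalDegree_lt h0)
  · intro h
    exact (degLT_totalDegree f).mono (by omega)

theorem frac_of_phi {σ k A : Type} [Field k] [Fintype σ] (S : Shape σ) [Ring A] [Algebra k A] (g0 : σ → A) (h2 : S.IsSys g0)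
    (bij : Function.Bijective (phi S k g0)) :
    ∃ (K : Type) (_ : DivisionRing K) (_ : Algebra k K) (f : A →ₐ[k] K), Function.Injective f ∧
      ∀ x : K, ∃ a b : A, b ≠ 0 ∧ x = f a * (f b)⁻¹ := by
  let E := LinearEquiv.ofBijective _ bij
  have hE : ∀ f, E f = phi S k g0 f := fun _ => rfl
  have : Nontrivial A := E.injective.nontrivial
  have : NoZeroDivisors A := ⟨fun {a b} hab => by
    obtain ⟨f, rfl⟩ := bij.2 a
    obtain ⟨h, rfl⟩ := bij.2 b
    by_contra hne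
    push Not at hne
    rw [← phi_star h2, map_eq_zero_iff _ bij.1] at hab
    exact star_ne_zero (fun e => hne.1 (by simp [e])) (fun e => hne.2 (by simp [e])) hab⟩
  have : IsDomain A := NoZeroDivisors.to_isDomain A
  let F : ℕ → Submodule k A := fun n => (restrictTotalDegree σ k n).map (phi S k g0)
  have hF : ∀ n, Module.finrank k (F n) = Module.finrank k (restrictTotalDegree σ k n) := fun n =>
    (LinearEquiv.finrank_map_eq E _)
  refine exists_frac (ore_of_growth F (fun n => inferInstance) ?_ ?_ ?_)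
  · rintro m n _ ⟨f, hf, rfl⟩ _ ⟨h, hh, rfl⟩
    exact ⟨_, (degLT_iff _ _).1 (star_degLT ((degLT_iff _ _).2 hf) ((degLT_iff _ _).2 hh)), phi_star h2 f h⟩
  · intro a b
    obtain ⟨f, rfl⟩ := bij.2 a
    obtain ⟨h, rfl⟩ := bij.2 b
    exact ⟨max f.totalDegree h.totalDegree, ⟨f, (mem_restrictTotalDegree _ _ _).2 (by omega), rfl⟩,
      ⟨h, (mem_restrictTotalDegree _ _ _).2 (by omega), rfl⟩⟩
  · refine gr_of_poly (fun n => Module.finrank k (F n)) (Fintype.card σ) ?_ fun n => (hF n).le.trans (fr_bound k n)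
    rw [hF]
    have : Nontrivial (restrictTotalDegree σ k 0) :=
      ⟨⟨1, (mem_restrictTotalDegree _ _ _).2 (by simp)⟩, 0, by simp⟩
    exact Module.finrank_pos

theorem exists_WFk (ι κ k : Type) [DecidableEq ι] [Fintype ι] [Fintype κ] [Field k] :
    ∃ (D : Type) (_ : DivisionRing D) (_ : Algebra k D), Nonempty (WF ι κ k D) := by
  have L := lop_isSys (S := sh1 ι κ) (R := k)
  let A : Subalgebra k (Module.End k (MvPolynomial ((ι ⊕ ι) ⊕ κ) k)) :=
    { carrier := {x | ∃ f, phi (sh1 ι κ) k (lop (sh1 ι κ) k) f = x}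
      mul_mem' := by
        rintro _ _ ⟨f1, rfl⟩ ⟨f2, rfl⟩
        exact ⟨_, phi_star L f1 f2⟩
      add_mem' := by
        rintro _ _ ⟨f1, rfl⟩ ⟨f2, rfl⟩
        exact ⟨f1 + f2, map_add _ _ _⟩
      algebraMap_mem' := fun c => ⟨C c, phi_C L c⟩ }
  let g0 : (ι ⊕ ι) ⊕ κ → A := fun a => ⟨lop (sh1 ι κ) k a, X a, phi_X L a⟩
  have h2 : (sh1 ι κ).IsSys g0 := fun a b => Subtype.ext (by simpa [g0] using L a b)
  have key : ∀ {B : Type} [Ring B] [Algebra k B] (ψ : A →ₐ[k] B) f,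
      ψ (phi (sh1 ι κ) k g0 f) = phi (sh1 ι κ) k (fun a => ψ (g0 a)) f := by
    intro B _ _ ψ f
    have := map_phi h2 (RingHom.id k) ψ.toRingHom (fun c => ψ.commutes c) f
    rwa [MvPolynomial.map_id] at this
  have kv : ∀ f, A.val (phi (sh1 ι κ) k g0 f) = phi (sh1 ι κ) k (lop (sh1 ι κ) k) f :=
    fun f => key A.val f
  have inj : Function.Injective (phi (sh1 ι κ) k g0) := by
    intro a b hab
    have := congrArg (fun x => A.val x 1) hab
    simp only [kv] at this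
    exact (star_one a).symm.trans (this.trans (star_one b))
  have sur : ∀ x, ∃ f, phi (sh1 ι κ) k g0 f = x := by
    rintro ⟨_, f, rfl⟩
    exact ⟨f, Subtype.ext (kv f)⟩
  obtain ⟨K, i1, i2, h, hi, hfr⟩ := frac_of_phi (k := k) _ g0 h2 ⟨inj, sur⟩
  have hs : (sh1 ι κ).IsSys fun a => h (g0 a) := fun a b => by
    simpa using congrArg h (h2 a b)
  refine ⟨K, i1, i2, ⟨fun a => h (g0 a), hs, fun a b hab => inj (hi ?_), fun u => ?_⟩⟩
  · rw [key, key]; exact hab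
  · obtain ⟨a, b, hb, rfl⟩ := hfr u
    obtain ⟨f1, rfl⟩ := sur a
    obtain ⟨f2, rfl⟩ := sur b
    exact ⟨f1, f2, fun h0 => hb (by rw [h0, map_zero]), by rw [key, key]⟩

theorem ext_hom {D M : Type} [DivisionRing D] [Ring M] (R : Subring (D × M))
    (hu : ∀ x ∈ R, x.1 ≠ 0 → IsUnit x.2) (h0 : ∀ x ∈ R, x.1 = 0 → x.2 = 0)
    (hf : ∀ x : D, ∃ a ∈ R, ∃ b ∈ R, b.1 ≠ 0 ∧ x = a.1 * b.1⁻¹) :
    ∃ ψ : D →+* M, ∀ x ∈ R, ψ x.1 = x.2 := by
  have fn : ∀ x ∈ R, ∀ y ∈ R, x.1 = y.1 → x.2 = y.2 := fun x hx y hy e =>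
    sub_eq_zero.1 (h0 (x - y) (R.sub_mem hx hy) (sub_eq_zero.2 e))
  have hf' : ∀ x : D, ∃ a ∈ R, ∃ b ∈ R, b.1 ≠ 0 ∧ x * b.1 = a.1 := fun x => by
    obtain ⟨a, ha, b, hb, h1, rfl⟩ := hf x
    exact ⟨a, ha, b, hb, h1, by rw [mul_assoc, inv_mul_cancel₀ h1, mul_one]⟩
  have ore : ∀ a ∈ R, ∀ b ∈ R, b.1 ≠ 0 → ∃ c ∈ R, ∃ d ∈ R, d.1 ≠ 0 ∧
      a.1 * d.1 = b.1 * c.1 ∧ a.2 * d.2 = b.2 * c.2 := fun a ha b hb h1 => by
    obtain ⟨c, hc, d, hd, h2, e⟩ := hf' (b.1⁻¹ * a.1)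
    have e1 : a.1 * d.1 = b.1 * c.1 := by
      rw [← e, ← mul_assoc, ← mul_assoc, mul_inv_cancel₀ h1, one_mul]
    exact ⟨c, hc, d, hd, h2, e1, fn (a * d) (R.mul_mem ha hd) (b * c) (R.mul_mem hb hc) e1⟩
  have ex : ∀ x : D, ∃ y : M, ∀ a ∈ R, ∀ b ∈ R, x * b.1 = a.1 → y * b.2 = a.2 := fun x => by
    obtain ⟨a, ha, b, hb, h1, e⟩ := hf' x
    obtain ⟨u, hub⟩ := hu b hb h1
    refine ⟨a.2 * (↑u⁻¹ : M), fun a' ha' b' hb' e' => ?_⟩
    obtain ⟨c, hc, d, hd, h2, e1, e2⟩ := ore b' hb' b hb h1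
    have e3 : a'.2 * d.2 = a.2 * c.2 := fn (a' * d) (R.mul_mem ha' hd) (a * c) (R.mul_mem ha hc)
      (by change a'.1 * d.1 = a.1 * c.1
          rw [← e', ← e, mul_assoc, e1, mul_assoc])
    refine (hu d hd h2).mul_right_cancel ?_
    rw [e3, mul_assoc, e2, ← hub, mul_assoc, Units.inv_mul_cancel_left]
  choose ψ hψ using ex
  have ch : ∀ (x : D) (y : M), ∀ a ∈ R, ∀ b ∈ R, b.1 ≠ 0 → x * b.1 = a.1 → y * b.2 = a.2 →
      ψ x = y := fun x y a ha b hb h1 e1 e2 =>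
    (hu b hb h1).mul_right_cancel ((hψ x a ha b hb e1).trans e2.symm)
  have onR : ∀ x ∈ R, ψ x.1 = x.2 := fun x hx =>
    ch _ _ x hx 1 R.one_mem one_ne_zero (mul_one _) (mul_one _)
  have hmul : ∀ x x', ψ (x * x') = ψ x * ψ x' := fun x x' => by
    obtain ⟨a, ha, b, hb, h1, e⟩ := hf' x
    obtain ⟨a', ha', b', hb', h1', e'⟩ := hf' x'
    obtain ⟨c, hc, d, hd, h2, e1, e2⟩ := ore a' ha' b hb h1
    refine ch _ _ (a * c) (R.mul_mem ha hc) (b' * d) (R.mul_mem hb' hd) (mul_ne_zero h1' h2) ?_ ?_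
    · change x * x' * (b'.1 * d.1) = a.1 * c.1
      rw [mul_assoc, ← mul_assoc x', e', e1, ← mul_assoc, e]
    · change ψ x * ψ x' * (b'.2 * d.2) = a.2 * c.2
      rw [mul_assoc, ← mul_assoc (ψ x'), hψ x' a' ha' b' hb' e', e2, ← mul_assoc,
        hψ x a ha b hb e]
  have hadd : ∀ x x', ψ (x + x') = ψ x + ψ x' := fun x x' => by
    obtain ⟨a, ha, b, hb, h1, e⟩ := hf' x
    obtain ⟨a', ha', b', hb', h1', e'⟩ := hf' x'
    obtain ⟨c, hc, d, hd, h2, e1, e2⟩ := ore b' hb' b hb h1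
    have hb2 : b'.1 * d.1 ≠ 0 := mul_ne_zero h1' h2
    refine ch _ _ (a * c + a' * d) (R.add_mem (R.mul_mem ha hc) (R.mul_mem ha' hd)) (b' * d)
      (R.mul_mem hb' hd) hb2 ?_ ?_
    · change (x + x') * (b'.1 * d.1) = a.1 * c.1 + a'.1 * d.1
      rw [add_mul, ← mul_assoc x', e', e1, ← mul_assoc, e]
    · change (ψ x + ψ x') * (b'.2 * d.2) = a.2 * c.2 + a'.2 * d.2
      rw [add_mul, ← mul_assoc (ψ x'), hψ x' a' ha' b' hb' e', e2, ← mul_assoc,
        hψ x a ha b hb e]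
  exact ⟨⟨⟨⟨ψ, onR 1 R.one_mem⟩, hmul⟩, onR 0 R.zero_mem, hadd⟩, onR⟩

theorem WF_lift {ι κ k D M : Type} [DecidableEq ι] [Field k] [DivisionRing D] [Algebra k D]
    [Ring M] [Algebra k M] (w : WF ι κ k D) {g : (ι ⊕ ι) ⊕ κ → M} (hg : (sh1 ι κ).IsSys g)
    (hu : ∀ f, f ≠ 0 → IsUnit (phi (sh1 ι κ) k g f)) :
    ∃ ψ : D →ₐ[k] M, ∀ a, ψ (w.g a) = g a := by
  let R : Subring (D × M) :=
    { carrier := {p | ∃ f, (w.Φ f, phi (sh1 ι κ) k g f) = p}
      mul_mem' := by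
        rintro _ _ ⟨f1, rfl⟩ ⟨f2, rfl⟩
        exact ⟨_, Prod.ext (phi_star w.sys f1 f2) (phi_star hg f1 f2)⟩
      one_mem' := ⟨1, Prod.ext (phi_one w.sys) (phi_one hg)⟩
      add_mem' := by
        rintro _ _ ⟨f1, rfl⟩ ⟨f2, rfl⟩
        exact ⟨f1 + f2, Prod.ext (map_add _ _ _) (map_add _ _ _)⟩
      zero_mem' := ⟨0, Prod.ext (map_zero _) (map_zero _)⟩
      neg_mem' := by
        rintro _ ⟨f, rfl⟩
        exact ⟨-f, Prod.ext (map_neg _ _) (map_neg _ _)⟩ }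
  obtain ⟨ψ, hψ⟩ := ext_hom R
    (by
      rintro _ ⟨f, rfl⟩ h
      exact hu f fun h0 => h (by rw [h0]; exact map_zero _))
    (by
      rintro _ ⟨f, rfl⟩ h
      have : f = 0 := by
        by_contra h0
        exact w.phi_ne_zero h0 h
      rw [this]; exact map_zero _)
    (fun x => by
      obtain ⟨f, h, h0, e⟩ := w.frac x
      exact ⟨_, ⟨f, rfl⟩, _, ⟨h, rfl⟩, w.phi_ne_zero h0, e⟩)
  have hp : ∀ f, ψ (w.Φ f) = phi (sh1 ι κ) k g f := fun f => hψ _ ⟨f, rfl⟩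
  refine ⟨{ ψ with commutes' := fun c => ?_ }, fun a => ?_⟩
  · have := hp (C c)
    rw [phi_C hg, WF.Φ, phi_C w.sys] at this
    exact this
  · have := hp (X a)
    rw [phi_X hg, WF.Φ, phi_X w.sys] at this
    exact this

end Pool.Agent.Lib.MP_75bae7_al.Cn
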