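import Pool.Agent.Lib.MP_75bae7_al.Cn.Defs

/-!
Principal symbols for the filtration by order.
-/

set_option autoImplicit false
set_option linter.unusedSectionVars false

namespace Pool.Agent.Lib.MP_75bae7_al.Cn

open MvPolynomial

section Weight
variable {σ : Type} {S : Shape σ} {R : Type} [CommRing R] {w : σ → ℕ}

/-- all monomials have weight below `N` -/
def WLT (w : σ → ℕ) (N : ℕ) (f : MvPolynomial σ R) : Prop :=
  ∀ n : σ →₀ ℕ, N ≤ Finsupp.weight w n → coeff n f = 0

theorem WLT.add {N : ℕ} {f h : MvPolynomial σ R} (hf : WLT w N f) (hh : WLT w N h) :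
    WLT w N (f + h) := fun n hn => by simp [hf n hn, hh n hn]

theorem WLT.smul {N : ℕ} {f : MvPolynomial σ R} (c : R) (hf : WLT w N f) :
    WLT w N (c • f) := fun n hn => by simp [hf n hn]

theorem WLT.zero (N : ℕ) : WLT w N (0 : MvPolynomial σ R) := fun n _ => by simp

theorem WLT.mono {N M : ℕ} {f : MvPolynomial σ R} (hf : WLT w N f) (h : N ≤ M) :
    WLT w M f := fun n hn => hf n (h.trans hn)

theorem WLT.sum {ι : Type} {N : ℕ} (s : Finset ι) {f : ι → MvPolynomial σ R}
    (hf : ∀ i ∈ s, WLT w N (f i)) : WLT w N (∑ i ∈ s, f i) := fun n hn => by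
  rw [coeff_sum]; exact Finset.sum_eq_zero fun i hi => hf i hi n hn

theorem WLT.mul {M N : ℕ} {f h : MvPolynomial σ R} (hf : WLT w M f) (hh : WLT w (N + 1) h) :
    WLT w (M + N) (f * h) := by
  classical
  intro n hn
  rw [coeff_mul]
  refine Finset.sum_eq_zero fun p hp => ?_
  have h1 : p.1 + p.2 = n := Finset.HasAntidiagonal.mem_antidiagonal.1 hp
  have h2 := congrArg (Finsupp.weight w) h1
  rw [map_add] at h2
  by_cases h3 : M ≤ Finsupp.weight w p.1
  · rw [hf _ h3, zero_mul]
  · rw [hh _ (by omega), mul_zero]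

theorem WLT.of_hom {k : ℕ} {h : MvPolynomial σ R} (hh : IsWeightedHomogeneous w h k) :
    WLT w (k + 1) h := by
  intro n hn
  by_contra hc
  have := hh hc
  omega

theorem WLT.X_mul {N : ℕ} {f : MvPolynomial σ R} (a : σ) (hf : WLT w N f) :
    WLT w (N + w a) (X a * f) := by
  rw [mul_comm]
  exact hf.mul (WLT.of_hom (isWeightedHomogeneous_X R w a))

theorem WLT.monomial_mul (n : σ →₀ ℕ) {N : ℕ} {f : MvPolynomial σ R} (hf : WLT w N f) :
    WLT w (N + Finsupp.weight w n) (monomial n 1 * f) := by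
  rw [mul_comm]
  exact hf.mul (WLT.of_hom (isWeightedHomogeneous_monomial w n 1 rfl))

theorem WLT.pderiv {N : ℕ} {f : MvPolynomial σ R} (a : σ) (hf : WLT w N f) :
    WLT w N (pderiv a f) := by
  intro n hn
  rw [coeff_pderiv, hf, zero_mul]
  rw [map_add]; omega

theorem WLT.der [Fintype σ] {N : ℕ} {f : MvPolynomial σ R} (a : σ) (hf : WLT w N f) :
    WLT w N (der S R a f) := by
  rw [der_eq_sum]
  exact WLT.sum _ fun b _ => (hf.pderiv b).smul _

theorem star_monomial_wt [Fintype σ] (hw : ∀ a, S.left a = false → 1 ≤ w a) (m : ℕ) :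
    ∀ (n : σ →₀ ℕ), n.degree = m → ∀ (N : ℕ) (h : MvPolynomial σ R), WLT w (N + 1) h →
      WLT w (Finsupp.weight w n + N) (star S (monomial n 1) h - monomial n 1 * h) := by
  induction m with
  | zero =>
    intro n hn N h _
    have : n = 0 := (Finsupp.degree_eq_zero_iff n).1 hn
    subst this
    have : (monomial (0 : σ →₀ ℕ) (1 : R)) = C 1 := rfl
    rw [this, star_C]
    simpa using WLT.zero _
  | succ m ih =>
    intro n hn N h hh
    obtain ⟨a, ha⟩ : ∃ a, n a ≠ 0 := by
      by_contra hc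
      push Not at hc
      have : n = 0 := Finsupp.ext hc
      subst this; simp at hn
    have h1 : Finsupp.single a 1 ≤ n := by
      rw [Finsupp.single_le_iff]; exact Nat.one_le_iff_ne_zero.2 ha
    obtain ⟨n', rfl⟩ := exists_add_of_le h1
    have hn' : n'.degree = m := by
      rw [map_add, Finsupp.degree_single] at hn; omega
    have hX : (monomial (Finsupp.single a 1 + n') 1 : MvPolynomial σ R) = X a * monomial n' 1 := by
      rw [X, monomial_mul, one_mul]
    have hwt : Finsupp.weight w (Finsupp.single a 1 + n') = w a + Finsupp.weight w n' := by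
      rw [map_add, Finsupp.weight_single, one_smul]
    rw [hX, hwt]
    by_cases hl : S.left a = true
    · rw [star_left hl, mul_assoc, ← mul_sub]
      exact ((ih n' hn' N h hh).X_mul a).mono (by omega)
    · have hl' := Bool.eq_false_iff.2 hl
      have ha1 := hw a hl'
      rw [star_right hl', star_add']
      have e1 := ih n' hn' (N + w a) (X a * h) ((hh.X_mul a).mono (by omega))
      have e2 := ih n' hn' N (der S R a h) (hh.der a)
      have e3 := WLT.monomial_mul n' (hh.der (S := S) a)
      have : star S (monomial n' 1) (X a * h) + star S (monomial n' 1) (der S R a h)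
          - X a * monomial n' 1 * h = (star S (monomial n' 1) (X a * h) - monomial n' 1 * (X a * h))
          + ((star S (monomial n' 1) (der S R a h) - monomial n' 1 * der S R a h)
            + monomial n' 1 * der S R a h) := by ring
      rw [this]
      exact (e1.mono (by omega)).add ((e2.mono (by omega)).add (e3.mono (by omega)))

theorem star_wt [Fintype σ] (hw : ∀ a, S.left a = false → 1 ≤ w a) {M N : ℕ}
    {f h : MvPolynomial σ R} (hf : WLT w (M + 1) f) (hh : WLT w (N + 1) h) :
    WLT w (M + N) (star S f h - f * h) := by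
  have : star S f h - f * h = ∑ n ∈ f.support, coeff n f •
      (star S (monomial n 1) h - monomial n 1 * h) := by
    conv_lhs => rw [f.as_sum]
    simp only [smul_sub, Finset.sum_sub_distrib, Finset.sum_mul]
    congr 1
    · simp only [star, map_sum, LinearMap.sum_apply]
      refine Finset.sum_congr rfl fun n _ => ?_
      rw [← LinearMap.smul_apply, ← map_smul, smul_monomial, smul_eq_mul, mul_one]
    · refine Finset.sum_congr rfl fun n _ => ?_
      rw [← smul_mul_assoc, smul_monomial, smul_eq_mul, mul_one]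
  rw [this]
  refine WLT.sum _ fun n hn => WLT.smul _ ?_
  refine (star_monomial_wt hw _ n rfl N h hh).mono ?_
  by_contra hc
  exact mem_support_iff.1 hn (hf n (by omega))

theorem WLT.of_top {k : ℕ} {f h : MvPolynomial σ R} (hh : IsWeightedHomogeneous w h k)
    (hf : WLT w k (f - h)) : WLT w (k + 1) f := by
  have := (hf.mono (Nat.le_succ k)).add (WLT.of_hom hh)
  rwa [sub_add_cancel] at this

/-- pairs (operator of order at most `k`, its symbol of order `k`) -/
def symG (S : Shape σ) (w : σ → ℕ) {A : Type} [Ring A] [Algebra R A] (g : σ → A) (k : ℕ) :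
    Submodule R (A × MvPolynomial σ R) where
  carrier := {p | IsWeightedHomogeneous w p.2 k ∧ ∃ f, phi S R g f = p.1 ∧ WLT w k (f - p.2)}
  add_mem' := by
    rintro p q ⟨hp, f, hf, hf'⟩ ⟨hq, h, hh, hh'⟩
    refine ⟨hp.add hq, f + h, by rw [map_add, hf, hh]; rfl, ?_⟩
    have : f + h - (p + q).2 = (f - p.2) + (h - q.2) := by rw [Prod.snd_add]; ring
    rw [this]
    exact hf'.add hh'
  zero_mem' := ⟨isWeightedHomogeneous_zero R w k, 0, map_zero _, by
    simpa using WLT.zero k⟩
  smul_mem' := by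
    rintro c p ⟨hp, f, hf, hf'⟩
    refine ⟨(weightedHomogeneousSubmodule R w k).smul_mem c hp, c • f,
      by rw [map_smul, hf]; rfl, ?_⟩
    have : c • f - (c • p).2 = c • (f - p.2) := by rw [Prod.smul_snd, smul_sub]
    rw [this]
    exact hf'.smul c

end Weight

theorem exists_sym {ι κ A : Type} [DecidableEq ι] [Fintype ι] [Fintype κ] [Ring A] [Algebra ℂ A]
    {g : Var ι κ → A} (hg : (sh1 ι κ).IsSys g) (hi : Function.Injective (phi (sh1 ι κ) ℂ g)) :
    ∃ G : ℕ → Submodule ℂ (A × MvPolynomial (Var ι κ) ℂ), Grad G ∧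
      (∀ a, (g a, (X a : MvPolynomial (Var ι κ) ℂ)) ∈ G (wt a)) ∧
      (∀ j k x h, j < k → (x, h) ∈ G j → (x, (0 : MvPolynomial (Var ι κ) ℂ)) ∈ G k) ∧
      ∀ k h, ((0 : A), h) ∈ G k → h = 0 := by
  have hw : ∀ a : Var ι κ, (sh1 ι κ).left a = false → 1 ≤ wt a := by
    rintro ((i | i) | i) h
    · exact le_rfl
    · simp [sh1] at h
    · exact le_rfl
  refine ⟨symG (sh1 ι κ) wt g, ⟨?_, ?_⟩, ?_, ?_, ?_⟩
  · exact ⟨isWeightedHomogeneous_one ℂ wt, 1, phi_one hg, by simpa using WLT.zero 0⟩
  · rintro k l p q ⟨hp, f, hf, hf'⟩ ⟨hq, h, hh, hh'⟩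
    refine ⟨hp.mul hq, star (sh1 ι κ) f h, by rw [phi_star hg, hf, hh]; rfl, ?_⟩
    have : star (sh1 ι κ) f h - (p * q).2
        = (star (sh1 ι κ) f h - f * h) + ((f - p.2) * h + (h - q.2) * p.2) := by
      rw [Prod.snd_mul]; ring
    rw [this]
    exact (star_wt hw (WLT.of_top hp hf') (WLT.of_top hq hh')).add
      ((hf'.mul (WLT.of_top hq hh')).add ((hh'.mul (WLT.of_hom hp)).mono (by omega)))
  · intro a
    exact ⟨isWeightedHomogeneous_X ℂ wt a, X a, phi_X hg a, by simpa using WLT.zero _⟩
  · rintro j k x h hjk ⟨hp, f, hf, hf'⟩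
    refine ⟨isWeightedHomogeneous_zero ℂ wt k, f, hf, ?_⟩
    simpa using (WLT.of_top hp hf').mono hjk
  · rintro k h ⟨hp, f, hf, hf'⟩
    have h0 : f = 0 := hi (by rw [hf, map_zero])
    subst h0
    ext n
    by_contra hc
    have h1 := hp hc
    have h2 := hf' n h1.ge
    apply hc
    simpa using h2

end Pool.Agent.Lib.MP_75bae7_al.Cn
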