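import Pool.Agent.Lib.MP_75bae7_al.Cn.Env
import Pool.Agent.Lib.MP_75bae7_al.Cn.Sym
import Pool.Agent.Lib.MP_75bae7_al.Cn.Rows

/-!
A realisation over the zero Lie algebra is faithful on the enveloping algebra.
-/

set_option autoImplicit false
set_option linter.unusedSectionVars false

namespace Pool.Agent.Lib.MP_75bae7_al.Cn

open MvPolynomial

attribute [local instance 100] LieRing.ofAssociativeRing

variable {I0 I : Type} [Fintype I0] [DecidableEq I0] [Fintype I] [DecidableEq I] [IsEmpty I0]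
  {J0 : Matrix I0 I0 ℂ} {J : Matrix I I ℂ}

theorem exists_shift {σ : Type} [DecidableEq σ] (k : σ) :
    ∃ τ : FractionRing (MvPolynomial σ ℂ) →ₐ[ℂ] FractionRing (MvPolynomial σ ℂ),
      τ (algebraMap _ _ (X k : MvPolynomial σ ℂ)) = algebraMap _ _ (X k : MvPolynomial σ ℂ) + 1 ∧
      ∀ a, a ≠ k → τ (algebraMap _ _ (X a : MvPolynomial σ ℂ))
        = algebraMap _ _ (X a : MvPolynomial σ ℂ) := by
  let s : ℂ → MvPolynomial σ ℂ →ₐ[ℂ] MvPolynomial σ ℂ := fun c =>
    aeval fun a => if a = k then X a + C c else X a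
  have hs : (s (-1)).comp (s 1) = AlgHom.id ℂ _ := by
    apply MvPolynomial.algHom_ext
    intro a
    by_cases h : a = k <;> simp [s, h]
  have hi : Function.Injective (s 1) := fun x y h => by
    have := congrArg (s (-1)) h
    rwa [← AlgHom.comp_apply, ← AlgHom.comp_apply, hs] at this
  have hi' : Function.Injective ((IsScalarTower.toAlgHom ℂ (MvPolynomial σ ℂ)
      (FractionRing (MvPolynomial σ ℂ))).comp (s 1)) :=
    (IsFractionRing.injective (MvPolynomial σ ℂ) _).comp hi
  refine ⟨IsFractionRing.liftAlgHom hi', ?_, fun a ha => ?_⟩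
  · simp [IsFractionRing.liftAlgHom_apply, s]
  · simp [IsFractionRing.liftAlgHom_apply, s, ha]

theorem Rel.indep (R : Rel J0 J) {N : ℕ}
    (b : Module.Basis (Fin N) ℂ (skewAdjointMatricesLieSubalgebra J)) :
    AlgebraicIndependent ℂ fun i =>
      R.E 0 (X : Var R.ι R.κ → MvPolynomial (Var R.ι R.κ) ℂ) (b i : Matrix I I ℂ) := by
  classical
  let P := MvPolynomial (Var R.ι R.κ) ℂ
  let Q := FractionRing P
  let φ : P →ₐ[ℂ] Q := IsScalarTower.toAlgHom ℂ P Q
  let g : Var R.ι R.κ → Q := fun a => φ (X a)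
  let w : Fin N → Q := fun i => R.E 0 g (b i : Matrix I I ℂ)
  have hw : ∀ i, φ (R.E 0 X (b i : Matrix I I ℂ)) = w i := fun i => by
    rw [R.map, LinearMap.comp_zero]
  let K := IntermediateField.adjoin ℂ (Set.range w)
  let T : Subfield Q := (algebraicClosure K Q).toSubfield
  have hT : ∀ x, x ∈ T ↔ IsAlgebraic K x := fun x => mem_algebraicClosure_iff
  have hK : ∀ x ∈ K, x ∈ T := fun x hx => (hT x).2 (isAlgebraic_algebraMap (⟨x, hx⟩ : K))
  have hs : ∀ c, algebraMap ℂ Q c ∈ T := fun c => hK _ (K.algebraMap_mem c)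
  obtain ⟨-, hg⟩ := R.gen 0 0 g ⟨fun a b => by simp [mul_comm], fun X _ a => Commute.zero_left _⟩
    (fun k => by
      obtain ⟨τ, h1, h2⟩ := exists_shift (σ := Var R.ι R.κ) (.inr k)
      exact ⟨τ, fun X _ => map_zero τ, h1, h2⟩) T hs
    (fun Y hY => by
      have e : Y = ∑ i, b.repr ⟨Y, mem_skL.2 hY⟩ i • (b i : Matrix I I ℂ) := by
        have := congrArg (skewAdjointMatricesLieSubalgebra J).toSubmodule.subtype
          (b.sum_repr ⟨Y, mem_skL.2 hY⟩)
        rw [map_sum] at this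
        exact this.symm
      rw [e, map_sum]
      refine hK _ (sum_mem fun i _ => ?_)
      rw [map_smul]
      exact K.smul_mem (IntermediateField.subset_adjoin _ _ ⟨i, rfl⟩))
    fun k h => by
      have h1 : IsAlgebraic (algebraicClosure K Q) (g (.inr k)) := h.isAlgebraic
      exact (hT _).2 (h1.restrictScalars K)
  have hP : ∀ p : P, φ p ∈ T := fun p => by
    induction p using MvPolynomial.induction_on with
    | C c => exact (φ.commutes c).symm ▸ hs c
    | add p q hp hq => rw [map_add]; exact T.add_mem hp hq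
    | mul_X p a hp => rw [map_mul]; exact T.mul_mem hp (hg a)
  have hi : AlgebraicIndependent ℂ w := by
    refine indep_of_alg' (z := g) indep_X_frac w ?_ fun c => ?_
    · have h1 := R.count
      have h2 : Module.finrank ℂ (skewAdjointMatricesSubmodule J0) = 0 :=
        Module.finrank_zero_of_subsingleton
      have h3 : Module.finrank ℂ (skewAdjointMatricesSubmodule J) = N :=
        (Module.finrank_eq_card_basis b).trans (Fintype.card_fin N)
      rw [Fintype.card_fin]
      omega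
    · obtain ⟨p, q, -, rfl⟩ := IsFractionRing.div_surjective P c
      exact (hT _).1 (T.div_mem (hP p) (hP q))
  refine AlgebraicIndependent.of_comp φ ?_
  exact (funext hw : (φ ∘ fun i => R.E 0 X (b i : Matrix I I ℂ)) = w) ▸ hi

theorem Rel.exists_env (R : Rel J0 J) {A : Type} [Ring A] [Algebra ℂ A] {g : Var R.ι R.κ → A}
    (hg : (sh1 R.ι R.κ).IsSys g) (hi : Function.Injective (phi (sh1 R.ι R.κ) ℂ g)) :
    ∃ ρ : UniversalEnvelopingAlgebra ℂ (skewAdjointMatricesLieSubalgebra J) →ₐ[ℂ] A,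
      Function.Injective ρ ∧
        ∀ X, ρ (UniversalEnvelopingAlgebra.ι ℂ X) = R.E 0 g (X : Matrix I I ℂ) := by
  have hl : IsLie J (R.E 0 g) := R.lie 0 g
    ⟨fun a b => by rw [one_mul]; exact hg a b, fun X _ a => Commute.zero_left _⟩
    fun X Y _ _ => by simp
  let φ : skewAdjointMatricesLieSubalgebra J →ₗ⁅ℂ⁆ A :=
    { toLinearMap := (R.E 0 g).comp (skewAdjointMatricesLieSubalgebra J).toSubmodule.subtype
      map_lie' := fun {X Y} => (hl X Y (mem_skL.1 X.2) (mem_skL.1 Y.2)).symm }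
  obtain ⟨G, hG, h1, h2, h3⟩ := exists_sym hg hi
  let b := Module.finBasis ℂ (skewAdjointMatricesLieSubalgebra J)
  refine ⟨UniversalEnvelopingAlgebra.lift ℂ φ, env_inj b φ _ (R.indep b) G hG (fun i => ?_) h2 h3,
    fun X => UniversalEnvelopingAlgebra.lift_ι_apply ℂ φ X⟩
  have h4 := R.mem G hG 0 (fun a => (g a, X a)) (fun X _ => (G 1).zero_mem) h1 _ (mem_skL.1 (b i).2)
  have e1 := R.map (AlgHom.fst ℂ A (MvPolynomial (Var R.ι R.κ) ℂ)) 0 (fun a => (g a, X a))
    (b i : Matrix I I ℂ)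
  have e2 := R.map (AlgHom.snd ℂ A (MvPolynomial (Var R.ι R.κ) ℂ)) 0 (fun a => (g a, X a))
    (b i : Matrix I I ℂ)
  rw [LinearMap.comp_zero] at e1 e2
  have e3 : R.E 0 (fun a => (g a, (X a : MvPolynomial (Var R.ι R.κ) ℂ))) (b i : Matrix I I ℂ)
      = (φ (b i), R.E 0 X (b i : Matrix I I ℂ)) := Prod.ext e1 e2
  exact e3 ▸ h4

end Pool.Agent.Lib.MP_75bae7_al.Cn
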