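import Pool.Agent.Lib.MP_75bae7_al.Cn.Defs

/-!
Facts on a faithful copy of the enveloping algebra of `sp(4)` inside a skew field.
-/

set_option autoImplicit false
set_option linter.unusedSectionVars false

namespace Pool.Agent.Lib.MP_75bae7_al.Cn

open MvPolynomial

attribute [local instance 100] LieRing.ofAssociativeRing

variable {D : Type} [DivisionRing D] [Algebra ℂ D] [CharZero D]

theorem sp4_ne (f : UU →ₐ[ℂ] D) (hf : Function.Injective f) :
    f (uu 0) ≠ 0 ∧ f (uu 1) ≠ 0 ∧ xW.ev (fun i => f (uu i)) ≠ 0 := by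
  let v : ℕ → D := fun i => f (uu i)
  have hev : ∀ e : Ex, f (e.ev uu) = e.ev v := map_ev f uu
  have nz : ∀ (e : Ex) (ρ : UU →ₐ[ℂ] EE), ρ (e.ev uu) ≠ 0 → e.ev v ≠ 0 := by
    intro e ρ h h0
    rw [← hev, map_eq_zero_iff _ hf] at h0
    exact h (by rw [h0, map_zero])
  have ml : ∀ q : MvPolynomial (Fin 4) ℂ, q ≠ 0 → (LinearMap.mulLeft ℂ q : EE) ≠ 0 := by
    intro q hq h
    simpa [hq] using LinearMap.congr_fun h 1
  have hδ : (X 1 * X 1 - X 0 * X 2 : MvPolynomial (Fin 4) ℂ) ≠ 0 := by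
    intro h
    simpa using congrArg (eval ![0, 1, 0, 0]) h
  have rW : ∀ l1 l2, (xW.ev fun i => (rho i).ev (wop l1 l2))
      = LinearMap.mulLeft ℂ (X 1 * X 1 - X 0 * X 2 : MvPolynomial (Fin 4) ℂ) := by
    intro l1 l2
    refine LinearMap.ext fun q => ?_
    simp [xW, rho, wop, sub_mul, mul_assoc]
  obtain ⟨ρ0, hρ0⟩ := exists_rho 0 0
  have h0 : v 0 ≠ 0 := nz (.g 0) ρ0 (by rw [ev_g, hρ0]; exact ml _ (X_ne_zero _))
  have h1 : v 1 ≠ 0 := nz (.g 1) ρ0 (by rw [ev_g, hρ0]; exact ml _ (X_ne_zero _))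
  have hW : xW.ev v ≠ 0 := nz xW ρ0 (by rw [map_ev, funext hρ0, rW]; exact ml _ hδ)
  exact ⟨h0, h1, hW⟩

theorem sp4_facts (f : UU →ₐ[ℂ] D) (hf : Function.Injective f)
    (hc : ∀ y, Commute y (xc.ev fun i => f (uu i)))
    (hγ : ∀ y, Commute y (gam2 (ee fun i => f (uu i)))) :
    psi (ee fun i => f (uu i)) ≠ 0 ∧ ∀ g1 g2 : Ctr D,
      algebraMap _ D g1 = ee (fun i => f (uu i)) 9 →
      algebraMap _ D g2 = gam2 (ee fun i => f (uu i)) → AlgebraicIndependent ℂ ![g1, g2] := by
  let v : ℕ → D := fun i => f (uu i)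
  have T : Tab spC spB v := tab_lieHom ((f : UU →ₗ⁅ℂ⁆ D).comp (UniversalEnvelopingAlgebra.ι ℂ))
  obtain ⟨h0, h1, hW⟩ : v 0 ≠ 0 ∧ v 1 ≠ 0 ∧ xW.ev v ≠ 0 := sp4_ne f hf
  change ∀ y, Commute y (xc.ev v) at hc
  change ∀ y, Commute y (gam2 (ee v)) at hγ
  have hev : ∀ e : Ex, f (e.ev uu) = e.ev v := map_ev f uu
  have hδ : (X 1 * X 1 - X 0 * X 2 : MvPolynomial (Fin 4) ℂ) ≠ 0 := by
    intro h
    simpa using congrArg (eval ![0, 1, 0, 0]) h
  have rW : ∀ l1 l2, (xW.ev fun i => (rho i).ev (wop l1 l2))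
      = LinearMap.mulLeft ℂ (X 1 * X 1 - X 0 * X 2 : MvPolynomial (Fin 4) ℂ) := by
    intro l1 l2
    refine LinearMap.ext fun q => ?_
    simp [xW, rho, wop, sub_mul, mul_assoc]
  have main : ∀ a b : ℂ, ∃ (l1 l2 : ℂ) (R : Subalgebra ℂ (D × EE)), (∀ y, (0, y) ∈ R → y = 0) ∧
      (ee v 9, algebraMap ℂ EE a) ∈ R ∧ (gam2 (ee v), algebraMap ℂ EE b) ∈ R ∧
      (xJ.ev v, xJ.ev fun i => (rho i).ev (wop l1 l2)) ∈ R ∧
      (xW.ev v, xW.ev fun i => (rho i).ev (wop l1 l2)) ∈ R := by
    intro a b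
    obtain ⟨μ1, μ2, ha, hb⟩ := exists_mu a b
    obtain ⟨ρ, hρ⟩ := exists_rho (μ1 + μ2 + 1) (μ1 - μ2 + 1)
    let t : UU := (8 * uu 0 * xW.ev uu) * (8 * uu 0 * xW.ev uu)
    have hρe : ∀ e : Ex, ρ (e.ev uu) = e.ev fun i => (rho i).ev (wop (μ1 + μ2 + 1) (μ1 - μ2 + 1)) :=
      fun e => by rw [map_ev, funext hρ]
    have ht : ρ t = LinearMap.mulLeft ℂ ((8 * X 0 * (X 1 * X 1 - X 0 * X 2)) ^ 2 :
        MvPolynomial (Fin 4) ℂ) := by
      refine LinearMap.ext fun q => ?_
      simp only [t, map_mul, map_ofNat, hρe, rW, hρ]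
      simp only [rho, ev_g, wop, Module.End.mul_apply,
        LinearMap.mulLeft_apply, Module.End.ofNat_apply, nsmul_eq_mul]
      push_cast; ring
    have mem : ∀ e : Ex, Commute t (e.ev uu) → (e.ev v,
        e.ev fun i => (rho i).ev (wop (μ1 + μ2 + 1) (μ1 - μ2 + 1))) ∈ RR f ρ t := by
      intro e he
      rw [← hev, ← hρe]
      exact ⟨he.symm.map f, he.symm.map ρ, 0, e.ev uu, by simp, by simp⟩
    refine ⟨_, _, RR f ρ t, ?_, ?_, ?_, mem _ ((inv_J tab_uu).ca.mul_left (inv_J tab_uu).ca),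
      mem _ ((inv_W tab_uu).ca.mul_left (inv_W tab_uu).ca)⟩
    · rintro y ⟨-, a2, n, u, a3, a4⟩
      rw [zero_mul, map_eq_zero_iff _ hf] at a3
      rw [a3, map_zero, (a2.pow_right n).eq, ht, LinearMap.pow_mulLeft] at a4
      refine LinearMap.ext fun q => ?_
      have := LinearMap.congr_fun a4 q
      simp only [LinearMap.zero_apply, Module.End.mul_apply, LinearMap.mulLeft_apply] at this
      exact (mul_eq_zero.1 this.symm).resolve_left (pow_ne_zero _ (pow_ne_zero _
        (mul_ne_zero (mul_ne_zero (by norm_num) (X_ne_zero _)) hδ)))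
    · have c1 : Commute (8 * uu 0 * xW.ev uu) (xc.ev uu) := by
        have c := fun i hi => (c_comm tab_uu i hi).symm
        exact ((Commute.ofNat_left 8 _).mul_left (c 0 (by omega))).mul_left
          (((c 1 (by omega)).mul_left (c 1 (by omega))).sub_left
            ((c 0 (by omega)).mul_left (c 2 (by omega))))
      have c2 := (RR f ρ t).mul_mem ((RR f ρ t).algebraMap_mem 2⁻¹)
        ((RR f ρ t).add_mem (mem _ (c1.mul_left c1)) ((RR f ρ t).algebraMap_mem 4))
      convert c2 using 1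
      ext1
      · simp [ee, map_ofNat]
      · rw [Prod.snd_mul, Prod.snd_add, rho_c (tab_wop _ _), ← map_ofNat (algebraMap ℂ EE) 4,
          ← map_ofNat (algebraMap ℂ EE) 2]
        simp only [wop, Prod.algebraMap_apply, ← map_mul, ← map_add, ← map_sub]
        congr 1
        rw [ha]; ring
    · refine ⟨(hγ _).symm, Algebra.commutes _ _, 1, xQ.ev uu, ?_, ?_⟩
      · rw [hev, pow_one, ← (hγ _).eq, ← gam2_ee T hc h0 hW]
        simp only [t, map_mul, map_ofNat, hev, v]
      · have c3 : t = algebraMap ℂ UU 64 * (Ex.g 0 * xW * (Ex.g 0 * xW)).ev uu := by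
          simp only [t, ev_mul, ev_g, map_ofNat]; noncomm_ring
        rw [hρe, rho_Q (tab_wop _ _), pow_one, c3, map_mul, AlgHom.commutes, hρe, ← mul_assoc,
          ← map_ofNat (algebraMap ℂ EE) 4, ← map_ofNat (algebraMap ℂ EE) 3,
          ← map_one (algebraMap ℂ EE)]
        simp only [wop, ← map_mul, ← map_add, ← map_sub]
        congr 2
        rw [hb]; ring
  change psi (ee v) ≠ 0 ∧ ∀ g1 g2 : Ctr D, algebraMap _ D g1 = ee v 9 →
    algebraMap _ D g2 = gam2 (ee v) → AlgebraicIndependent ℂ ![g1, g2]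
  refine ⟨fun hψ => ?_, fun g1 g2 hg1 hg2 => ?_⟩
  · obtain ⟨l1, l2, R, r0, r1, r2, r3, r4⟩ := main 0 0
    have a1 := Fpsi_pair R r3 r4 r1 r2
    rw [psi_ee T hc hW hγ hψ] at a1
    refine Fpsi_ne (pt := ![0, 0, 1, 1]) (fun q => ?_) (fun q => ?_) (r0 _ a1)
    · simp [xJ, rho, wop]
    · simp [rW]
  · rw [algebraicIndependent_iff]
    intro P hP
    apply MvPolynomial.funext
    intro x
    obtain ⟨l1, l2, R, r0, r1, r2, -, -⟩ := main (x 0) (x 1)
    have key : ∀ Q : MvPolynomial (Fin 2) ℂ,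
        (algebraMap (Ctr D) D (aeval ![g1, g2] Q), algebraMap ℂ EE (eval x Q)) ∈ R := by
      intro Q
      induction Q using poly_ind with
      | hC c => rw [aeval_C, eval_C]; exact R.algebraMap_mem c
      | hadd a b ha hb => simp only [map_add]; exact R.add_mem ha hb
      | hX a i ha =>
        simp only [map_mul, aeval_X, eval_X]
        refine R.mul_mem (x := (_, _)) (y := (_, _)) ?_ ha
        fin_cases i
        · exact hg1 ▸ r1
        · exact hg2 ▸ r2
    have := key P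
    rw [hP, map_zero] at this
    simpa using r0 _ this

theorem ee_mem {v : ℕ → D} (U : Subring D) (hi : ∀ x ∈ U, x⁻¹ ∈ U) (hv : ∀ i < 10, v i ∈ U)
    (i : Fin 10) : ee v i ∈ U := by
  have b : ∀ e : Ex, e.uses (fun i => Nat.blt i 10) = true → e.ev v ∈ U := fun e he =>
    ev_mem U (fun i h => hv i (Nat.blt_eq.mp h)) e he
  have m0 := hv 0 (by omega)
  have m1 := hv 1 (by omega)
  have m3 := hv 3 (by omega)
  have m4 := hv 4 (by omega)
  have m5 := hv 5 (by omega)
  have e0 : (v 0)⁻¹ * v 1 * v 3 ∈ U := U.mul_mem (U.mul_mem (hi _ m0) m1) m3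
  have e5 : 4 * xW.ev v ∈ U := U.mul_mem (ofNat_mem U 4) (b xW rfl)
  have e8 : 8 * v 0 * xW.ev v ∈ U := U.mul_mem (U.mul_mem (ofNat_mem U 8) m0) (b xW rfl)
  fin_cases i
  exacts [e0, U.mul_mem (hi _ m0) m1,
    U.add_mem (U.mul_mem (hi _ (ofNat_mem U 2)) (U.sub_mem m4 m5)) e0, m0, U.sub_mem m5 e0, e5,
    U.mul_mem (hi _ e5) (b xJ rfl), U.mul_mem (hi _ e8) (b xY rfl),
    U.mul_mem (hi _ e8) (b xD rfl),
    U.mul_mem (hi _ (ofNat_mem U 2)) (U.add_mem (b xc rfl) (ofNat_mem U 4))]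

theorem mem_of_ee {v : ℕ → D} (T : Tab spC spB v) (h0 : v 0 ≠ 0) (hW : xW.ev v ≠ 0)
    (h1 : v 1 ≠ 0) (U : Subring D) (hi : ∀ x ∈ U, x⁻¹ ∈ U) (he : ∀ i, ee v i ∈ U) :
    ∀ i < 10, v i ∈ U := by
  have can : ∀ {u x : D}, u ∈ U → u ≠ 0 → u * x ∈ U → x ∈ U := fun hu h0 hx => by
    have := U.mul_mem (hi _ hu) hx
    rwa [inv_mul_cancel_left₀ h0] at this
  have can' : ∀ {u x : D}, u ∈ U → u ≠ 0 → u⁻¹ * x ∈ U → x ∈ U := fun hu h0 hx =>
    can (hi _ hu) (inv_ne_zero h0) hx
  have addc : ∀ {x y : D}, x + y ∈ U → y ∈ U → x ∈ U := fun h1 h2 => by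
    simpa using U.sub_mem h1 h2
  have subc : ∀ {x y : D}, x - y ∈ U → y ∈ U → x ∈ U := fun h1 h2 => by
    simpa using U.add_mem h1 h2
  have subc' : ∀ {x y : D}, x - y ∈ U → x ∈ U → y ∈ U := fun h1 h2 => by
    simpa using U.sub_mem h2 h1
  have n2 : (2 : D) ≠ 0 := by norm_num
  have m0 : v 0 ∈ U := he 3
  have m1 : v 1 ∈ U := can' m0 h0 (he 1)
  have m3 : v 3 ∈ U := can (he 1) (mul_ne_zero (inv_ne_zero h0) h1) (he 0)
  have mW : xW.ev v ∈ U := can (ofNat_mem U 4) (by norm_num) (he 5)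
  have m2 : v 2 ∈ U := can m0 h0 (subc' mW (U.mul_mem m1 m1))
  have m5 : v 5 ∈ U := subc (he 4) (he 0)
  have m4 : v 4 ∈ U := subc (can' (ofNat_mem U 2) n2 (addc (he 2) (he 0))) m5
  have mJ : xJ.ev v ∈ U := can' (he 5) (mul_ne_zero (by norm_num) hW) (he 6)
  have m6 : v 6 ∈ U := can m0 h0 (subc' mJ (U.add_mem (U.mul_mem m1 (U.sub_mem m4 m5))
    (U.mul_mem m2 m3)))
  have mc : xc.ev v ∈ U := addc (can' (ofNat_mem U 2) n2 (he 9)) (ofNat_mem U 4)
  have ma : 8 * v 0 * xW.ev v ∈ U := U.mul_mem (U.mul_mem (ofNat_mem U 8) m0) mW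
  have na : 8 * v 0 * xW.ev v ≠ 0 := mul_ne_zero (mul_ne_zero (by norm_num) h0) hW
  have mY : xY.ev v ∈ U := can' ma na (he 7)
  have mD : xD.ev v ∈ U := can' ma na (he 8)
  rw [id_D T, add_comm] at mD
  have mC : xC.ev v ∈ U := can (he 5) (mul_ne_zero (by norm_num) hW) (addc mD (U.mul_mem
    (U.mul_mem (ofNat_mem U 2) m0) (U.sub_mem (U.mul_mem (U.add_mem mc (ofNat_mem U 4)) mW)
      (U.mul_mem mJ mJ))))
  rw [id_Y T] at mY
  have mB : xB.ev v ∈ U := can m0 h0 (addc (can (ofNat_mem U 2) n2 mY) (U.mul_mem m1 mC))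
  have l7 : ∀ i, Nat.blt i 7 = true → v i ∈ U := by
    intro i hi
    rw [Nat.blt_eq] at hi
    interval_cases i <;> assumption
  have m9 : v 9 ∈ U := can mW hW (addc mC (ev_mem U l7 xC' rfl))
  have m8 : v 8 ∈ U := can mW hW (addc mB (ev_mem U l7 xB' rfl))
  have l9 : ∀ i, (Nat.blt i 7 || Nat.beq i 8 || Nat.beq i 9) = true → v i ∈ U := by
    intro i hi
    simp only [Bool.or_eq_true, Nat.beq_eq] at hi
    rcases hi with (hi | rfl) | rfl
    exacts [l7 i hi, m8, m9]
  have m7 : v 7 ∈ U := can m0 h0 (addc mc (ev_mem U l9 xc' rfl))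
  intro i hi
  interval_cases i <;> assumption

omit [CharZero D] in
/-- central letters moved by shifts are independent over the fixed elements -/
theorem indep_shift {κ : Type} [Fintype κ] (l : κ → Ctr D) (c : Fin 2 → Ctr D)
    (hc : AlgebraicIndependent ℂ c)
    (hτ : ∀ k, ∃ τ : D →+* D, (∀ x : ℂ, τ (algebraMap ℂ D x) = algebraMap ℂ D x) ∧
      (∀ i, τ (algebraMap _ D (c i)) = algebraMap _ D (c i)) ∧
      τ (algebraMap _ D (l k)) = algebraMap _ D (l k) + 1 ∧
      ∀ k', k' ≠ k → τ (algebraMap _ D (l k')) = algebraMap _ D (l k')) :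
    AlgebraicIndependent (IntermediateField.adjoin ℂ (Set.range l)) c := by
  classical
  have hz : CharZero (Ctr D) := (RingHom.charZero_iff (algebraMap ℂ (Ctr D)).injective).1 inferInstance
  have inj : Function.Injective (algebraMap (Ctr D) D) := (algebraMap (Ctr D) D).injective
  have h1 : AlgebraicIndependent (Algebra.adjoin ℂ (Set.range c)) l := by
    rw [algebraicIndependent_iff]
    intro P hP
    have step : ∀ (k : κ) (m : κ → ℕ), aeval (fun j => l j + (m j : Ctr D)) P = 0 →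
        aeval (fun j => l j + ((m + Pi.single k 1 : κ → ℕ) j : Ctr D)) P = 0 := by
      intro k m hm
      obtain ⟨τ, t1, t2, t3, t4⟩ := hτ k
      have fx : ∀ b ∈ Algebra.adjoin ℂ (Set.range c),
          τ (algebraMap (Ctr D) D b) = algebraMap (Ctr D) D b := by
        intro b hb
        induction hb using Algebra.adjoin_induction with
        | mem x hx => obtain ⟨i, rfl⟩ := hx; exact t2 i
        | algebraMap r => exact t1 r
        | add x y _ _ hx hy => simp only [map_add, hx, hy]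
        | mul x y _ _ hx hy => simp only [map_mul, hx, hy]
      have key : ∀ Q : MvPolynomial κ (Algebra.adjoin ℂ (Set.range c)),
          τ (algebraMap (Ctr D) D (aeval (fun j => l j + (m j : Ctr D)) Q))
            = algebraMap (Ctr D) D
              (aeval (fun j => l j + ((m + Pi.single k 1 : κ → ℕ) j : Ctr D)) Q) := by
        intro Q
        induction Q using poly_ind with
        | hC a => rw [aeval_C, aeval_C]; exact fx _ a.2
        | hadd a b ha hb => simp only [map_add, ha, hb]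
        | hX a i ha =>
          rw [map_mul, map_mul, map_mul, map_mul, map_mul, ha, aeval_X, aeval_X]
          congr 1
          by_cases h : i = k
          · subst h
            simp only [map_add, map_natCast, t3, Pi.add_apply, Pi.single_eq_same, Nat.cast_add,
              Nat.cast_one, map_one]
            abel
          · simp only [map_add, map_natCast, t4 i h, Pi.add_apply, Pi.single_eq_of_ne h, add_zero]
      apply inj
      rw [← key, hm, map_zero, map_zero]
    have all : ∀ d m : κ → ℕ, aeval (fun j => l j + (m j : Ctr D)) P = 0 →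
        aeval (fun j => l j + ((m + d : κ → ℕ) j : Ctr D)) P = 0 := by
      intro d
      induction d using Pi.single_induction with
      | zero => intro m hm; simpa using hm
      | add f g hf hg => intro m hm; rw [← add_assoc]; exact hg _ (hf _ hm)
      | single k n =>
        induction n with
        | zero => intro m hm; simpa using hm
        | succ n ih =>
          intro m hm
          rw [Pi.single_add, ← add_assoc]
          exact step k _ (ih m hm)
    have hmap : MvPolynomial.map (algebraMap (Algebra.adjoin ℂ (Set.range c)) (Ctr D)) P = 0 := by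
      refine MvPolynomial.funext_set (fun k => Set.range fun n : ℕ => l k + (n : Ctr D))
        (fun k => Set.infinite_range_of_injective fun a b h => Nat.cast_injective (add_left_cancel h))
        fun x hx => ?_
      choose d hd using fun k => hx k (Set.mem_univ k)
      have := all d 0 (by simpa using hP)
      rw [zero_add, show (fun j => l j + (d j : Ctr D)) = x from funext hd] at this
      rw [map_zero, eval_map, ← aeval_def, this]
    exact MvPolynomial.map_injective _ Subtype.val_injective (hmap.trans (map_zero _).symm)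
  have h2 : AlgebraicIndependent ℂ (Sum.elim c l) := by
    have := (hc.sumElim h1).comp Sum.swap Sum.swap_leftInverse.injective
    convert this using 1
    ext (_ | _) <;> rfl
  exact IntermediateField.algebraicIndependent_adjoin_iff.2
    (AlgebraicIndependent.sumElim_iff.1 h2).2

end Pool.Agent.Lib.MP_75bae7_al.Cn
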