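import Pool.Agent.Lib.MP_75bae7_al.Cn.Core
import Pool.Agent.Lib.MP_75bae7_al.Cn.Ctr0
import Pool.Agent.Lib.MP_75bae7_al.Cn.Sp4F

/-!
A skew field generated by `sp(4)`, Weyl pairs and free central letters is not a Weyl field over its centre.
-/

set_option autoImplicit false
set_option linter.unusedSectionVars false

namespace Pool.Agent.Lib.MP_75bae7_al.Cn

open MvPolynomial

attribute [local instance 100] LieRing.ofAssociativeRing

theorem cent_inv {D : Type} [DivisionRing D] (y : D) :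
    ∀ x ∈ Subring.centralizer ({y} : Set D), x⁻¹ ∈ Subring.centralizer ({y} : Set D) := by
  intro u hu
  rw [Subring.mem_centralizer_iff] at hu ⊢
  rintro _ rfl
  exact (Commute.inv_right₀ (hu _ rfl)).eq

theorem mem_cent {D : Type} [DivisionRing D] {x y : D} :
    x ∈ Subring.centralizer ({y} : Set D) ↔ Commute y x := by
  rw [Subring.mem_centralizer_iff]
  exact ⟨fun h => h y rfl, by rintro h _ rfl; exact h⟩

/-- Weyl pairs as shift pairs indexed by naturals -/
theorem exists_pairs {μ κ D : Type} [DecidableEq μ] [Fintype μ] [DivisionRing D]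
    {g : Var μ κ → D} (hg : (sh1 μ κ).IsSys g) :
    ∃ (m : ℕ) (a b : ℕ → D), Pairs m a b ∧ (∀ j < m, b j ≠ 0) ∧
      (∀ y, (∀ c, Commute (g c) y) → ∀ j < m, Commute (a j) y ∧ Commute (b j) y) ∧
      ∀ U : Subring D, (∀ x ∈ U, x⁻¹ ∈ U) → (∀ j < m, a j ∈ U) → (∀ j < m, b j ∈ U) →
        ∀ c, g (.inl c) ∈ U := by
  let e := Fintype.equivFin μ
  let z : (μ → μ ⊕ μ) → ℕ → D := fun s j =>
    if h : j < Fintype.card μ then g (.inl (s (e.symm ⟨j, h⟩))) else 0
  have hz : ∀ s j (h : j < Fintype.card μ), z s j = g (.inl (s (e.symm ⟨j, h⟩))) :=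
    fun s j h => dif_pos h
  have c0 : ∀ c c' : μ ⊕ μ, om0 μ c c' = 0 → Commute (g (.inl c)) (g (.inl c')) := by
    intro c c' h
    have := hg (.inl c) (.inl c')
    rw [show (sh1 μ κ).om (.inl c) (.inl c') = om0 μ c c' from rfl, h, Int.cast_zero,
      sub_eq_zero] at this
    exact this
  have c1 : ∀ i : μ, g (.inl (.inl i)) * g (.inl (.inr i)) - g (.inl (.inr i)) * g (.inl (.inl i))
      = 1 := by
    intro i
    simpa [sh1, om1, om0] using hg (.inl (.inl i)) (.inl (.inr i))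
  have n0 : ∀ i : μ, g (.inl (.inr i)) ≠ 0 := by
    intro i h
    simpa [h] using c1 i
  have ne : ∀ i j (hi : i < Fintype.card μ) (hj : j < Fintype.card μ), i ≠ j →
      e.symm ⟨i, hi⟩ ≠ e.symm ⟨j, hj⟩ := fun i j hi hj h k =>
    h (congrArg Fin.val (e.symm.injective k))
  refine ⟨Fintype.card μ, fun j => z .inr j * z .inl j, z .inr, ⟨?_, ?_, ?_, ?_⟩, ?_, ?_, ?_⟩
  · intro j hj
    rw [hz _ _ hj, hz _ _ hj, mul_assoc, ← mul_sub, c1, mul_one]
  · intro i hi j hj
    by_cases h : i = j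
    · rw [h]
    have h1 := ne i j hi hj h
    rw [hz _ _ hi, hz _ _ hi, hz _ _ hj, hz _ _ hj]
    exact ((c0 _ _ rfl).mul_right (c0 (.inr _) (.inl _) (if_neg h1))).mul_left
      ((c0 (.inl _) (.inr _) (if_neg h1)).mul_right (c0 _ _ rfl))
  · intro i hi j hj
    rw [hz _ _ hi, hz _ _ hj]
    exact c0 _ _ rfl
  · intro i hi j hj h
    rw [hz _ _ hi, hz _ _ hi, hz _ _ hj]
    exact (c0 _ _ rfl).mul_left (c0 (.inl _) (.inr _) (if_neg (ne i j hi hj h)))
  · intro j hj
    rw [hz _ _ hj]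
    exact n0 _
  · intro y hy j hj
    simp only [hz _ _ hj]
    exact ⟨(hy _).mul_left (hy _), hy _⟩
  · intro U hi ha hb c
    have key : ∀ i : μ, g (.inl (.inl i)) ∈ U ∧ g (.inl (.inr i)) ∈ U := by
      intro i
      have h1 := ha _ (e i).2
      have h2 := hb _ (e i).2
      simp only [hz _ _ (e i).2, Fin.eta, Equiv.symm_apply_apply] at h1 h2
      have h3 := U.mul_mem (hi _ h2) h1
      rw [inv_mul_cancel_left₀ (n0 i)] at h3
      exact ⟨h3, h2⟩
    rcases c with i | i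
    exacts [(key i).1, (key i).2]

/-- the extended system over a field `F` cannot generate a field with a Weyl system over its centre -/
theorem no_WF3 {ι F D : Type} [DecidableEq ι] [Fintype ι] [Field F] [CharZero F] [DivisionRing D]
    [Algebra F D] {e : Fin 10 → D} {n : ℕ} {a b : ℕ → D}
    (S : XS e n a b) (hg : Gen F (xg e n a b)) (h1 : e 1 ≠ 0) (h3 : e 3 ≠ 0) (h5 : e 5 ≠ 0)
    (hψ : psi e ≠ 0) (hb : ∀ j < n, b j ≠ 0)
    (hind : ∀ g1 g2 : Ctr D, algebraMap _ D g1 = e 9 → algebraMap _ D g2 = gam2 e →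
      AlgebraicIndependent F ![g1, g2])
    {q : ι ⊕ ι → D} (hq : (sh0 ι).IsSys q) (gen2 : Gen (Ctr D) q) : False := by
  obtain ⟨g1, hg1⟩ := hg.central S.c9
  obtain ⟨g2, hg2⟩ := hg.central S.gam2_comm
  have hs : (sh1 ι (Fin 2)).IsSys (Sum.elim q fun j => algebraMap (Ctr D) D (![g1, g2] j)) := by
    rintro (c | c) (c' | c')
    · exact hq c c'
    · exact (sub_eq_zero.2 (Algebra.commutes _ _).symm).trans Int.cast_zero.symm
    · exact (sub_eq_zero.2 (Algebra.commutes _ _)).trans Int.cast_zero.symm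
    · exact (sub_eq_zero.2 (Algebra.commutes _ _)).trans Int.cast_zero.symm
  obtain ⟨w⟩ := WF_of_gen (k := F) hs ![g1, g2] (fun _ => rfl) (hind g1 g2 hg1 hg2) (by
    intro T hk hi hx
    let E : Subfield (Ctr D) :=
      { T.comap (algebraMap (Ctr D) D) with
        inv_mem' := fun x hx => by
          change algebraMap (Ctr D) D x⁻¹ ∈ T
          rw [map_inv₀]
          exact hi _ hx }
    exact gen2 T (S.center0 hg h1 h3 h5 hψ hb hg1 hg2 E hk (hx (.inr 0)) (hx (.inr 1))) hi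
      fun c => hx (.inl c))
  exact core' w S hg h1 h3 h5 hψ hb hind

theorem no_WF2 {ι μ κ D : Type} [DecidableEq ι] [Fintype ι] [DecidableEq μ] [Fintype μ]
    [Fintype κ] [DivisionRing D] [Algebra ℂ D] (f : UU →ₐ[ℂ] D) (hf : Function.Injective f)
    {g : Var μ κ → D} (hg : (sh1 μ κ).IsSys g) (hc : ∀ u a, Commute (f u) (g a))
    (gen1 : Gen ℂ (Sum.elim (fun i : Fin 10 => f (uu i)) g))
    (hτ : ∀ k, ∃ τ : D →+* D, (∀ u, τ (f u) = f u) ∧ τ (g (.inr k)) = g (.inr k) + 1 ∧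
      ∀ k', k' ≠ k → τ (g (.inr k')) = g (.inr k'))
    {q : ι ⊕ ι → D} (hq : (sh0 ι).IsSys q) (gen2 : Gen (Ctr D) q) : False := by
  have : CharZero D := (RingHom.charZero_iff (algebraMap ℂ D).injective).1 inferInstance
  let v : ℕ → D := fun i => f (uu i)
  have T : Tab spC spB v := tab_lieHom ((f : UU →ₗ⁅ℂ⁆ D).comp (UniversalEnvelopingAlgebra.ι ℂ))
  have cen : ∀ x : D, (∀ i < 10, Commute x (v i)) → (∀ c, Commute x (g c)) →
      ∃ z : Ctr D, algebraMap (Ctr D) D z = x := fun x k1 k2 =>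
    gen1.central (by rintro (i | c); exacts [k1 i i.2, k2 c])
  have hxc : ∀ y, Commute y (xc.ev v) := by
    obtain ⟨z, hz⟩ := cen (xc.ev v) (c_comm T) fun c => by
      have := hc (xc.ev uu) c
      rwa [map_ev f uu] at this
    intro y; rw [← hz]; exact Algebra.commute_algebraMap_right _ _
  obtain ⟨h0, h1, hW⟩ := sp4_ne f hf
  have S := sys_ee T hxc h0 hW
  have ge : ∀ c i, ee v i ∈ Subring.centralizer ({g c} : Set D) := fun c =>
    ee_mem _ (cent_inv _) fun i _ => mem_cent.2 (hc _ c).symm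
  have hγ : ∀ y, Commute y (gam2 (ee v)) := by
    obtain ⟨z, hz⟩ := cen (gam2 (ee v))
      (fun i hi => mem_cent.1 (mem_of_ee T h0 hW h1 _ (cent_inv _)
        (fun j => mem_cent.2 (S.gam2_comm j)) i hi))
      fun c => (mem_cent.1 (gam2_mem _ _ (ge c))).symm
    intro y; rw [← hz]; exact Algebra.commute_algebraMap_right _ _
  obtain ⟨hψ, hi⟩ := sp4_facts f hf hxc hγ
  have hl : ∀ k, ∃ z : Ctr D, algebraMap (Ctr D) D z = g (.inr k) := fun k =>
    cen _ (fun i _ => (hc _ _).symm) fun c =>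
      sub_eq_zero.1 ((hg (.inr k) c).trans Int.cast_zero)
  choose l hl using hl
  obtain ⟨m, a, b, P, hb, hcm, hU⟩ := exists_pairs hg
  have X : XS (ee v) m a b := ⟨S, P, fun j hj i => (hcm _ (fun c => mem_cent.1 (ge c i)) j hj).1,
    fun j hj i => (hcm _ (fun c => mem_cent.1 (ge c i)) j hj).2⟩
  have hind : ∀ g1 g2 : Ctr D, algebraMap _ D g1 = ee v 9 → algebraMap _ D g2 = gam2 (ee v) →
      AlgebraicIndependent (IntermediateField.adjoin ℂ (Set.range l)) ![g1, g2] := by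
    intro g1 g2 k1 k2
    refine indep_shift l _ (hi g1 g2 k1 k2) fun k => ?_
    obtain ⟨τ, t1, t2, t3⟩ := hτ k
    have he : ∀ i, ee v i ∈ τ.eqLocus (RingHom.id D) :=
      ee_mem _ (fun x hx => (map_inv₀ τ x).trans (congrArg _ hx)) fun i _ => t1 _
    refine ⟨τ, fun x => ?_, fun i => ?_, by rw [hl, t2], fun k' hk => by rw [hl, t3 k' hk]⟩
    · rw [← f.commutes, t1]
    · fin_cases i
      · exact (congrArg τ k1).trans ((he 9).trans k1.symm)
      · exact (congrArg τ k2).trans ((gam2_mem _ _ he).trans k2.symm)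
  let F := IntermediateField.adjoin ℂ (Set.range l)
  have : CharZero F := (RingHom.charZero_iff (algebraMap ℂ F).injective).1 inferInstance
  let _ : Algebra F D := ((algebraMap (Ctr D) D).comp (algebraMap F (Ctr D))).toAlgebra'
    fun c x => Algebra.commutes _ _
  refine no_WF3 (F := F) X ?_ (mul_ne_zero (inv_ne_zero h0) h1) h0
    (mul_ne_zero (by norm_num) hW) hψ hb (fun g1 g2 k1 k2 => ?_) hq gen2
  · intro U hk hinv hx
    refine gen1 U (fun c => hk (algebraMap ℂ F c)) hinv ?_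
    rintro (i | c | k)
    · exact mem_of_ee T h0 hW h1 U hinv (fun j => hx (.inl j)) i i.2
    · exact hU U hinv (fun j hj => hx (.inr (.inl ⟨j, hj⟩))) (fun j hj => hx (.inr (.inr ⟨j, hj⟩))) c
    · have := hk ⟨l k, IntermediateField.subset_adjoin _ _ ⟨k, rfl⟩⟩
      exact (hl k ▸ this :)
  · convert hind g1 g2 k1 k2 using 1
    exact Algebra.algebra_ext _ _ fun _ => rfl

end Pool.Agent.Lib.MP_75bae7_al.Cn
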