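import Pool.Agent.Lib.MP_75bae7_al.Cn.Tower
import Pool.Agent.Lib.MP_75bae7_al.Cn.Indep
import Pool.Agent.Lib.MP_75bae7_al.Cn.NoWF

/-!
The enveloping skew field of `sp(2 n)` is not a Weyl skew field.
-/

set_option autoImplicit false
set_option linter.unusedSectionVars false

namespace Pool.Agent.Lib.MP_75bae7_al.Cn

attribute [local instance 100] LieRing.ofAssociativeRing

/-- the image in the big field of a subring closed under inverses -/
def liftSub {Q : Type} [DivisionRing Q] (T : Subfield Q) (S : Subring T) (h : ∀ x ∈ S, x⁻¹ ∈ S) :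
    Subfield Q where
  toSubring := S.map T.subtype
  inv_mem' := by
    rintro _ ⟨x, hx, rfl⟩
    exact ⟨x⁻¹, h x hx, rfl⟩

theorem mem_liftSub {Q : Type} [DivisionRing Q] {T : Subfield Q} {S : Subring T}
    {h : ∀ x ∈ S, x⁻¹ ∈ S} {x : Q} (hx : x ∈ T) : x ∈ liftSub T S h ↔ (⟨x, hx⟩ : T) ∈ S :=
  ⟨by rintro ⟨y, hy, rfl⟩; exact hy, fun hy => ⟨_, hy, rfl⟩⟩

/-- the statement `no_WF2` for a subfield -/
theorem no_WF_sub {ι μ κ Q : Type} [DecidableEq ι] [Fintype ι] [DecidableEq μ] [Fintype μ]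
    [Fintype κ] [DivisionRing Q] [Algebra ℂ Q] (T : Subfield Q) (f : UU →ₐ[ℂ] Q)
    (hf : Function.Injective f) (fT : ∀ u, f u ∈ T) {g : Var μ κ → Q} (gT : ∀ a, g a ∈ T)
    (hg : (sh1 μ κ).IsSys g) (hc : ∀ u a, Commute (f u) (g a))
    (gen1 : ∀ S : Subfield Q, (∀ u, f u ∈ S) → (∀ a, g a ∈ S) → T ≤ S)
    (hτ : ∀ k, ∃ τ : Q →+* Q, (∀ u, τ (f u) = f u) ∧ τ (g (.inr k)) = g (.inr k) + 1 ∧
      ∀ a, a ≠ .inr k → τ (g a) = g a)
    {q : ι ⊕ ι → Q} (qT : ∀ a, q a ∈ T) (hq : (sh0 ι).IsSys q)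
    (gen2 : ∀ S : Subfield Q, (∀ x ∈ T, (∀ y ∈ T, y * x = x * y) → x ∈ S) → (∀ a, q a ∈ S) →
      T ≤ S) : False := by
  have hs : ∀ c, algebraMap ℂ Q c ∈ T := fun c => f.commutes c ▸ fT _
  let _ : Algebra ℂ T := RingHom.toAlgebra' ((algebraMap ℂ Q).codRestrict T hs)
    fun c x => Subtype.ext (Algebra.commutes c (x : Q))
  let f' : UU →ₐ[ℂ] T := ⟨(f : UU →+* Q).codRestrict T fT, fun c => Subtype.ext (f.commutes c)⟩
  refine no_WF2 (ι := ι) f' (fun a b h => hf (congrArg Subtype.val h))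
    (g := fun a => ⟨g a, gT a⟩) (fun a b => Subtype.ext ?_) (fun u a => Subtype.ext (hc u a))
    (fun S h1 h2 h3 x => ?_) (fun k => ?_) (q := fun a => ⟨q a, qT a⟩)
    (fun a b => Subtype.ext ?_) (fun S h1 h2 h3 x => ?_)
  · simpa using hg a b
  · refine (mem_liftSub (h := h2) x.2).1 (gen1 _ (fun u => ?_) (fun a => ?_) x.2)
    · exact (mem_liftSub (fT u)).2 (uu_ind S f' h1 (fun i => h3 (.inl i)) u)
    · exact (mem_liftSub (gT a)).2 (h3 (.inr a))
  · obtain ⟨τ, h1, h2, h3⟩ := hτ k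
    have hT : T ≤ T.comap τ := gen1 _ (fun u => by
      rw [Subfield.mem_comap, h1]; exact fT u) fun a => by
        rw [Subfield.mem_comap]
        by_cases ha : a = .inr k
        · rw [ha, h2]; exact T.add_mem (gT _) T.one_mem
        · rw [h3 a ha]; exact gT a
    exact ⟨(τ.comp T.subtype).codRestrict T fun x => hT x.2, fun u => Subtype.ext (h1 u),
      Subtype.ext h2, fun k' hk => Subtype.ext (h3 _ fun h => hk (Sum.inr_injective h))⟩
  · simpa using hq a b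
  · refine (mem_liftSub (h := h2) x.2).1 (gen2 _ (fun y hy hc => ?_) (fun a => ?_) x.2)
    · obtain ⟨z, hz⟩ := Ctr.exists_eq (⟨y, hy⟩ : T) fun t => Subtype.ext (hc t t.2).symm
      exact (mem_liftSub hy).2 (hz ▸ h1 z)
    · exact (mem_liftSub (qT a)).2 (h3 a)

theorem env_ind {L A : Type} [LieRing L] [LieAlgebra ℂ L] [Ring A] [Algebra ℂ A]
    (ρ : UniversalEnvelopingAlgebra ℂ L →ₐ[ℂ] A) (S : Subalgebra ℂ A)
    (h : ∀ X, ρ (UniversalEnvelopingAlgebra.ι ℂ X) ∈ S) (u : UniversalEnvelopingAlgebra ℂ L) :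
    ρ u ∈ S := by
  obtain ⟨x, rfl⟩ : ∃ y, UniversalEnvelopingAlgebra.mkAlgHom ℂ L y = u := Quot.exists_rep u
  induction x using TensorAlgebra.induction with
  | algebraMap c => rw [AlgHom.commutes, AlgHom.commutes]; exact S.algebraMap_mem c
  | ι x => exact h x
  | mul a b ha hb => rw [map_mul, map_mul]; exact mul_mem ha hb
  | add a b ha hb => rw [map_add, map_add]; exact add_mem ha hb

theorem WF_gen {ι κ k D : Type} [DecidableEq ι] [Field k] [DivisionRing D] [Algebra k D]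
    (w : WF ι κ k D) : Gen k w.g := fun T h0 h1 h2 x => by
  have h3 : ∀ f, w.Φ f ∈ T := fun f => by
    induction f using poly_ind with
    | hC c => rw [WF.Φ, phi_C w.sys]; exact h0 c
    | hadd p q hp hq => rw [map_add]; exact T.add_mem hp hq
    | hX p b hp =>
      by_cases hb : (sh1 ι κ).left b = true
      · rw [WF.Φ, phi_left w.sys hb]; exact T.mul_mem (h2 b) hp
      · rw [WF.Φ, phi_right w.sys (Bool.eq_false_iff.2 hb)]; exact T.mul_mem hp (h2 b)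
  obtain ⟨f, h, -, rfl⟩ := w.frac x
  exact T.mul_mem (h3 f) (h1 _ (h3 h))

/-- the centraliser of one element as a subfield -/
def cenF {Q : Type} [DivisionRing Q] (y : Q) : Subfield Q where
  toSubring := Subring.centralizer {y}
  inv_mem' := fun u hu => by
    have hu' : u ∈ Subring.centralizer {y} := hu
    change u⁻¹ ∈ Subring.centralizer {y}
    rw [Subring.mem_centralizer_iff] at hu' ⊢
    rintro _ rfl
    exact (Commute.inv_right₀ (hu' _ rfl)).eq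

theorem mem_cenF {Q : Type} [DivisionRing Q] {y u : Q} : u ∈ cenF y ↔ y * u = u * y :=
  Subring.mem_centralizer_iff.trans ⟨fun h => h y rfl, by rintro h _ rfl; exact h⟩

/-- a subfield holding the scalars as a subalgebra -/
def subAlg {Q : Type} [DivisionRing Q] [Algebra ℂ Q] (S : Subfield Q)
    (h : ∀ c, algebraMap ℂ Q c ∈ S) : Subalgebra ℂ Q where
  toSubsemiring := S.toSubring.toSubsemiring
  algebraMap_mem' := h

theorem no_WF_rel {I0 I : Type} [Fintype I0] [DecidableEq I0] [Fintype I] [DecidableEq I]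
    [IsEmpty I0] {J0 : Matrix I0 I0 ℂ} {J : Matrix I I ℂ} (R1 : Rel J0 (Matrix.J (Fin 2) ℂ))
    (R2 : Rel (Matrix.J (Fin 2) ℂ) J) {ι κ D : Type} [DecidableEq ι] [Fintype ι] [Fintype κ]
    [DivisionRing D] [Algebra ℂ D] (w : WF ι κ ℂ D)
    (f : UniversalEnvelopingAlgebra ℂ (skewAdjointMatricesLieSubalgebra J) →ₐ[ℂ] D)
    (hf : IsSkewFrac f) : False := by
  obtain ⟨Q, _, _, ⟨W⟩⟩ := exists_WFk (R1.ι ⊕ R2.ι) (R1.κ ⊕ R2.κ) ℂ
  obtain ⟨ρ, hρ, hρ'⟩ := (R1.comp R2).exists_env (g := W.g) W.sys W.inj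
  obtain ⟨ρ1, hρ1, hρ1'⟩ := R1.exists_env (isSys_in1 W.sys) (phi_inj_in1 W.sys W.inj)
  obtain ⟨j, hj⟩ := ext_hom (f.toRingHom.prod ρ.toRingHom).range
    (by
      rintro _ ⟨a, rfl⟩ ha
      refine Ne.isUnit fun h => ha ?_
      have : a = 0 := hρ ((show ρ a = 0 from h).trans (map_zero ρ).symm)
      rw [this, map_zero]; rfl)
    (by
      rintro _ ⟨a, rfl⟩ ha
      have : a = 0 := hf.1 ((show f a = 0 from ha).trans (map_zero f).symm)
      rw [this, map_zero]; rfl)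
    fun x => by
      obtain ⟨a, b, hb, h⟩ := hf.2 x
      exact ⟨_, ⟨a, rfl⟩, _, ⟨b, rfl⟩, 
        fun h0 => hb (hf.1 ((show f b = 0 from h0).trans (map_zero f).symm)), h⟩
  have hjf : ∀ a, j (f a) = ρ a := fun a => hj _ ⟨a, rfl⟩
  have hjs : ∀ c, j (algebraMap ℂ D c) = algebraMap ℂ Q c := fun c => by
    rw [← f.commutes, hjf, ρ.commutes]
  let r1 : Matrix (Fin 2 ⊕ Fin 2) (Fin 2 ⊕ Fin 2) ℂ →ₗ[ℂ] Q :=
    R1.E 0 fun a => W.g (in1 R2.ι R2.κ a)
  let g2 : Var R2.ι R2.κ → Q := fun a => W.g (in2 R1.ι R1.κ a)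
  have ok0 : Ok J0 1 (0 : Matrix I0 I0 ℂ →ₗ[ℂ] Q) W.g :=
    ⟨fun a b => by rw [one_mul]; exact W.sys a b, fun X _ a => Commute.zero_left _⟩
  have ok : Ok (Matrix.J (Fin 2) ℂ) 1 r1 g2 := Ok.in2 R1 ok0
  have sh : ∀ k, ∃ τ : Q →ₐ[ℂ] Q, (∀ X, τ (r1 X) = r1 X) ∧ τ (g2 (.inr k)) = g2 (.inr k) + 1 ∧
      ∀ a, a ≠ .inr k → τ (g2 a) = g2 a := fun k => by
    obtain ⟨τ, h1, h2⟩ := WF_shift W (.inr k)
    refine ⟨τ, fun X => ?_, h1, fun a ha => h2 _ ?_⟩
    · have e1 : (fun a => τ (W.g (in1 R2.ι R2.κ a))) = fun a => W.g (in1 R2.ι R2.κ a) :=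
        funext fun a => h2 _ (by rcases a with (a | a) | a <;> simp [in1])
      rw [R1.map, LinearMap.comp_zero, e1]
    · rcases a with (a | a) | a <;> simp [in2]
      rintro rfl
      exact ha rfl
  let T : Subfield Q := Subfield.closure (Set.range j ∪ Set.range fun k => g2 (.inr k))
  have jT : ∀ x, j x ∈ T := fun x => Subfield.subset_closure (.inl ⟨x, rfl⟩)
  have lT : ∀ k, g2 (.inr k) ∈ T := fun k => Subfield.subset_closure (.inr ⟨k, rfl⟩)
  have hs : ∀ c, algebraMap ℂ Q c ∈ T := fun c => hjs c ▸ jT _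
  have hE : ∀ X (hX : Sk J X), R2.E r1 g2 X
      = ρ (UniversalEnvelopingAlgebra.ι ℂ (⟨X, mem_skL.2 hX⟩ : skewAdjointMatricesLieSubalgebra J)) :=
    fun X hX => (hρ' ⟨X, mem_skL.2 hX⟩).symm
  obtain ⟨rT, gT⟩ := R2.gen 1 r1 g2 ok
    (fun k => by
      obtain ⟨τ, h1, h2⟩ := sh k
      exact ⟨τ, fun X _ => h1 X, h2⟩) T hs
    (fun X hX => by rw [hE X hX, ← hjf]; exact jT _) fun k _ => lT k
  have key : ∀ S : Subfield Q, (∀ c, algebraMap ℂ Q c ∈ S) →
      (∀ X, Sk (Matrix.J (Fin 2) ℂ) X → r1 X ∈ S) → (∀ a, g2 a ∈ S) → ∀ x, j x ∈ S :=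
    fun S h0 h1 h2 x => by
      have h3 : ∀ u, ρ u ∈ S := env_ind ρ (subAlg S h0) fun X => by
        rw [hρ']
        exact R2.mem_sub (subAlg S h0) h1 h2 (mem_skL.1 X.2)
      obtain ⟨a, b, -, rfl⟩ := hf.2 x
      rw [map_mul, map_inv₀, hjf, hjf]
      exact S.mul_mem (h3 a) (S.inv_mem (h3 b))
  have lc : ∀ k x, Commute (g2 (.inr k)) x := fun k x => W.y_central (.inr k) x
  refine no_WF_sub (ι := ι) T ρ1 hρ1
    (env_ind ρ1 (subAlg T hs) fun X => by rw [hρ1']; exact rT _ (mem_skL.1 X.2)) gT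
    (isSys_in2 W.sys) (fun u a => ?_) (fun S h1 h2 => ?_) (fun k => ?_)
    (q := fun a => j (w.g (.inl a))) (fun a => jT _) (fun a b => ?_) fun S h1 h2 => ?_
  · refine (env_ind ρ1 (Subalgebra.centralizer ℂ {g2 a}) (fun X => ?_) u _ rfl).symm
    rintro _ rfl
    rw [hρ1']
    exact (ok.com _ (mem_skL.1 X.2) a).symm
  · refine Subfield.closure_le.2 ?_
    rintro _ (⟨x, rfl⟩ | ⟨k, rfl⟩)
    · exact key S (fun c => ρ1.commutes c ▸ h1 _)
        (fun X hX => (hρ1' ⟨X, mem_skL.2 hX⟩) ▸ h1 _) h2 x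
    · exact h2 _
  · obtain ⟨τ, h1, h2⟩ := sh k
    refine ⟨τ, fun u => ?_, h2⟩
    exact env_ind ρ1 (AlgHom.equalizer τ (AlgHom.id ℂ Q)) (fun X => by
      rw [hρ1']; exact h1 _) u
  · have := congrArg j (w.sys (.inl a) (.inl b))
    simpa [sh1, sh0, om1] using this
  · have cen : ∀ y : D, (∀ x, y * x = x * y) → j y ∈ S := fun y hy => by
      have : T ≤ cenF (j y) := Subfield.closure_le.2 (by
        rintro _ (⟨x, rfl⟩ | ⟨k, rfl⟩)
        · exact mem_cenF.2 (by rw [← map_mul, hy, map_mul])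
        · exact mem_cenF.2 (lc k _).symm)
      exact h1 _ (jT y) fun t ht => (mem_cenF.1 (this ht)).symm
    refine Subfield.closure_le.2 ?_
    rintro _ (⟨x, rfl⟩ | ⟨k, rfl⟩)
    · refine WF_gen w (S.toSubring.comap j) (fun c => cen _ (Algebra.commutes c))
        (fun y hy => ?_) ?_ x
      · change j y⁻¹ ∈ S
        rw [map_inv₀]
        exact S.inv_mem hy
      · rintro (a | a)
        · exact h2 a
        · exact cen _ (w.y_central a)
    · exact h1 _ (lT k) fun y _ => (lc k y).symm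

theorem no_WF_sp {n : ℕ} (hn : 2 ≤ n) {ι κ D : Type} [DecidableEq ι] [Fintype ι] [Fintype κ]
    [DivisionRing D] [Algebra ℂ D] (w : WF ι κ ℂ D)
    (f : UniversalEnvelopingAlgebra ℂ (LieAlgebra.Symplectic.sp (Fin n) ℂ) →ₐ[ℂ] D)
    (hf : IsSkewFrac f) : False := by
  obtain ⟨d, rfl⟩ := Nat.exists_eq_add_of_le hn
  obtain ⟨R1⟩ : Nonempty (Rel (Matrix.J (Fin 0) ℂ) (Matrix.J (Fin 2) ℂ)) := tower 0 2
  obtain ⟨R2⟩ := tower 2 d
  exact no_WF_rel R1 R2 w f hf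

end Pool.Agent.Lib.MP_75bae7_al.Cn
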