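import Pool.Agent.Lib.MP_75bae7_al.Cn.Defs

/-!
One step of parabolic induction: formal properties and the commutative model.
-/

set_option autoImplicit false
set_option linter.unusedSectionVars false

namespace Pool.Agent.Lib.MP_75bae7_al.Cn

open Matrix

variable {I : Type} [Fintype I] [DecidableEq I] {J : Matrix I I ℂ}

theorem IsJ.anti' (hJ : IsJ J) (a b : I) : J a b = -J b a := by
  have := congrFun (congrFun hJ.anti b) a
  simpa using this

theorem IsJ.up (hJ : IsJ J) : IsJ (upJ J) := by
  constructor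
  · ext a b
    rcases a with _ | _ | a <;> rcases b with _ | _ | b <;> simp [upJ]
    exact hJ.anti' b a
  · ext a b
    rcases a with _ | _ | a <;> rcases b with _ | _ | b <;>
      simp [upJ, Matrix.mul_apply, Fintype.sum_option]
    have := congrFun (congrFun hJ.sq a) b
    simpa [Matrix.mul_apply, Matrix.one_apply] using this

theorem sk_blocks0 {C : Type} [CommRing C] [Algebra ℂ C]
    {Y : Matrix (Option (Option I)) (Option (Option I)) C}
    (hY : Yᵀ * (upJ J).map (algebraMap ℂ C) = (upJ J).map (algebraMap ℂ C) * (-Y)) :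
    Y (some none) (some none) = -Y none none ∧
    (∀ b, Y (some none) (some (some b)) = ∑ c, J c b • Y (some (some c)) none) ∧
    (∀ b, Y none (some (some b)) = -∑ c, J c b • Y (some (some c)) (some none)) ∧
    (Y.submatrix (fun i => some (some i)) fun i => some (some i))ᵀ * J.map (algebraMap ℂ C)
      = J.map (algebraMap ℂ C) * (-Y.submatrix (fun i => some (some i)) fun i => some (some i)) := by
  refine ⟨?_, fun b => ?_, fun b => ?_, ?_⟩
  · have := congrFun (congrFun hY (some none)) none
    simpa [upJ, Matrix.mul_apply, Fintype.sum_option] using this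
  · have := congrFun (congrFun hY none) (some (some b))
    simp [upJ, Matrix.mul_apply, Fintype.sum_option] at this
    rw [← this]
    exact Finset.sum_congr rfl fun c _ => by rw [Algebra.smul_def, mul_comm]
  · have := congrFun (congrFun hY (some none)) (some (some b))
    simp [upJ, Matrix.mul_apply, Fintype.sum_option] at this
    rw [← neg_eq_iff_eq_neg, ← this]
    exact Finset.sum_congr rfl fun c _ => by rw [Algebra.smul_def, mul_comm]
  · ext a b
    have := congrFun (congrFun hY (some (some a))) (some (some b))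
    simpa [upJ, Matrix.mul_apply, Fintype.sum_option] using this

theorem sk_blocksC {Y : Matrix (Option (Option I)) (Option (Option I)) ℂ} (hY : Sk (upJ J) Y) :
    Y (some none) (some none) = -Y none none ∧
    (∀ b, Y (some none) (some (some b)) = ∑ c, J c b • Y (some (some c)) none) ∧
    (∀ b, Y none (some (some b)) = -∑ c, J c b • Y (some (some c)) (some none)) ∧
    Sk J (Y.submatrix (fun i => some (some i)) fun i => some (some i)) := by
  have e1 : (upJ J).map (algebraMap ℂ ℂ) = upJ J := by ext; simp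
  have e2 : J.map (algebraMap ℂ ℂ) = J := by ext; simp
  have := sk_blocks0 (C := ℂ) (J := J) (Y := Y) (by rw [e1]; exact hY)
  rw [e2] at this
  exact this

/-- the free coordinates of a matrix in the Lie algebra of the enlarged form -/
noncomputable def coords (J : Matrix I I ℂ) : skewAdjointMatricesSubmodule (upJ J) →ₗ[ℂ]
    skewAdjointMatricesSubmodule J × (Option I → ℂ) × (Option I → ℂ) × ℂ where
  toFun X := (⟨X.1.submatrix (fun i => some (some i)) fun i => some (some i),
      mem_sk.2 (sk_blocksC (mem_sk.1 X.2)).2.2.2⟩, fun a => X.1 (some a) none,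
      fun a => X.1 (a.map some) (some none), X.1 none none)
  map_add' _ _ := rfl
  map_smul' _ _ := rfl

theorem coords_inj : Function.Injective (coords J) := by
  rw [injective_iff_map_eq_zero]
  intro X hX
  obtain ⟨h1, h2, h3, -⟩ := sk_blocksC (mem_sk.1 X.2)
  have k1 : ∀ a b, X.1 (some (some a)) (some (some b)) = 0 := fun a b =>
    congrFun (congrFun (congrArg Subtype.val (congrArg Prod.fst hX)) a) b
  have k2 : ∀ a, X.1 (some a) none = 0 := fun a =>
    congrFun (congrArg (fun t => t.2.1) hX) a
  have k3 : ∀ a : Option I, X.1 (a.map some) (some none) = 0 := fun a =>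
    congrFun (congrArg (fun t => t.2.2.1) hX) a
  have k4 : X.1 none none = 0 := congrArg (fun t => t.2.2.2) hX
  have k5 : ∀ c, X.1 (some (some c)) (some none) = 0 := fun c => k3 (some c)
  ext a b
  rcases a with _ | _ | a <;> rcases b with _ | _ | b
  · exact k4
  · exact k3 none
  · rw [h3]; simp [k5]
  · exact k2 _
  · rw [h1, k4]; simp
  · rw [h2]; simp [k2]
  · exact k2 _
  · exact k5 _
  · exact k1 _ _

theorem step_count (hJ : IsJ J) : Module.finrank ℂ (skewAdjointMatricesSubmodule (upJ J))
    ≤ Module.finrank ℂ (skewAdjointMatricesSubmodule J) + (2 * Fintype.card (Option I) + 1) := by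
  have := LinearMap.finrank_le_finrank_of_injective (coords_inj (J := J))
  simp only [Module.finrank_prod, Module.finrank_fintype_fun_eq_card, Module.finrank_self] at this
  omega

section
variable {A B : Type} [Ring A] [Algebra ℂ A] [Ring B] [Algebra ℂ B]

theorem yy_map (φ : A →ₐ[ℂ] B) (z : Option I → A) (b : I) :
    φ (yy J z b) = yy J (fun a => φ (z a)) b := by
  simp only [yy, map_sum, map_smul]

theorem NN_map (φ : A →ₐ[ℂ] B) (z : Option I → A) :
    (NN J z).map φ = NN J fun a => φ (z a) := by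
  ext a b
  rcases a with _ | _ | a <;> rcases b with _ | _ | b <;>
    simp only [NN, Matrix.map_apply, Matrix.of_apply, map_zero, yy_map]

theorem conj_map (φ : A →ₐ[ℂ] B) (z : Option I → A)
    (X : Matrix (Option (Option I)) (Option (Option I)) ℂ) :
    ((1 - NN J z) * X.map (algebraMap ℂ A) * (1 + NN J z)).map φ
      = (1 - NN J fun a => φ (z a)) * X.map (algebraMap ℂ B) * (1 + NN J fun a => φ (z a)) := by
  have h1 : (X.map (algebraMap ℂ A)).map φ = X.map (algebraMap ℂ B) := by
    ext a b
    simp only [Matrix.map_apply, AlgHom.commutes]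
  have h2 : ∀ M : Matrix (Option (Option I)) (Option (Option I)) A,
      M.map φ = (φ : A →+* B).mapMatrix M := fun M => rfl
  rw [h2, map_mul, map_mul, map_sub, map_add, map_one, ← h2, ← h2, h1, NN_map]

theorem LL_map (φ : A →ₐ[ℂ] B) (z ξ : Option I → A) (a : Option I) :
    φ (LL J z ξ a) = LL J (fun a => φ (z a)) (fun a => φ (ξ a)) a := by
  rcases a with _ | a <;> simp only [LL, map_add, map_mul, yy_map]

theorem T0_map (φ : A →ₐ[ℂ] B) (r : Matrix I I ℂ →ₗ[ℂ] A) (z ξ : Option I → A) (l : A)
    (Y : Matrix (Option (Option I)) (Option (Option I)) A) :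
    φ (T0 J r z ξ l Y)
      = T0 J (φ.toLinearMap ∘ₗ r) (fun a => φ (z a)) (fun a => φ (ξ a)) (φ l) (Y.map φ) := by
  simp only [T0, map_add, map_neg, map_sum, map_mul, map_smul, LL_map, Matrix.map_apply, hat,
    Matrix.of_apply, LinearMap.comp_apply, AlgHom.toLinearMap_apply]

theorem step_map (φ : A →ₐ[ℂ] B) (r : Matrix I I ℂ →ₗ[ℂ] A) (z ξ : Option I → A) (l : A)
    (X : Matrix (Option (Option I)) (Option (Option I)) ℂ) :
    φ (stepE J r z ξ l X)
      = stepE J (φ.toLinearMap ∘ₗ r) (fun a => φ (z a)) (fun a => φ (ξ a)) (φ l) X := by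
  rw [stepE_apply, stepE_apply, T0_map, conj_map]

theorem Grad.mul01 {G : ℕ → Submodule ℂ A} (hG : Grad G) {x y : A} {k : ℕ} (hx : x ∈ G 0)
    (hy : y ∈ G k) : x * y ∈ G k := by
  simpa only [Nat.zero_add] using hG.mul 0 k x y hx hy

theorem Grad.yy_mem {G : ℕ → Submodule ℂ A} {z : Option I → A} (hz : ∀ a, z a ∈ G 0) (b : I) :
    yy J z b ∈ G 0 :=
  Submodule.sum_mem _ fun _ _ => Submodule.smul_mem _ _ (hz _)

theorem Grad.NN_mem {G : ℕ → Submodule ℂ A} {z : Option I → A} (hz : ∀ a, z a ∈ G 0)
    (a b : Option (Option I)) : NN J z a b ∈ G 0 := by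
  rcases a with _ | _ | a <;> rcases b with _ | _ | b <;> simp only [NN, Matrix.of_apply] <;>
    first | exact Submodule.zero_mem _ | exact hz _ | exact Grad.yy_mem hz _

theorem Grad.one_mem {G : ℕ → Submodule ℂ A} (hG : Grad G) (a b : Option (Option I)) :
    (1 : Matrix (Option (Option I)) (Option (Option I)) A) a b ∈ G 0 := by
  rw [Matrix.one_apply]
  split_ifs
  · exact hG.one
  · exact Submodule.zero_mem _

theorem Grad.mat_mul {G : ℕ → Submodule ℂ A} (hG : Grad G)
    {M N : Matrix (Option (Option I)) (Option (Option I)) A} (hM : ∀ a b, M a b ∈ G 0)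
    (hN : ∀ a b, N a b ∈ G 0) (a b : Option (Option I)) : (M * N) a b ∈ G 0 := by
  rw [Matrix.mul_apply]
  exact Submodule.sum_mem _ fun _ _ => hG.mul01 (hM _ _) (hN _ _)

theorem Grad.conj_mem {G : ℕ → Submodule ℂ A} (hG : Grad G) {z : Option I → A}
    (hz : ∀ a, z a ∈ G 0) (X : Matrix (Option (Option I)) (Option (Option I)) ℂ)
    (a b : Option (Option I)) :
    ((1 - NN J z) * X.map (algebraMap ℂ A) * (1 + NN J z)) a b ∈ G 0 := by
  refine hG.mat_mul (hG.mat_mul (fun a b => ?_) fun a b => ?_) (fun a b => ?_) a b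
  · exact Submodule.sub_mem _ (hG.one_mem a b) (Grad.NN_mem hz a b)
  · rw [Matrix.map_apply, Algebra.algebraMap_eq_smul_one]
    exact Submodule.smul_mem _ _ hG.one
  · exact Submodule.add_mem _ (hG.one_mem a b) (Grad.NN_mem hz a b)

theorem step_mem (hJ : IsJ J) (G : ℕ → Submodule ℂ A) (hG : Grad G) {r : Matrix I I ℂ →ₗ[ℂ] A}
    {z ξ : Option I → A} {l : A} (hr : ∀ X, Sk J X → r X ∈ G 1) (hz : ∀ a, z a ∈ G 0)
    (hξ : ∀ a, ξ a ∈ G 1) (hl : l ∈ G 1)
    (X : Matrix (Option (Option I)) (Option (Option I)) ℂ) : stepE J r z ξ l X ∈ G 1 := by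
  have hY := hG.conj_mem (J := J) hz X
  rw [stepE_apply, T0]
  refine Submodule.add_mem _ (Submodule.add_mem _ (Submodule.neg_mem _ ?_) (hG.mul01 (hY _ _) hl))
    (Submodule.smul_mem _ _ ?_)
  · refine Submodule.sum_mem _ fun a _ => hG.mul01 (hY _ _) ?_
    rcases a with _ | a
    · exact hξ _
    · exact Submodule.add_mem _ (hξ _) (hG.mul01 (Grad.yy_mem hz a) (hξ _))
  · exact Submodule.sum_mem _ fun i _ => Submodule.sum_mem _ fun k _ =>
      hG.mul01 (hY _ _) (hr _ (hJ.sk_pi2 _))

theorem NN_sq (hJ : IsJ J) {z : Option I → A} (hz : ∀ a b, Commute (z a) (z b)) :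
    NN J z * NN J z = 0 := by
  have key : ∑ b, yy J z b * z (some b) = 0 := by
    have h1 : ∑ b, yy J z b * z (some b) = ∑ b, ∑ c, J c b • (z (some c) * z (some b)) := by
      simp only [yy, Finset.sum_mul, smul_mul_assoc]
    have h2 : ∑ b, ∑ c, J c b • (z (some c) * z (some b))
        = -∑ b, ∑ c, J c b • (z (some c) * z (some b)) := by
      conv_lhs => rw [Finset.sum_comm]
      simp only [← Finset.sum_neg_distrib]
      refine Finset.sum_congr rfl fun b _ => Finset.sum_congr rfl fun c _ => ?_
      rw [hJ.anti' b c, neg_smul, (hz (some b) (some c)).eq]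
    rw [h1]
    have h3 : (2 : ℂ) • ∑ b, ∑ c, J c b • (z (some c) * z (some b)) = 0 := by
      rw [two_smul]; exact add_eq_zero_iff_eq_neg.2 h2
    have h4 := congrArg (fun t => (2⁻¹ : ℂ) • t) h3
    simpa [smul_smul] using h4
  ext a b
  rcases a with _ | _ | a <;> rcases b with _ | _ | b <;>
    simp [NN, Matrix.mul_apply, Fintype.sum_option, key]

end

section Model
variable {C : Type} [CommRing C] [Algebra ℂ C]

theorem NN_sk (hJ : IsJ J) (z : Option I → C) :
    (NN J z)ᵀ * (upJ J).map (algebraMap ℂ C) = (upJ J).map (algebraMap ℂ C) * (-NN J z) := by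
  ext a b
  rcases a with _ | _ | a <;> rcases b with _ | _ | b <;>
    simp [NN, upJ, Matrix.mul_apply, Fintype.sum_option, yy]
  · exact Finset.sum_congr rfl fun c _ => by rw [Algebra.smul_def, mul_comm]
  · rw [← Finset.sum_neg_distrib]
    exact Finset.sum_congr rfl fun c _ => by rw [hJ.anti' c a, neg_smul, Algebra.smul_def]

theorem conj_sk (hJ : IsJ J) (z : Option I → C)
    {X : Matrix (Option (Option I)) (Option (Option I)) ℂ} (hX : Sk (upJ J) X) :
    ((1 - NN J z) * X.map (algebraMap ℂ C) * (1 + NN J z))ᵀ * (upJ J).map (algebraMap ℂ C)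
      = (upJ J).map (algebraMap ℂ C)
        * (-((1 - NN J z) * X.map (algebraMap ℂ C) * (1 + NN J z))) := by
  have hN := NN_sk hJ z
  have hX' : (X.map (algebraMap ℂ C))ᵀ * (upJ J).map (algebraMap ℂ C)
      = (upJ J).map (algebraMap ℂ C) * (-X.map (algebraMap ℂ C)) := by
    have := congrArg (fun M => M.map (algebraMap ℂ C)) hX
    simp only [Matrix.map_mul] at this
    rw [← Matrix.transpose_map, this, Matrix.map_neg _ (map_neg _)]
  generalize (upJ J).map (algebraMap ℂ C) = U at *
  generalize X.map (algebraMap ℂ C) = X' at *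
  generalize NN J z = N at *
  have h1 : (1 - N)ᵀ * U = U * (1 + N) := by
    rw [transpose_sub, transpose_one, sub_mul, hN]; noncomm_ring
  have h2 : (1 + N)ᵀ * U = U * (1 - N) := by
    rw [transpose_add, transpose_one, add_mul, hN]; noncomm_ring
  rw [transpose_mul, transpose_mul, mul_assoc, mul_assoc, h1, ← mul_assoc X'ᵀ, hX', ← mul_assoc,
    ← mul_assoc, h2]
  noncomm_ring

theorem conj_pi2 (hJ : IsJ J) (z : Option I → C)
    (Z : Matrix (Option (Option I)) (Option (Option I)) ℂ) :
    (1 - NN J z) * (pi2 (upJ J) Z).map (algebraMap ℂ C) * (1 + NN J z)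
      = (1 - NN J z) * Z.map (algebraMap ℂ C) * (1 + NN J z) + (upJ J).map (algebraMap ℂ C)
        * ((1 - NN J z) * Z.map (algebraMap ℂ C) * (1 + NN J z))ᵀ
        * (upJ J).map (algebraMap ℂ C) := by
  have hN := NN_sk hJ z
  have hU : (upJ J).map (algebraMap ℂ C) * (upJ J).map (algebraMap ℂ C) = -1 := by
    rw [← Matrix.map_mul, hJ.up.sq, Matrix.map_neg _ (map_neg _),
      Matrix.map_one _ (map_zero _) (map_one _)]
  have hP : (pi2 (upJ J) Z).map (algebraMap ℂ C) = Z.map (algebraMap ℂ C)
      + (upJ J).map (algebraMap ℂ C) * (Z.map (algebraMap ℂ C))ᵀ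
        * (upJ J).map (algebraMap ℂ C) := by
    rw [pi2, Matrix.map_add _ (map_add _), Matrix.map_mul, Matrix.map_mul, Matrix.transpose_map]
  rw [hP]
  generalize (upJ J).map (algebraMap ℂ C) = U at *
  generalize Z.map (algebraMap ℂ C) = Z' at *
  generalize NN J z = N at *
  have h0 : U * Nᵀ = -(N * U) := by
    have e1 : U * (Nᵀ * U) * U = -(U * Nᵀ) := by
      rw [mul_assoc, mul_assoc, hU]; noncomm_ring
    have e2 : U * (U * -N) * U = N * U := by
      rw [← mul_assoc, hU]; noncomm_ring
    rw [hN, e2] at e1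
    rw [e1, neg_neg]
  have h1 : (1 - N)ᵀ * U = U * (1 + N) := by
    rw [transpose_sub, transpose_one, sub_mul, hN]; noncomm_ring
  have h2 : U * (1 + N)ᵀ = (1 - N) * U := by
    rw [transpose_add, transpose_one, mul_add, h0]; noncomm_ring
  have h3 : U * ((1 - N) * Z' * (1 + N))ᵀ * U = (U * (1 + N)ᵀ) * Z'ᵀ * ((1 - N)ᵀ * U) := by
    rw [transpose_mul, transpose_mul]; noncomm_ring
  rw [h3, h1, h2]
  noncomm_ring

/-- blocks of a matrix in the Lie algebra of the enlarged form -/
theorem sk_blocks {Y : Matrix (Option (Option I)) (Option (Option I)) C}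
    (hY : Yᵀ * (upJ J).map (algebraMap ℂ C) = (upJ J).map (algebraMap ℂ C) * (-Y)) :
    Y (some none) (some none) = -Y none none ∧
    (∀ b, Y (some none) (some (some b)) = ∑ c, J c b • Y (some (some c)) none) ∧
    (∀ b, Y none (some (some b)) = -∑ c, J c b • Y (some (some c)) (some none)) ∧
    (Y.submatrix (fun i => some (some i)) fun i => some (some i))ᵀ * J.map (algebraMap ℂ C)
      = J.map (algebraMap ℂ C) * (-Y.submatrix (fun i => some (some i)) fun i => some (some i)) := by
  exact sk_blocks0 hY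

end Model

end Pool.Agent.Lib.MP_75bae7_al.Cn
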