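import Pool.Agent.Lib.MP_75bae7_al.Cn.StepHat
import Pool.Agent.Lib.MP_75bae7_al.Cn.Rows

/-!
The generators after one step and the new central letter generate everything.
-/

set_option autoImplicit false
set_option linter.unusedSectionVars false

namespace Pool.Agent.Lib.MP_75bae7_al.Cn

open Matrix

variable {I : Type} [Fintype I] [DecidableEq I] {J : Matrix I I ℂ}

theorem ent_mul {n Q : Type} [Fintype n] [DivisionRing Q] (T : Subfield Q) {X Y : Matrix n n Q}
    (hX : ∀ i j, X i j ∈ T) (hY : ∀ i j, Y i j ∈ T) : ∀ i j, (X * Y) i j ∈ T := fun i j => by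
  rw [Matrix.mul_apply]
  exact T.sum_mem fun k _ => T.mul_mem (hX i k) (hY k j)

theorem ent_one {n Q : Type} [DecidableEq n] [DivisionRing Q] (T : Subfield Q) :
    ∀ i j, (1 : Matrix n n Q) i j ∈ T := fun i j => by
  rw [Matrix.one_apply]; split_ifs
  · exact T.one_mem
  · exact T.zero_mem

theorem smul_memT {Q : Type} [DivisionRing Q] [Algebra ℂ Q] {T : Subfield Q}
    (hs : ∀ c, algebraMap ℂ Q c ∈ T) (c : ℂ) {x : Q} (hx : x ∈ T) : c • x ∈ T := by
  rw [Algebra.smul_def]; exact T.mul_mem (hs c) hx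

theorem l_yy {Q : Type} [Ring Q] [Algebra ℂ Q] {z : Option I → Q} {l : Q}
    (hz : ∀ a, Commute l (z a)) (b : I) : Commute l (yy J z b) := by
  rw [yy]
  exact Commute.sum_right _ _ _ fun c _ => (hz _).smul_right _

theorem l_NN {Q : Type} [Ring Q] [Algebra ℂ Q] {z : Option I → Q} {l : Q}
    (hz : ∀ a, Commute l (z a)) (a b : Option (Option I)) : Commute l (NN J z a b) := by
  rcases a with _ | _ | a <;> rcases b with _ | _ | b <;>
    first
      | exact Commute.zero_right _
      | exact hz _
      | exact l_yy hz _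

theorem scalar_NN {Q : Type} [Ring Q] [Algebra ℂ Q] {z : Option I → Q} {l : Q}
    (hz : ∀ a, Commute l (z a)) :
    Matrix.scalar (Option (Option I)) l * NN J z = NN J z * Matrix.scalar _ l := by
  ext a b
  simp only [Matrix.scalar_apply, Matrix.diagonal_mul, Matrix.mul_diagonal]
  exact (l_NN hz a b).eq

theorem z_of_yy {Q : Type} [Ring Q] [Algebra ℂ Q] (hJ : IsJ J) (z : Option I → Q) (d : I) :
    z (some d) = -∑ b, J b d • yy J z b := by
  simp only [yy, Finset.smul_sum, smul_smul]
  rw [Finset.sum_comm]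
  have h1 : ∀ c, ∑ b, (J b d * J c b) • z (some c) = (-(if c = d then 1 else 0 : ℂ)) • z (some c) := by
    intro c
    rw [← Finset.sum_smul]
    congr 1
    have h2 := congrFun (congrFun hJ.sq c) d
    rw [Matrix.mul_apply, Matrix.neg_apply, Matrix.one_apply] at h2
    rw [← h2]
    exact Finset.sum_congr rfl fun b _ => mul_comm _ _
  simp only [h1, neg_smul, ite_smul, one_smul, zero_smul, Finset.sum_neg_distrib,
    Finset.sum_ite_eq', Finset.mem_univ, if_true, neg_neg]

theorem step_gen {Q : Type} [DivisionRing Q] [Algebra ℂ Q] (hJ : IsJ J) {ε : ℤ}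
    {r : Matrix I I ℂ →ₗ[ℂ] Q} {z ξ : Option I → Q} {l : Q} (h : Ok1 J ε r z ξ l) (τ : Q →+* Q)
    (hτr : ∀ X, Sk J X → τ (r X) = r X) (hτl : τ l = l + 1) (T : Subfield Q)
    (hs : ∀ c, algebraMap ℂ Q c ∈ T) (hT : ∀ X, Sk (upJ J) X → stepE J r z ξ l X ∈ T)
    (hl : Eig T l → l ∈ T) :
    (∀ X, Sk J X → r X ∈ T) ∧ (∀ a, z a ∈ T) ∧ (∀ a, ξ a ∈ T) ∧ l ∈ T := by
  have : CharZero Q := charZero_of_injective_algebraMap (algebraMap ℂ Q).injective
  set N := NN J z with hN
  set M := MM J ε r z ξ l with hM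
  set H := hat (upJ J) (stepE J r z ξ l) with hH
  have hsq : N * N = 0 := NN_sq hJ h.zz
  have hmp : (1 - N) * (1 + N) = 1 := by
    rw [Matrix.sub_mul, Matrix.one_mul, Matrix.mul_add, Matrix.mul_one, hsq]; abel
  have hpm : (1 + N) * (1 - N) = 1 := by
    rw [Matrix.add_mul, Matrix.one_mul, Matrix.mul_sub, Matrix.mul_one, hsq]; abel
  have hHM : H = (1 + N) * M * (1 - N) := hat_step hJ h
  have hHT : ∀ a b, H a b ∈ T := fun a b => hT _ (hJ.up.sk_pi2 _)
  have hsN : Matrix.scalar (Option (Option I)) l * N = N * Matrix.scalar _ l := scalar_NN h.lz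
  have hs1 : Matrix.scalar (Option (Option I)) l * (1 + N) = (1 + N) * Matrix.scalar _ l := by
    rw [Matrix.mul_add, Matrix.add_mul, hsN, Matrix.mul_one, Matrix.one_mul]
  have hs2 : Matrix.scalar (Option (Option I)) l * (1 - N) = (1 - N) * Matrix.scalar _ l := by
    rw [Matrix.mul_sub, Matrix.sub_mul, hsN, Matrix.mul_one, Matrix.one_mul]
  have hconj : (1 - N) * (H + Matrix.scalar _ l) = (M + Matrix.scalar _ l) * (1 - N) := by
    rw [Matrix.mul_add, Matrix.add_mul, hs2, hHM, ← Matrix.mul_assoc, ← Matrix.mul_assoc, hmp,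
      Matrix.one_mul]
  have hconj' : (H + Matrix.scalar _ l) * (1 + N) = (1 + N) * (M + Matrix.scalar _ l) := by
    rw [Matrix.mul_add (1 + N), Matrix.add_mul H, hs1, hHM, Matrix.mul_assoc _ (1 - N), hmp,
      Matrix.mul_one]
  have hrow : ∀ α : Q, Pi.single (some none) α ᵥ* (M + Matrix.scalar (Option (Option I)) l) = 0 := by
    intro α
    funext b
    rw [Matrix.single_vecMul]
    rcases b with _ | _ | b <;> simp [hM, MM, Matrix.scalar_apply]
  have hu0 : (Pi.single (some none) 1 : Option (Option I) → Q) ᵥ* (1 - N) ≠ 0 := by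
    intro h0
    have h1 := congrArg (fun v => v ᵥ* (1 + N)) h0
    simp only [Matrix.vecMul_vecMul, hmp, Matrix.vecMul_one, Matrix.zero_vecMul] at h1
    have h2 := congrFun h1 (some none)
    simp at h2
  have hu : ((Pi.single (some none) 1 : Option (Option I) → Q) ᵥ* (1 - N))
      ᵥ* (H + Matrix.scalar _ l) = 0 := by
    rw [Matrix.vecMul_vecMul, hconj, ← Matrix.vecMul_vecMul, hrow, Matrix.zero_vecMul]
  have hlT : l ∈ T := hl ⟨_, inferInstance, inferInstance, H, _, hHT, hu0, hu⟩
  have hHl : ∀ a b, (H + Matrix.scalar (Option (Option I)) l) a b ∈ T := fun a b => by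
    rw [Matrix.add_apply, Matrix.scalar_apply, Matrix.diagonal_apply]
    refine T.add_mem (hHT a b) ?_
    split_ifs
    · exact hlT
    · exact T.zero_mem
  obtain ⟨v, hvT, hv0, hv⟩ := descend T hHl hu0 hu
  set w := v ᵥ* (1 + N) with hw
  have hwM : w ᵥ* (M + Matrix.scalar _ l) = 0 := by
    rw [hw, Matrix.vecMul_vecMul, ← hconj', ← Matrix.vecMul_vecMul, hv, Matrix.zero_vecMul]
  have hvw : v = w ᵥ* (1 - N) := by rw [hw, Matrix.vecMul_vecMul, hpm, Matrix.vecMul_one]
  have hwp : w none = 0 := by
    have h1 := congrFun hwM none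
    simp only [Matrix.vecMul, dotProduct, Fintype.sum_option, hM, MM, Matrix.add_apply,
      Matrix.of_apply, Matrix.scalar_apply, Matrix.diagonal_apply, reduceCtorEq, if_true, if_false,
      add_zero, mul_zero, Finset.sum_const_zero, Pi.zero_apply] at h1
    rcases mul_eq_zero.1 h1 with h2 | h2
    · exact h2
    · exfalso
      have h3 := congrArg τ h2
      rw [map_add, map_sub, map_intCast, hτl, map_zero] at h3
      have h4 : (2 : Q) = 0 := by
        have h5 := congrArg₂ (fun x y => x - y) h3 h2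
        simp only [sub_zero] at h5
        rw [← h5, ← one_add_one_eq_two]; abel
      exact two_ne_zero h4
  have hwm : (fun b => w (some (some b))) = 0 := by
    refine shift_rows τ (M := hat J r) (c := l - (ε : Q)) (fun i j => hτr _ (hJ.sk_pi2 _)) ?_ ?_
    · rw [map_sub, map_intCast, hτl]; abel
    · funext c
      have h1 := congrFun hwM (some (some c))
      simp only [Matrix.vecMul, dotProduct, Fintype.sum_option, hM, MM, Matrix.add_apply,
        Matrix.of_apply, Matrix.scalar_apply, Matrix.diagonal_apply, reduceCtorEq,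
        if_false, add_zero, mul_zero, zero_add, hwp, zero_mul, Pi.zero_apply, Option.some.injEq]
        at h1
      simp only [Matrix.vecMul, dotProduct, Matrix.add_apply, Matrix.scalar_apply,
        Matrix.diagonal_apply, Pi.zero_apply]
      refine Eq.trans (Finset.sum_congr rfl fun b _ => ?_) h1
      congr 1
      split_ifs
      · abel
      · rw [add_zero, sub_zero, add_zero]
  have hwb : ∀ b, w (some (some b)) = 0 := fun b => congrFun hwm b
  have hvi : ∀ i, v i = w (some none) * (1 - N) (some none) i := fun i => by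
    rw [hvw]
    simp only [Matrix.vecMul, dotProduct, Fintype.sum_option, hwp, hwb, zero_mul, zero_add,
      Finset.sum_const_zero, add_zero]
  have hα : v (some none) = w (some none) := by
    rw [hvi]; simp [hN, NN]
  have hα0 : w (some none) ≠ 0 := fun h0 => hv0 (funext fun i => by rw [hvi, h0, zero_mul]; rfl)
  have huT : ∀ i, (1 - N) (some none) i ∈ T := fun i => by
    have h1 : (1 - N) (some none) i = (w (some none))⁻¹ * v i := by
      rw [hvi i, ← mul_assoc, inv_mul_cancel₀ hα0, one_mul]
    rw [h1]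
    exact T.mul_mem (T.inv_mem (hα ▸ hvT _)) (hvT i)
  have hz0 : z none ∈ T := by
    have h1 := huT none
    simp only [hN, NN, Matrix.sub_apply, Matrix.one_apply, Matrix.of_apply, reduceCtorEq, if_false,
      zero_sub] at h1
    simpa using T.neg_mem h1
  have hyT : ∀ b, yy J z b ∈ T := fun b => by
    have h1 := huT (some (some b))
    simp only [hN, NN, Matrix.sub_apply, Matrix.one_apply, Matrix.of_apply, reduceCtorEq, if_false,
      zero_sub, Option.some.injEq] at h1
    simpa using T.neg_mem h1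
  have hzT : ∀ a, z a ∈ T := by
    rintro (_ | d)
    · exact hz0
    · rw [z_of_yy hJ z d]
      exact T.neg_mem (T.sum_mem fun b _ => smul_memT hs _ (hyT b))
  have hNT : ∀ a b, N a b ∈ T := by
    intro a b
    rcases a with _ | _ | a <;> rcases b with _ | _ | b <;>
      first
        | exact T.zero_mem
        | exact hzT _
        | exact hyT _
  have hMT : ∀ a b, M a b ∈ T := by
    have h1 : M = (1 - N) * H * (1 + N) := by
      rw [hHM, ← Matrix.mul_assoc, ← Matrix.mul_assoc, hmp, Matrix.one_mul, Matrix.mul_assoc, hmp,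
        Matrix.mul_one]
    rw [h1]
    exact ent_mul T (ent_mul T (fun a b => T.sub_mem (ent_one T a b) (hNT a b)) hHT)
      fun a b => T.add_mem (ent_one T a b) (hNT a b)
  have hx0 : ξ none ∈ T := by
    have h1 : -(2 * ξ none) ∈ T := hMT none (some none)
    have h2 : ξ none = (2 : Q)⁻¹ * -(-(2 * ξ none)) := by
      rw [neg_neg, ← mul_assoc, inv_mul_cancel₀ two_ne_zero, one_mul]
    rw [h2]
    exact T.mul_mem (T.inv_mem (by exact_mod_cast natCast_mem T 2)) (T.neg_mem h1)
  have hxT : ∀ a, ξ a ∈ T := by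
    rintro (_ | c)
    · exact hx0
    · have h1 : -(ξ (some c) + yy J z c * ξ none) ∈ T := hMT none (some (some c))
      have h2 : ξ (some c) = -(-(ξ (some c) + yy J z c * ξ none)) - yy J z c * ξ none := by abel
      rw [h2]
      exact T.sub_mem (T.neg_mem h1) (T.mul_mem (hyT c) hx0)
  have hhT : ∀ b c, hat J r b c ∈ T := fun b c => by
    have h1 : hat J r b c - (if b = c then (ε : Q) else 0) ∈ T :=
      hMT (some (some b)) (some (some c))
    have h2 : (if b = c then (ε : Q) else 0) ∈ T := by
      split_ifs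
      · exact intCast_mem T ε
      · exact T.zero_mem
    simpa using T.add_mem h1 h2
  refine ⟨fun X hX => ?_, hzT, hxT, hlT⟩
  rw [← hJ.sum_hat hX r]
  exact smul_memT hs _ (T.sum_mem fun i _ => T.sum_mem fun k _ => smul_memT hs _ (hhT k i))

end Pool.Agent.Lib.MP_75bae7_al.Cn
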