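import Pool.Agent.Lib.MP_75bae7_al.Cn.StepA

/-!
Triangular form of the matrix of generators after one step.
-/

set_option autoImplicit false
set_option linter.unusedSectionVars false

namespace Pool.Agent.Lib.MP_75bae7_al.Cn

open Matrix

variable {I : Type} [Fintype I] [DecidableEq I] {A : Type} [Ring A] [Algebra ℂ A]

/-- the upper triangular matrix conjugate to the matrix of generators -/
noncomputable def MM (J : Matrix I I ℂ) (ε : ℤ) (r : Matrix I I ℂ →ₗ[ℂ] A) (z ξ : Option I → A)
    (l : A) : Matrix (Option (Option I)) (Option (Option I)) A :=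
  Matrix.of fun a b => match a, b with
    | none, none => l - ((ε * (Fintype.card I + 2) : ℤ) : A)
    | none, some none => -(2 * ξ none)
    | none, some (some c) => -LL J z ξ (some c)
    | some none, some none => -l
    | some (some b), some none => -∑ c, J c b • LL J z ξ (some c)
    | some (some b), some (some c) => hat J r b c - if b = c then (ε : A) else 0
    | _, _ => 0

/-- the matrix dual to `T0` under the trace pairing -/
noncomputable def WW (J : Matrix I I ℂ) (r : Matrix I I ℂ →ₗ[ℂ] A) (z ξ : Option I → A)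
    (l : A) : Matrix (Option (Option I)) (Option (Option I)) A :=
  Matrix.of fun a b => match a, b with
    | none, none => l
    | none, some a => -LL J z ξ a
    | some (some k), some (some i) => (2⁻¹ : ℂ) • hat J r k i
    | _, _ => 0

theorem T0_eq (J : Matrix I I ℂ) (r : Matrix I I ℂ →ₗ[ℂ] A) (z ξ : Option I → A) (l : A)
    (Y : Matrix (Option (Option I)) (Option (Option I)) A) :
    T0 J r z ξ l Y = ∑ i, ∑ j, Y i j * WW J r z ξ l j i := by
  simp only [T0, WW, Fintype.sum_option, of_apply, mul_zero, Finset.sum_const_zero,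
    zero_add, mul_neg, Finset.sum_add_distrib, Finset.sum_neg_distrib, mul_smul_comm,
    Finset.smul_sum]
  abel

theorem conj_entry {O : Type} [Fintype O] [DecidableEq O] (B C : Matrix O O A) (X : Matrix O O ℂ)
    (i j : O) :
    (B * X.map (algebraMap ℂ A) * C) i j = ∑ k, ∑ m, X k m • (B i k * C m j) := by
  simp only [Matrix.mul_apply, Matrix.map_apply, Finset.sum_mul]
  rw [Finset.sum_comm]
  refine Finset.sum_congr rfl fun k _ => Finset.sum_congr rfl fun m _ => ?_
  rw [← Algebra.commutes, Algebra.smul_def, mul_assoc]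

theorem pi2_single {O : Type} [Fintype O] [DecidableEq O] (U : Matrix O O ℂ) (a b k m : O) :
    pi2 U (Matrix.single b a 1) k m
      = (if b = k ∧ a = m then 1 else 0) + U k a * U b m := by
  rw [pi2, Matrix.add_apply, transpose_single, Matrix.mul_apply, Finset.sum_eq_single b]
  · rw [Matrix.mul_single_apply_same, mul_one]; rfl
  · intro c _ hc
    rw [Matrix.mul_single_apply_of_ne _ _ _ _ _ hc, zero_mul]
  · intro hb; exact absurd (Finset.mem_univ b) hb

theorem conj_single {O : Type} [Fintype O] [DecidableEq O] (U : Matrix O O ℂ)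
    (B C : Matrix O O A) (a b i j : O) :
    (B * (pi2 U (Matrix.single b a 1)).map (algebraMap ℂ A) * C) i j
      = B i b * C a j + (∑ k, U k a • B i k) * ∑ m, U b m • C m j := by
  rw [conj_entry]
  simp only [pi2_single, add_smul, Finset.sum_add_distrib]
  congr 1
  · rw [Finset.sum_eq_single b, Finset.sum_eq_single a]
    · simp
    · intro c _ hc; simp [hc.symm]
    · intro hb; exact absurd (Finset.mem_univ a) hb
    · intro c _ hc; simp [hc.symm]
    · intro hb; exact absurd (Finset.mem_univ b) hb
  · rw [Finset.sum_mul_sum]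
    refine Finset.sum_congr rfl fun k _ => Finset.sum_congr rfl fun m _ => ?_
    rw [smul_mul_smul_comm]

theorem J_anti {J : Matrix I I ℂ} (hJ : IsJ J) (a b : I) : J a b = -J b a := by
  have := congrFun (congrFun hJ.anti b) a
  simpa using this

theorem J_sq {J : Matrix I I ℂ} (hJ : IsJ J) (a b : I) :
    ∑ c, J a c * J c b = -if a = b then 1 else 0 := by
  have := congrFun (congrFun hJ.sq a) b
  rw [Matrix.mul_apply, Matrix.neg_apply, Matrix.one_apply] at this
  exact this

theorem sum_J_yy {J : Matrix I I ℂ} (hJ : IsJ J) (z : Option I → A) (b : I) :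
    ∑ c, J c b • yy J z c = -z (some b) := by
  simp only [yy, Finset.smul_sum, smul_smul]
  rw [Finset.sum_comm]
  have : ∀ d, ∑ c, (J c b * J d c) • z (some d) = -if d = b then z (some d) else 0 := fun d => by
    rw [← Finset.sum_smul]
    simp only [mul_comm (J _ b), J_sq hJ]
    split_ifs <;> simp
  simp [this]

theorem sum_J_yy' {J : Matrix I I ℂ} (hJ : IsJ J) (z : Option I → A) (b : I) :
    ∑ c, J b c • yy J z c = z (some b) := by
  have := sum_J_yy hJ z b
  simp only [J_anti hJ _ b, neg_smul, Finset.sum_neg_distrib] at this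
  exact neg_injective this

theorem sum_J_z {J : Matrix I I ℂ} (hJ : IsJ J) (z : Option I → A) (b : I) :
    ∑ c, J b c • z (some c) = -yy J z b := by
  simp only [yy, J_anti hJ b, neg_smul, Finset.sum_neg_distrib]

theorem QU {J : Matrix I I ℂ} (hJ : IsJ J) (z : Option I → A) (i a : Option (Option I)) :
    ∑ k, upJ J k a • (1 - NN J z) i k = ∑ k, upJ J i k • (1 + NN J z) a k := by
  rcases i with _ | _ | i <;> rcases a with _ | _ | a <;>
    simp [Fintype.sum_option, upJ, NN, Matrix.one_apply, sum_J_yy hJ, sum_J_yy' hJ]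

theorem UP {J : Matrix I I ℂ} (hJ : IsJ J) (z : Option I → A) (b j : Option (Option I)) :
    ∑ m, upJ J b m • (1 + NN J z) m j = ∑ m, upJ J m j • (1 - NN J z) m b := by
  rcases b with _ | _ | b <;> rcases j with _ | _ | j <;>
    simp [Fintype.sum_option, upJ, NN, Matrix.one_apply, sum_J_z hJ]
  rfl

theorem hat_JJ {J : Matrix I I ℂ} (hJ : IsJ J) (r : Matrix I I ℂ →ₗ[ℂ] A) (a b : I) :
    ∑ c, ∑ d, (J c a * J b d) • hat J r d c = hat J r a b := by
  have h1 : ∑ c, ∑ d, (J c a * J b d) • pi2 J (Matrix.single c d 1)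
      = pi2 J (Matrix.single b a 1) := by
    ext k m
    simp only [Matrix.sum_apply, Matrix.smul_apply, pi2_single, smul_eq_mul, mul_add,
      Finset.sum_add_distrib]
    rw [add_comm]
    congr 1
    · have : ∀ c d, J c a * J b d * (J k d * J c m) = (J a c * J c m) * (J b d * J d k) :=
        fun c d => by rw [J_anti hJ c a, J_anti hJ k d]; ring
      simp only [this]
      rw [← Finset.sum_mul_sum, J_sq hJ, J_sq hJ]
      by_cases h1 : b = k <;> by_cases h2 : a = m <;> simp [h1, h2]
    · rw [Finset.sum_eq_single k, Finset.sum_eq_single m]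
      · simp
      · intro c _ hc; simp [hc]
      · intro hb; exact absurd (Finset.mem_univ m) hb
      · intro c _ hc; simp [hc]
      · intro hb; exact absurd (Finset.mem_univ k) hb
  simp only [hat, of_apply, ← map_smul, ← map_sum, h1]

theorem WW_add {J : Matrix I I ℂ} (hJ : IsJ J) (r : Matrix I I ℂ →ₗ[ℂ] A) (z ξ : Option I → A)
    (l : A) (k m : Option (Option I)) :
    WW J r z ξ l k m + ∑ i, ∑ j, (upJ J i k * upJ J m j) • WW J r z ξ l j i
      = MM J 0 r z ξ l k m := by
  rcases k with _ | _ | k <;> rcases m with _ | _ | m <;>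
    simp [Fintype.sum_option, upJ, WW, MM, LL]
  · rw [two_mul]; abel
  · have := hat_JJ hJ r k m
    simp only [smul_comm _ (2⁻¹ : ℂ), ← Finset.smul_sum, this, ← add_smul]
    norm_num

theorem NN_comm {J : Matrix I I ℂ} {z : Option I → A} {x : A} (hz : ∀ a, Commute x (z a))
    (i j : Option (Option I)) : Commute x (NN J z i j) := by
  rcases i with _ | _ | i <;> rcases j with _ | _ | j <;>
    simp only [NN, of_apply, Commute.zero_right, hz]
  exact Commute.sum_right _ _ _ fun c _ => (hz _).smul_right _

section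
variable {J : Matrix I I ℂ} {ε : ℤ} {r : Matrix I I ℂ →ₗ[ℂ] A} {z ξ : Option I → A} {l : A}

theorem comm_yy {x : A} (hz : ∀ a, Commute x (z (some a))) (b : I) : Commute x (yy J z b) :=
  Commute.sum_right _ _ _ fun c _ => (hz c).smul_right _

theorem Ok1.xz' (h : Ok1 J ε r z ξ l) (a b : Option I) :
    ξ a * z b = z b * ξ a + if a = b then (ε : A) else 0 := by
  rw [← h.xz a b]; abel

theorem Ok1.x0z (h : Ok1 J ε r z ξ l) (d : I) : Commute (ξ none) (z (some d)) := by
  have : ξ none * z (some d) = z (some d) * ξ none := by simpa using h.xz' none (some d)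
  exact this

theorem Ok1.LL_z_some (h : Ok1 J ε r z ξ l) (c d : I) :
    LL J z ξ (some c) * z (some d)
      = z (some d) * LL J z ξ (some c) + if c = d then (ε : A) else 0 := by
  have h1 : Commute (z (some d)) (yy J z c) := comm_yy (fun a => h.zz _ _) c
  simp only [LL, add_mul, mul_add, h.xz' (some c) (some d), Option.some.injEq]
  rw [mul_assoc, (h.x0z d).eq, ← mul_assoc, ← h1.eq, mul_assoc]
  abel

theorem Ok1.LL_z_none (h : Ok1 J ε r z ξ l) (c : I) :
    LL J z ξ (some c) * z none = z none * LL J z ξ (some c) + (ε : A) * yy J z c := by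
  have h1 : Commute (z none) (yy J z c) := comm_yy (fun a => h.zz _ _) c
  have h2 : ξ (some c) * z none = z none * ξ (some c) := by simpa using h.xz' (some c) none
  have h3 : ξ none * z none = z none * ξ none + ε := by simpa using h.xz' none none
  simp only [LL, add_mul, mul_add, h2]
  rw [mul_assoc, h3, mul_add, ← mul_assoc, ← h1.eq, mul_assoc, (Int.cast_commute ε _).eq]
  abel

theorem Ok1.LL_yy (h : Ok1 J ε r z ξ l) (c b : I) :
    LL J z ξ (some c) * yy J z b = yy J z b * LL J z ξ (some c) + J c b • (ε : A) := by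
  rw [yy, Finset.mul_sum, Finset.sum_mul]
  simp only [mul_smul_comm, smul_mul_assoc, h.LL_z_some, smul_add, Finset.sum_add_distrib]
  congr 1
  rw [Finset.sum_eq_single c]
  · simp
  · intro d _ hd; simp [hd.symm]
  · intro hb; exact absurd (Finset.mem_univ c) hb

theorem swap_MM (hJ : IsJ J) (h : Ok1 J ε r z ξ l) (j b : Option (Option I)) :
    ∑ i, (1 - NN J z) i b * MM J 0 r z ξ l j i = ∑ i, MM J ε r z ξ l j i * (1 - NN J z) i b := by
  have hh : ∀ a c d, hat J r a c * z d = z d * hat J r a c := fun a c d =>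
    (h.rz _ (hJ.sk_pi2 _) d).eq
  rcases j with _ | _ | j <;> rcases b with _ | _ | b <;>
    simp [Fintype.sum_option, NN, MM, Matrix.one_apply]
  · have h3 : ξ none * z none = z none * ξ none + ε := by simpa using h.xz' none none
    simp only [h.LL_z_some, if_true, Finset.sum_add_distrib, Finset.sum_const, Finset.card_univ,
      nsmul_eq_mul, two_mul, mul_add, add_mul, h3, (Int.cast_commute ε _).eq]
    abel
  · have h1 : Commute (ξ none) (yy J z b) := comm_yy h.x0z b
    rw [two_mul, mul_add, add_mul, h1.eq]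
  · exact (h.lz none).eq.symm
  · exact (comm_yy (fun a => h.lz _) b).eq.symm
  · have h1 : ∑ x, (if j = x then (ε : A) else 0) * z (some x) = ε * z (some j) := by simp
    have h2 : ∑ c, J c j • ((ε : A) * yy J z c) = -(ε * z (some j)) := by
      simp only [← mul_smul_comm, ← Finset.mul_sum, sum_J_yy hJ, mul_neg]
    simp only [sub_mul, Finset.sum_sub_distrib, h1, hh, Finset.mul_sum, Finset.sum_mul,
      smul_mul_assoc, mul_smul_comm, h.LL_z_none, smul_add, Finset.sum_add_distrib, h2]
    abel
  · have h2 : ∑ c, J c j • J c b • (ε : A) = if j = b then (ε : A) else 0 := by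
      simp only [smul_smul, J_anti hJ _ j, neg_mul, ← Finset.sum_smul, Finset.sum_neg_distrib,
        J_sq hJ, neg_neg]
      split_ifs <;> simp
    simp only [Finset.mul_sum, Finset.sum_mul, smul_mul_assoc, mul_smul_comm, h.LL_yy, smul_add,
      Finset.sum_add_distrib, h2]
    abel

end

theorem four_sum {O : Type} [Fintype O] (U : Matrix O O ℂ) (p q : O → A) (W : Matrix O O A) :
    ∑ i, ∑ j, ((∑ k, U i k • p k) * ∑ m, U m j • q m) * W j i
      = ∑ k, ∑ m, p k * q m * ∑ i, ∑ j, (U i k * U m j) • W j i := by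
  have h1 : ∀ f : O → O → O → O → A,
      ∑ i, ∑ j, ∑ k, ∑ m, f i j k m = ∑ k, ∑ m, ∑ i, ∑ j, f i j k m := fun f =>
    calc ∑ i, ∑ j, ∑ k, ∑ m, f i j k m = ∑ i, ∑ k, ∑ j, ∑ m, f i j k m :=
          Finset.sum_congr rfl fun _ _ => Finset.sum_comm
      _ = ∑ k, ∑ i, ∑ j, ∑ m, f i j k m := Finset.sum_comm
      _ = ∑ k, ∑ i, ∑ m, ∑ j, f i j k m :=
          Finset.sum_congr rfl fun _ _ => Finset.sum_congr rfl fun _ _ => Finset.sum_comm
      _ = ∑ k, ∑ m, ∑ i, ∑ j, f i j k m := Finset.sum_congr rfl fun _ _ => Finset.sum_comm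
  have h2 : ∀ i j, ((∑ k, U i k • p k) * ∑ m, U m j • q m) * W j i
      = ∑ k, ∑ m, (U i k * U m j) • (p k * q m * W j i) := fun i j => by
    rw [Finset.sum_mul_sum, Finset.sum_mul]
    refine Finset.sum_congr rfl fun k _ => ?_
    rw [Finset.sum_mul]
    refine Finset.sum_congr rfl fun m _ => ?_
    rw [smul_mul_smul_comm, smul_mul_assoc]
  simp only [h2]
  rw [h1]
  simp only [Finset.mul_sum, mul_smul_comm]

theorem hat_step {J : Matrix I I ℂ} (hJ : IsJ J) {ε : ℤ} {r : Matrix I I ℂ →ₗ[ℂ] A}
    {z ξ : Option I → A} {l : A} (h : Ok1 J ε r z ξ l) :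
    hat (upJ J) (stepE J r z ξ l) = (1 + NN J z) * MM J ε r z ξ l * (1 - NN J z) := by
  ext a b
  have hc : ∀ i j, (1 - NN J z) i b * (1 + NN J z) a j = (1 + NN J z) a j * (1 - NN J z) i b :=
    fun i j => by
      have h1 : ∀ x y : Option (Option I), ∀ w : A,
          Commute w ((1 : Matrix (Option (Option I)) (Option (Option I)) A) x y) := fun x y w => by
        rw [Matrix.one_apply]; split_ifs
        · exact Commute.one_right _
        · exact Commute.zero_right _
      have h2 : Commute (NN J z i b) (NN J z a j) :=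
        NN_comm (fun c => (NN_comm (fun d => h.zz c d) i b).symm) a j
      rw [Matrix.sub_apply, Matrix.add_apply]
      exact (Commute.add_right (h1 _ _ _) (Commute.sub_left (h1 _ _ _).symm h2)).eq
  rw [hat, of_apply, stepE_apply, T0_eq, Matrix.mul_assoc (1 + NN J z), Matrix.mul_apply]
  simp only [conj_single, QU hJ, UP hJ, hc]
  simp only [add_mul _ _ (WW J r z ξ l _ _), Finset.sum_add_distrib, four_sum]
  rw [Finset.sum_comm, ← Finset.sum_add_distrib]
  refine Finset.sum_congr rfl fun k _ => ?_
  rw [Matrix.mul_apply, ← swap_MM hJ h, Finset.mul_sum, ← Finset.sum_add_distrib]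
  refine Finset.sum_congr rfl fun m _ => ?_
  rw [← mul_add, WW_add hJ, mul_assoc]

end Pool.Agent.Lib.MP_75bae7_al.Cn
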