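import Pool.Agent.Lib.MP_75bae7_al.Cn.StepA

/-!
One step of parabolic induction gives a Lie homomorphism.
-/

set_option autoImplicit false
set_option linter.unusedSectionVars false

namespace Pool.Agent.Lib.MP_75bae7_al.Cn

open Matrix

variable {I : Type} [Fintype I] [DecidableEq I] {J : Matrix I I ℂ}
  {A : Type} [Ring A] [Algebra ℂ A]

section Model
variable {C : Type} [CommRing C] [Algebra ℂ C]

/-- the alternating form on columns -/
noncomputable def slOm (J : Matrix I I ℂ) (u v : Option I → C) : C :=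
  ∑ b, yy J u b * v (some b)

theorem slOm_eq (u v : Option I → C) :
    slOm J u v = ∑ a, ∑ b, J a b • (u (some a) * v (some b)) := by
  rw [Finset.sum_comm]
  simp only [slOm, yy, Finset.sum_mul, smul_mul_assoc]

theorem slOm_anti (hJ : IsJ J) (u v : Option I → C) : slOm J u v = -slOm J v u := by
  rw [slOm_eq, slOm_eq, Finset.sum_comm, ← Finset.sum_neg_distrib]
  refine Finset.sum_congr rfl fun a _ => ?_
  rw [← Finset.sum_neg_distrib]
  refine Finset.sum_congr rfl fun b _ => ?_
  have : J b a = -J a b := congrFun (congrFun hJ.anti a) b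
  rw [this, neg_smul, mul_comm]

theorem sl_NN_mul (u v : Option I → C) :
    NN J u * NN J v = Matrix.single (some none) none (slOm J u v) := by
  ext a b
  rcases a with _ | _ | a <;> rcases b with _ | _ | b <;>
    simp [Matrix.mul_apply, Fintype.sum_option, NN, slOm, Matrix.single]

/-- values of the derivation attached to a column -/
noncomputable def slW (J : Matrix I I ℂ) (Z v : Option I → C) : Option I → C
  | none => v none + slOm J Z v
  | some c => v (some c)

theorem sl_NN_W (Z v : Option I → C) :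
    NN J (slW J Z v) = NN J v + Matrix.single (some none) none (slOm J Z v) := by
  ext a b
  rcases a with _ | _ | a <;> rcases b with _ | _ | b <;>
    simp [NN, slW, yy, Matrix.single]

theorem sl_der_mul {n : Type} [Fintype n] (D : Derivation ℂ C C) (P Q : Matrix n n C) :
    (P * Q).map D = P.map D * Q + P * Q.map D := by
  ext a b
  simp only [Matrix.map_apply, Matrix.mul_apply, Matrix.add_apply, map_sum, Derivation.leibniz,
    smul_eq_mul, ← Finset.sum_add_distrib]
  exact Finset.sum_congr rfl fun _ _ => by ring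

theorem sl_der_NN (D : Derivation ℂ C C) (Z : Option I → C) :
    (NN J Z).map D = NN J fun a => D (Z a) := by
  ext a b
  rcases a with _ | _ | a <;> rcases b with _ | _ | b <;> simp [NN, yy]

theorem sl_der_conj (hJ : IsJ J) (D : Derivation ℂ C C) {Z v : Option I → C}
    (hD : ∀ a, D (Z a) = slW J Z v a) (X : Matrix (Option (Option I)) (Option (Option I)) ℂ) :
    ((1 - NN J Z) * X.map (algebraMap ℂ C) * (1 + NN J Z)).map D
      = (1 - NN J Z) * X.map (algebraMap ℂ C) * (1 + NN J Z) * NN J v
        - NN J v * ((1 - NN J Z) * X.map (algebraMap ℂ C) * (1 + NN J Z)) := by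
  have h1 : (1 : Matrix (Option (Option I)) (Option (Option I)) C).map D = 0 := by
    ext a b
    by_cases e : a = b <;> simp [e]
  have h2 : (X.map (algebraMap ℂ C)).map D = 0 := by
    ext a b
    simp
  have h3 : (NN J Z).map D = NN J (slW J Z v) := by rw [sl_der_NN]; simp only [hD]
  have h4 : (1 + NN J Z).map D = (1 + NN J Z) * NN J v := by
    rw [Matrix.map_add _ (map_add D), h1, h3, sl_NN_W, add_mul, one_mul, sl_NN_mul, zero_add]
  have h5 : (1 - NN J Z).map D = -(NN J v * (1 - NN J Z)) := by
    rw [Matrix.map_sub _ (map_sub D), h1, h3, sl_NN_W, mul_sub, mul_one, sl_NN_mul,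
      slOm_anti hJ v Z, zero_sub, ← Matrix.single_neg, sub_neg_eq_add]
  rw [sl_der_mul, sl_der_mul, h2, h4, h5]
  noncomm_ring

/-- the first column below the corner -/
def slCol (Y : Matrix (Option (Option I)) (Option (Option I)) C) (a : Option I) : C :=
  Y (some a) none

/-- the middle block -/
def slMid (Y : Matrix (Option (Option I)) (Option (Option I)) C) : Matrix I I C :=
  Y.submatrix (fun i => some (some i)) fun i => some (some i)

theorem sl_blocks {Y Y' : Matrix (Option (Option I)) (Option (Option I)) C}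
    (hY : ∀ b, Y (some none) (some (some b)) = ∑ c, J c b • Y (some (some c)) none)
    (hY' : ∀ b, Y' (some none) (some (some b)) = ∑ c, J c b • Y' (some (some c)) none)
    {G : Matrix (Option (Option I)) (Option (Option I)) C}
    (hG : G = Y * Y' - Y' * Y + (Y' * NN J (slCol Y) - NN J (slCol Y) * Y')
      - (Y * NN J (slCol Y') - NN J (slCol Y') * Y)) :
    G none none = 0 ∧ G (some none) none = slOm J (slCol Y') (slCol Y) - slOm J (slCol Y) (slCol Y')
      ∧ (∀ i, G (some (some i)) none = 0) ∧ slMid G = slMid Y * slMid Y' - slMid Y' * slMid Y := by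
  have key : ∀ {P P' : Matrix (Option (Option I)) (Option (Option I)) C},
      (∀ b, P' (some none) (some (some b)) = ∑ c, J c b • P' (some (some c)) none) →
      (∀ a, ((P - NN J (slCol P)) * (P' - NN J (slCol P'))) a none
        = (P - NN J (slCol P)) a none * P' none none) ∧
      slMid ((P - NN J (slCol P)) * (P' - NN J (slCol P'))) = slMid P * slMid P' := by
    intro P P' h
    refine ⟨fun a => ?_, ?_⟩
    · rw [Matrix.mul_apply, Fintype.sum_option]
      simp [NN, slCol]
    · ext i k
      simp [slMid, Matrix.mul_apply, Fintype.sum_option, NN, slCol, yy, h]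
  have e : G = (Y - NN J (slCol Y)) * (Y' - NN J (slCol Y'))
      - (Y' - NN J (slCol Y')) * (Y - NN J (slCol Y))
      - (NN J (slCol Y) * NN J (slCol Y') - NN J (slCol Y') * NN J (slCol Y)) := by
    rw [hG]; noncomm_ring
  obtain ⟨k1, k2⟩ := key (P := Y) hY'
  obtain ⟨k3, k4⟩ := key (P := Y') hY
  rw [sl_NN_mul, sl_NN_mul] at e
  refine ⟨?_, ?_, fun i => ?_, ?_⟩
  · rw [e, Matrix.sub_apply, Matrix.sub_apply, k1, k3]
    simp [NN, Matrix.single, mul_comm]
  · rw [e, Matrix.sub_apply, Matrix.sub_apply, k1, k3]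
    simp [NN, slCol]
  · rw [e, Matrix.sub_apply, Matrix.sub_apply, k1, k3]
    simp [NN, slCol, Matrix.single]
  · rw [← k2, ← k4, e]
    ext i k
    simp [slMid, Matrix.single]

theorem sl_pi2_sum (M : Matrix I I C) :
    ∑ i, ∑ k, M i k • (pi2 J (Matrix.single i k 1)).map (algebraMap ℂ C)
      = M + J.map (algebraMap ℂ C) * Mᵀ * J.map (algebraMap ℂ C) := by
  have h1 : ∀ i k : I, (pi2 J (Matrix.single i k 1)).map (algebraMap ℂ C)
      = Matrix.single i k 1 + J.map (algebraMap ℂ C) * (Matrix.single i k (1 : C))ᵀ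
        * J.map (algebraMap ℂ C) := fun i k => by
    have h2 : (Matrix.single i k (1 : ℂ)).map (algebraMap ℂ C) = Matrix.single i k 1 := by
      ext a b
      by_cases e : i = a ∧ k = b <;> simp [Matrix.single, e]
    rw [pi2, Matrix.map_add _ (map_add _), Matrix.map_mul, Matrix.map_mul, transpose_map, h2]
  conv_rhs => rw [Matrix.matrix_eq_sum_single M]
  simp only [h1, smul_add, Finset.sum_add_distrib, transpose_sum, Finset.mul_sum, Finset.sum_mul]
  congr 1
  · simp
  · refine Finset.sum_congr rfl fun i _ => Finset.sum_congr rfl fun k _ => ?_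
    rw [← Matrix.smul_mul, ← Matrix.mul_smul, ← transpose_smul]; simp

theorem sl_span (hJ : IsJ J) {M : Matrix I I C}
    (hM : Mᵀ * J.map (algebraMap ℂ C) = J.map (algebraMap ℂ C) * (-M)) :
    M ∈ Submodule.span C {P : Matrix I I C | ∃ X, Sk J X ∧ P = X.map (algebraMap ℂ C)} := by
  have h1 : J.map (algebraMap ℂ C) * J.map (algebraMap ℂ C) = -1 := by
    rw [← Matrix.map_mul, hJ.sq, Matrix.map_neg _ (map_neg _),
      Matrix.map_one _ (map_zero _) (map_one _)]
  have h2 := sl_pi2_sum (J := J) M
  rw [Matrix.mul_assoc, hM, ← Matrix.mul_assoc, h1] at h2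
  have h3 : M = algebraMap ℂ C 2⁻¹ • (M + -1 * -M) := by
    rw [algebraMap_smul, neg_mul_neg, one_mul, ← two_smul ℂ, smul_smul]
    norm_num
  rw [h3, ← h2]
  exact Submodule.smul_mem _ _ (Submodule.sum_mem _ fun i _ => Submodule.sum_mem _ fun k _ =>
    Submodule.smul_mem _ _ (Submodule.subset_span ⟨_, hJ.sk_pi2 _, rfl⟩))

/-- the middle operator -/
noncomputable def slR (J : Matrix I I ℂ) (r : Matrix I I ℂ →ₗ[ℂ] A) (c : C →ₐ[ℂ] A)
    (M : Matrix I I C) : A := (2⁻¹ : ℂ) • ∑ i, ∑ k, c (M i k) * hat J r k i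

variable {r : Matrix I I ℂ →ₗ[ℂ] A} {c : C →ₐ[ℂ] A}

theorem slR_add (M M' : Matrix I I C) : slR J r c (M + M') = slR J r c M + slR J r c M' := by
  simp only [slR, Matrix.add_apply, map_add, add_mul, Finset.sum_add_distrib, smul_add]

theorem slR_sub (M M' : Matrix I I C) : slR J r c (M - M') = slR J r c M - slR J r c M' := by
  simp only [slR, Matrix.sub_apply, map_sub, sub_mul, Finset.sum_sub_distrib, smul_sub]

theorem slR_zero : slR J r c 0 = 0 := by simp [slR]

theorem slR_smul (f : C) (M : Matrix I I C) : slR J r c (f • M) = c f * slR J r c M := by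
  simp only [slR, Matrix.smul_apply, smul_eq_mul, map_mul, mul_smul_comm, Finset.mul_sum,
    mul_assoc]

theorem slR_map (hJ : IsJ J) {X : Matrix I I ℂ} (hX : Sk J X) :
    slR J r c (X.map (algebraMap ℂ C)) = r X := by
  rw [← hJ.sum_hat hX r]
  simp only [slR, Matrix.map_apply, AlgHom.commutes, Algebra.smul_def]

theorem slR_comm (hJ : IsJ J) {x : A} (h1 : ∀ f, Commute x (c f))
    (h2 : ∀ X, Sk J X → Commute x (r X)) (M : Matrix I I C) : Commute x (slR J r c M) :=
  (Commute.sum_right _ _ _ fun _ _ => Commute.sum_right _ _ _ fun _ _ =>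
    (h1 _).mul_right (h2 _ (hJ.sk_pi2 _))).smul_right _

theorem sl_sk_br {X Y : Matrix I I ℂ} (hX : Sk J X) (hY : Sk J Y) : Sk J (X * Y - Y * X) := by
  unfold Sk at *
  rw [transpose_sub, transpose_mul, transpose_mul, Matrix.sub_mul, Matrix.mul_assoc, hX,
    Matrix.mul_assoc, hY, ← Matrix.mul_assoc, hY, ← Matrix.mul_assoc, hX]
  noncomm_ring

theorem slR_br (hJ : IsJ J) (hr : IsLie J r) (hc : ∀ X, Sk J X → ∀ f, Commute (c f) (r X))
    {M M' : Matrix I I C}
    (hM : Mᵀ * J.map (algebraMap ℂ C) = J.map (algebraMap ℂ C) * (-M))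
    (hM' : M'ᵀ * J.map (algebraMap ℂ C) = J.map (algebraMap ℂ C) * (-M')) :
    slR J r c M * slR J r c M' - slR J r c M' * slR J r c M = slR J r c (M * M' - M' * M) := by
  have cm : ∀ f N, Commute (c f) (slR J r c N) := fun f N =>
    slR_comm hJ (fun g => (Commute.all f g).map c) (fun X hX => hc X hX f) N
  have h1 := sl_span hJ hM
  have h2 := sl_span hJ hM'
  clear hM hM'
  induction h1 using Submodule.span_induction with
  | mem P hP =>
    obtain ⟨X, hX, rfl⟩ := hP
    induction h2 using Submodule.span_induction with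
    | mem P hP =>
      obtain ⟨Y, hY, rfl⟩ := hP
      rw [← Matrix.map_mul, ← Matrix.map_mul, ← Matrix.map_sub _ (map_sub _), slR_map hJ hX,
        slR_map hJ hY, slR_map hJ (sl_sk_br hX hY), hr X Y hX hY]
    | zero => simp [slR_zero]
    | add P Q _ _ i1 i2 =>
      rw [slR_add, mul_add, add_mul, add_sub_add_comm, i1, i2, ← slR_add]
      congr 1
      noncomm_ring
    | smul f P _ i1 =>
      rw [slR_smul, Matrix.mul_smul, Matrix.smul_mul, ← smul_sub, slR_smul, ← i1, mul_sub,
        ← mul_assoc, ← (cm f _).eq, mul_assoc, mul_assoc]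
  | zero => simp [slR_zero]
  | add P Q _ _ i1 i2 =>
    rw [slR_add, mul_add, add_mul, add_sub_add_comm, i1, i2, ← slR_add]
    congr 1
    noncomm_ring
  | smul f P _ i1 =>
    rw [slR_smul, Matrix.mul_smul, Matrix.smul_mul, ← smul_sub, slR_smul, ← i1, mul_sub,
      ← mul_assoc (slR J r c M'), ← (cm f _).eq, mul_assoc, mul_assoc]

/-- the vector field attached to a column -/
noncomputable def slV (c : C →ₐ[ℂ] A) (L : Option I → A) (v : Option I → C) : A :=
  ∑ a, c (v a) * L a

theorem slV_mul {L : Option I → A} {v : Option I → C} {D : C → C}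
    (hD : ∀ f, slV c L v * c f = c f * slV c L v + c (D f)) (v' : Option I → C) :
    slV c L v * slV c L v'
      = ∑ a, ∑ b, c (v a * v' b) * (L a * L b) + slV c L fun b => D (v' b) := by
  have : slV c L v * slV c L v' = ∑ b, slV c L v * c (v' b) * L b := by
    conv_lhs => rw [slV.eq_1 c L v', Finset.mul_sum]
    simp only [mul_assoc]
  rw [this, Finset.sum_comm]
  simp only [hD, add_mul, Finset.sum_add_distrib]
  congr 1
  refine Finset.sum_congr rfl fun b _ => ?_
  rw [slV, Finset.mul_sum, Finset.sum_mul]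
  refine Finset.sum_congr rfl fun a _ => ?_
  rw [mul_comm (v a), map_mul]
  simp only [mul_assoc]

theorem slV_R (hJ : IsJ J) {L : Option I → A} {v : Option I → C} {D : C → C}
    (hD : ∀ f, slV c L v * c f = c f * slV c L v + c (D f))
    (h2 : ∀ X, Sk J X → Commute (slV c L v) (r X)) (M : Matrix I I C) :
    slV c L v * slR J r c M = slR J r c M * slV c L v + slR J r c (M.map D) := by
  simp only [slR, mul_smul_comm, smul_mul_assoc, ← smul_add, Finset.mul_sum, Finset.sum_mul,
    ← Finset.sum_add_distrib, Matrix.map_apply]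
  congr 1
  refine Finset.sum_congr rfl fun i _ => Finset.sum_congr rfl fun k _ => ?_
  have : Commute (slV c L v) (hat J r k i) := h2 _ (hJ.sk_pi2 _)
  rw [← mul_assoc, hD, add_mul, mul_assoc, this.eq, mul_assoc]

end Model

section Rel
variable {r : Matrix I I ℂ →ₗ[ℂ] A} {z ξ : Option I → A} {l : A}

theorem sl_yy_comm {x : A} (h : ∀ a, Commute x (z (some a))) (b : I) : Commute x (yy J z b) :=
  Commute.sum_right _ _ _ fun a _ => (h a).smul_right _

theorem sl_LL_comm {x : A} (h : ∀ a, Commute x (z a)) (h' : ∀ a, Commute x (ξ a))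
    (b : Option I) : Commute x (LL J z ξ b) := by
  rcases b with _ | b
  · exact h' _
  · exact (h' _).add_right ((sl_yy_comm (fun a => h _) b).mul_right (h' _))

theorem Ok1.sl_xy (h : Ok1 J 1 r z ξ l) (a b : I) :
    ξ (some a) * yy J z b = yy J z b * ξ (some a) + algebraMap ℂ A (J a b) := by
  rw [← sub_eq_iff_eq_add', yy, Finset.mul_sum, Finset.sum_mul, ← Finset.sum_sub_distrib]
  simp only [mul_smul_comm, smul_mul_assoc, ← smul_sub, h.xz]
  simp [Algebra.algebraMap_eq_smul_one]

theorem Ok1.sl_x0 (h : Ok1 J 1 r z ξ l) (b : I) : Commute (ξ none) (yy J z b) :=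
  sl_yy_comm (fun a => by
    have := h.xz none (some a)
    rw [if_neg (by simp), sub_eq_zero] at this
    exact this) b

theorem Ok1.sl_LL (h : Ok1 J 1 r z ξ l) (a b : I) :
    LL J z ξ (some a) * LL J z ξ (some b) - LL J z ξ (some b) * LL J z ξ (some a)
      = (J a b - J b a) • ξ none := by
  have y1 : Commute (yy J z a) (yy J z b) :=
    sl_yy_comm (fun c => (sl_yy_comm (fun d => h.zz _ _) a).symm) b
  have y2 : Commute (yy J z a * ξ none) (yy J z b * ξ none) :=
    (y1.mul_right (h.sl_x0 a).symm).mul_left ((h.sl_x0 b).mul_right (Commute.refl _))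
  have e : ∀ a b : I, ξ (some a) * (yy J z b * ξ none)
      = yy J z b * ξ none * ξ (some a) + J a b • ξ none := fun a b => by
    rw [← mul_assoc, h.sl_xy, add_mul, mul_assoc, (h.xx _ _).eq, ← mul_assoc, Algebra.smul_def]
  simp only [LL, mul_add, add_mul, e, y2.eq, (h.xx (some a) (some b)).eq, sub_smul]
  abel

theorem Ok1.sl_L0 (h : Ok1 J 1 r z ξ l) (b : Option I) :
    Commute (LL J z ξ none) (LL J z ξ b) := by
  rcases b with _ | b
  · exact Commute.refl _
  · exact (h.xx _ _).add_right ((h.sl_x0 b).mul_right (Commute.refl _))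

theorem Ok1.sl_Lz (h : Ok1 J 1 r z ξ l) (a b : Option I) :
    LL J z ξ a * z b = z b * LL J z ξ a + ((if a = b then 1 else 0)
      + if b = none then a.elim 0 (yy J z) else 0) := by
  have e : ∀ a b, ξ a * z b = z b * ξ a + if a = b then 1 else 0 := fun a b => by
    rw [← sub_eq_iff_eq_add', h.xz]; simp
  rcases a with _ | a
  · simp [LL, e]
  · have y1 : Commute (z b) (yy J z a) := sl_yy_comm (fun c => h.zz _ _) a
    simp only [LL, add_mul, mul_add, mul_assoc, e, Option.elim]
    rw [← mul_assoc (yy J z a), ← y1.eq, mul_assoc]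
    rcases b with _ | b <;> simp <;> abel

end Rel

section Main
variable {r : Matrix I I ℂ →ₗ[ℂ] A} {z ξ : Option I → A} {l : A}
  {c : MvPolynomial (Option I) ℂ →ₐ[ℂ] A}

theorem sl_comm_c (hc : ∀ a, c (MvPolynomial.X a) = z a) {x : A} (h : ∀ a, Commute x (z a))
    (f : MvPolynomial (Option I) ℂ) : Commute x (c f) := by
  induction f using MvPolynomial.induction_on with
  | C a =>
    rw [← MvPolynomial.algebraMap_eq, AlgHom.commutes]
    exact (Algebra.commutes a x).symm
  | add f g i1 i2 => rw [map_add]; exact i1.add_right i2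
  | mul_X f a i1 => rw [map_mul, hc]; exact i1.mul_right (h a)

/-- the derivation attached to a column -/
noncomputable def slD (J : Matrix I I ℂ) (v : Option I → MvPolynomial (Option I) ℂ) :
    Derivation ℂ (MvPolynomial (Option I) ℂ) (MvPolynomial (Option I) ℂ) :=
  MvPolynomial.mkDerivation ℂ (slW J MvPolynomial.X v)

theorem slD_X (v : Option I → MvPolynomial (Option I) ℂ) (a : Option I) :
    slD J v (MvPolynomial.X a) = slW J MvPolynomial.X v a :=
  MvPolynomial.mkDerivation_X _ _ _

theorem Ok1.sl_V (h : Ok1 J 1 r z ξ l) (hc : ∀ a, c (MvPolynomial.X a) = z a)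
    (v : Option I → MvPolynomial (Option I) ℂ) (f : MvPolynomial (Option I) ℂ) :
    slV c (LL J z ξ) v * c f = c f * slV c (LL J z ξ) v + c (slD J v f) := by
  have hy : ∀ b, c (yy J MvPolynomial.X b) = yy J z b := fun b => by simp [yy, hc]
  have hz : ∀ b, slV c (LL J z ξ) v * z b
      = z b * slV c (LL J z ξ) v + c (slW J MvPolynomial.X v b) := fun b => by
    have e : ∀ a, c (v a) * z b = z b * c (v a) := fun a => by
      rw [← hc, ← map_mul, mul_comm, map_mul]
    simp only [slV, Finset.sum_mul, Finset.mul_sum, mul_assoc, h.sl_Lz, mul_add,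
      Finset.sum_add_distrib]
    simp only [← mul_assoc, e]
    congr 1
    rcases b with _ | b
    · simp [slW, slOm, Fintype.sum_option, ← hy, ← map_mul, mul_comm]
    · simp [slW]
  induction f using MvPolynomial.induction_on with
  | C a =>
    rw [← MvPolynomial.algebraMap_eq, AlgHom.commutes, Derivation.map_algebraMap, map_zero,
      add_zero]
    exact (Algebra.commutes a _).symm
  | add f g i1 i2 => rw [map_add, map_add, map_add, mul_add, add_mul, i1, i2]; abel
  | mul_X f a i1 =>
    rw [Derivation.leibniz, smul_eq_mul, smul_eq_mul, slD_X, mul_comm (MvPolynomial.X a),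
      map_add, map_mul, map_mul, map_mul, hc, ← mul_assoc, i1, add_mul, mul_assoc, hz]
    noncomm_ring

theorem sl_T0 (Y : Matrix (Option (Option I)) (Option (Option I)) (MvPolynomial (Option I) ℂ)) :
    T0 J r z ξ l (Y.map c)
      = -slV c (LL J z ξ) (slCol Y) + c (Y none none) * l + slR J r c (slMid Y) := rfl

theorem Ok1.sl_VV (h : Ok1 J 1 r z ξ l) (hc : ∀ a, c (MvPolynomial.X a) = z a)
    (v v' : Option I → MvPolynomial (Option I) ℂ) :
    slV c (LL J z ξ) v * slV c (LL J z ξ) v' - slV c (LL J z ξ) v' * slV c (LL J z ξ) v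
      = (slV c (LL J z ξ) fun b => slD J v (v' b)) - (slV c (LL J z ξ) fun b => slD J v' (v b))
        + c (slOm J v v' - slOm J v' v) * ξ none := by
  rw [slV_mul (h.sl_V hc v), slV_mul (h.sl_V hc v'), add_sub_add_comm, add_comm]
  congr 1
  rw [Finset.sum_comm (f := fun a b => c (v' a * v b) * (LL J z ξ a * LL J z ξ b)),
    ← Finset.sum_sub_distrib]
  simp only [← Finset.sum_sub_distrib, mul_comm (v' _), ← mul_sub]
  simp only [Fintype.sum_option, (h.sl_L0 _).eq, sub_self, mul_zero, Finset.sum_const_zero,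
    zero_add, h.sl_LL]
  rw [slOm_eq, slOm_eq, Finset.sum_comm (f := fun a b => J a b • (v' (some a) * v (some b))),
    ← Finset.sum_sub_distrib]
  simp only [← Finset.sum_sub_distrib, mul_comm (v' _), ← sub_smul, map_sum, Finset.sum_mul,
    map_smul, smul_mul_assoc, mul_smul_comm]

end Main

theorem step_lie (hJ : IsJ J) {r : Matrix I I ℂ →ₗ[ℂ] A} {z ξ : Option I → A} {l : A}
    (h : Ok1 J 1 r z ξ l) (hr : IsLie J r) : IsLie (upJ J) (stepE J r z ξ l) := by
  obtain ⟨c, hc⟩ := exists_commLift (R := ℂ) z fun a b => (h.zz a b).eq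
  have hE : ∀ X, stepE J r z ξ l X = T0 J r z ξ l
      (((1 - NN J MvPolynomial.X) * X.map (algebraMap ℂ (MvPolynomial (Option I) ℂ))
        * (1 + NN J MvPolynomial.X)).map c) := fun X => by
    rw [conj_map, stepE_apply]
    simp only [hc]
  intro X X' hX hX'
  have hN : (1 + NN J (MvPolynomial.X : Option I → MvPolynomial (Option I) ℂ))
      * (1 - NN J MvPolynomial.X) = 1 := by
    rw [add_mul, mul_sub, mul_sub, NN_sq hJ fun a b => Commute.all _ _]
    simp
  have hm : ∀ P Q : Matrix (Option (Option I)) (Option (Option I)) ℂ,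
      (1 - NN J MvPolynomial.X) * (P * Q).map (algebraMap ℂ (MvPolynomial (Option I) ℂ))
        * (1 + NN J MvPolynomial.X)
      = (1 - NN J MvPolynomial.X) * P.map (algebraMap ℂ (MvPolynomial (Option I) ℂ))
        * (1 + NN J MvPolynomial.X) * ((1 - NN J MvPolynomial.X)
          * Q.map (algebraMap ℂ (MvPolynomial (Option I) ℂ)) * (1 + NN J MvPolynomial.X)) := by
    intro P Q
    rw [Matrix.map_mul]
    simp only [mul_assoc]
    rw [← mul_assoc (1 + NN J MvPolynomial.X), hN, one_mul]
  rw [hE, hE, hE, Matrix.map_sub _ (map_sub _), mul_sub (1 - NN J MvPolynomial.X), sub_mul (_ * _),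
    hm, hm]
  obtain ⟨-, b1, -, b2⟩ := sk_blocks (conj_sk hJ
    (MvPolynomial.X : Option I → MvPolynomial (Option I) ℂ) hX)
  obtain ⟨-, b3, -, b4⟩ := sk_blocks (conj_sk hJ
    (MvPolynomial.X : Option I → MvPolynomial (Option I) ℂ) hX')
  have d1 := fun v => sl_der_conj hJ (slD J v) (slD_X v) X
  have d2 := fun v => sl_der_conj hJ (slD J v) (slD_X v) X'
  generalize (1 - NN J MvPolynomial.X) * X.map (algebraMap ℂ (MvPolynomial (Option I) ℂ))
    * (1 + NN J MvPolynomial.X) = Y at *
  generalize (1 - NN J MvPolynomial.X) * X'.map (algebraMap ℂ (MvPolynomial (Option I) ℂ))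
    * (1 + NN J MvPolynomial.X) = Y' at *
  obtain ⟨g1, g2, g3, g4⟩ := sl_blocks b1 b3 rfl
  rw [← d1, ← d2] at g1 g2 g4
  simp only [← d1, ← d2] at g3
  set D := slD J (slCol Y)
  set D' := slD J (slCol Y')
  have e1 : (Y * Y' - Y' * Y) none none = D' (Y none none) - D (Y' none none) := by
    simp only [Matrix.sub_apply, Matrix.add_apply, Matrix.map_apply] at g1 ⊢
    linear_combination g1
  have e2 : slMid (Y * Y' - Y' * Y) = (slMid Y).map D' - (slMid Y').map D
      + (slMid Y * slMid Y' - slMid Y' * slMid Y) := by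
    rw [← g4]
    ext i k
    simp only [slMid, Matrix.sub_apply, Matrix.add_apply, Matrix.map_apply, submatrix_apply]
    abel
  have e3 : slV c (LL J z ξ) (slCol (Y * Y' - Y' * Y))
      = (slV c (LL J z ξ) fun b => D' (slCol Y b)) - (slV c (LL J z ξ) fun b => D (slCol Y' b))
        - c (slOm J (slCol Y) (slCol Y') - slOm J (slCol Y') (slCol Y)) * ξ none := by
    have f1 : slCol (Y * Y' - Y' * Y) none = D' (slCol Y none) - D (slCol Y' none)
        - (slOm J (slCol Y) (slCol Y') - slOm J (slCol Y') (slCol Y)) := by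
      simp only [slCol, Matrix.sub_apply, Matrix.add_apply, Matrix.map_apply] at g2 ⊢
      linear_combination g2
    have f2 : ∀ i, slCol (Y * Y' - Y' * Y) (some i)
        = D' (slCol Y (some i)) - D (slCol Y' (some i)) := fun i => by
      have := g3 i
      simp only [slCol, Matrix.sub_apply, Matrix.add_apply, Matrix.map_apply] at this ⊢
      linear_combination this
    simp only [slV, Fintype.sum_option, f1, f2, map_sub c, sub_mul, Finset.sum_sub_distrib, LL]
    abel
  have cl : ∀ f, Commute l (c f) := sl_comm_c hc h.lz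
  have cr : ∀ P, Sk J P → ∀ f, Commute (c f) (r P) := fun P hP f =>
    (sl_comm_c hc (h.rz P hP) f).symm
  have vl : ∀ v, Commute l (slV c (LL J z ξ) v) := fun v =>
    Commute.sum_right _ _ _ fun a _ => (cl _).mul_right (sl_LL_comm h.lz h.lx a)
  have vr : ∀ v P, Sk J P → Commute (slV c (LL J z ξ) v) (r P) := fun v P hP =>
    (Commute.sum_right _ _ _ fun a _ => (cr P hP _).symm.mul_right
      (sl_LL_comm (h.rz P hP) (h.rx P hP) a)).symm
  have cc : ∀ f g, Commute (c f) (c g) := fun f g => (Commute.all f g).map c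
  have lR : ∀ f M, Commute (c f * l) (slR J r c M) := fun f M =>
    slR_comm hJ (fun g => (cc f g).mul_left (cl g))
      (fun P hP => (cr P hP f).mul_left (h.rl P hP).symm) M
  have ll : Commute (c (Y none none) * l) (c (Y' none none) * l) :=
    ((cc _ _).mul_right (cl _).symm).mul_left ((cl _).mul_right (Commute.refl l))
  have Vl : ∀ v f, slV c (LL J z ξ) v * (c f * l)
      = c f * l * slV c (LL J z ξ) v + c (slD J v f) * l := fun v f => by
    rw [← mul_assoc, h.sl_V hc, add_mul, mul_assoc, ← (vl v).eq, mul_assoc]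
  have VR := fun v M => slV_R hJ (h.sl_V hc v) (vr v) M
  have VV := h.sl_VV hc (slCol Y) (slCol Y')
  have RR := slR_br hJ hr cr b2 b4
  rw [sl_T0, sl_T0, sl_T0, e1, e2, e3, slR_add, slR_sub, map_sub c (D' _), sub_mul (c (D' _))]
  change slR J r c (slMid Y) * slR J r c (slMid Y') - slR J r c (slMid Y') * slR J r c (slMid Y)
    = slR J r c (slMid Y * slMid Y' - slMid Y' * slMid Y) at RR
  rw [← RR]
  rw [sub_eq_iff_eq_add] at VV
  simp only [mul_add, add_mul, neg_mul, mul_neg, VV, Vl, VR, ll.eq, (lR _ _).eq]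
  abel

end Pool.Agent.Lib.MP_75bae7_al.Cn
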