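import Pool.Agent.Lib.MP_75bae7_al.Cn.StepLie
import Pool.Agent.Lib.MP_75bae7_al.Cn.StepGen

/-!
Towers of parabolic inductions.
-/

set_option autoImplicit false
set_option linter.unusedSectionVars false

namespace Pool.Agent.Lib.MP_75bae7_al.Cn

open Matrix

variable {I0 I1 I2 : Type} [Fintype I0] [DecidableEq I0] [Fintype I1] [DecidableEq I1]
  [Fintype I2] [DecidableEq I2]

theorem Ok.toOk1 {A : Type} [Ring A] [Algebra ℂ A] {J : Matrix I0 I0 ℂ} {ε : ℤ}
    {r : Matrix I0 I0 ℂ →ₗ[ℂ] A} {g : Var (Option I0) Unit → A} (h : Ok J ε r g) :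
    Ok1 J ε r (fun a => g (.inl (.inr a))) (fun a => g (.inl (.inl a))) (g (.inr ())) where
  zz a b := by
    have := h.sys (.inl (.inr a)) (.inl (.inr b))
    simp only [om1, om0, mul_zero, Int.cast_zero] at this
    exact sub_eq_zero.mp this
  xx a b := by
    have := h.sys (.inl (.inl a)) (.inl (.inl b))
    simp only [om1, om0, mul_zero, Int.cast_zero] at this
    exact sub_eq_zero.mp this
  xz a b := by
    have := h.sys (.inl (.inl a)) (.inl (.inr b))
    rw [this]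
    by_cases hab : a = b <;> simp [om1, om0, hab]
  lz a := by
    have := h.sys (.inr ()) (.inl (.inr a))
    simp only [om1, mul_zero, Int.cast_zero] at this
    exact sub_eq_zero.mp this
  lx a := by
    have := h.sys (.inr ()) (.inl (.inl a))
    simp only [om1, mul_zero, Int.cast_zero] at this
    exact sub_eq_zero.mp this
  rz X hX a := h.com X hX _
  rx X hX a := h.com X hX _
  rl X hX := h.com X hX _

theorem rel_one {J : Matrix I0 I0 ℂ} (hJ : IsJ J) : Nonempty (Rel J (upJ J)) := by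
  refine ⟨{ ι := Option I0
            κ := Unit
            E := fun r g => stepE J r (fun a => g (.inl (.inr a))) (fun a => g (.inl (.inl a)))
              (g (.inr ()))
            map := fun φ r g X => step_map φ r _ _ _ X
            mem := fun G hG r g hr hg X _ =>
              step_mem hJ G hG hr (fun a => hg (.inl (.inr a))) (fun a => hg (.inl (.inl a)))
                (hg (.inr ())) X
            lie := fun r g h hr => step_lie hJ h.toOk1 hr
            gen := ?_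
            count := ?_ }⟩
  · intro Q _ _ ε r g h hτ T hs hT hl
    obtain ⟨τ, h1, h2, _⟩ := hτ ()
    obtain ⟨k1, k2, k3, k4⟩ := step_gen hJ h.toOk1 τ.toRingHom h1 h2 T hs hT (hl ())
    refine ⟨k1, ?_⟩
    rintro ((a | a) | a)
    · exact k3 a
    · exact k2 a
    · exact k4
  · have := step_count hJ
    simp only [Fintype.card_sum, Fintype.card_unit]
    omega

theorem sk_sub {J : Matrix I0 I0 ℂ} (e : I1 ≃ I0) {X : Matrix I0 I0 ℂ} (hX : Sk J X) :
    Sk (J.submatrix e e) (X.submatrix e e) := by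
  have := congrArg (fun M : Matrix I0 I0 ℂ => M.submatrix e e) hX
  simp only [← Matrix.submatrix_mul_equiv _ _ _ e _] at this
  rw [Sk, transpose_submatrix]
  exact this

theorem sk_sub' {J : Matrix I0 I0 ℂ} (e : I1 ≃ I0) {X : Matrix I1 I1 ℂ}
    (hX : Sk (J.submatrix e e) X) : Sk J (X.submatrix e.symm e.symm) := by
  have := sk_sub e.symm hX
  simpa using this

theorem rel_equiv (J : Matrix I0 I0 ℂ) (e : I1 ≃ I0) : Nonempty (Rel J (J.submatrix e e)) := by
  refine ⟨{ ι := Empty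
            κ := Empty
            E := fun r _ => r ∘ₗ (Matrix.reindexLinearEquiv ℂ ℂ e e).toLinearMap
            map := fun φ r g X => rfl
            mem := fun G _ r g hr _ X hX => hr _ (sk_sub' e hX)
            lie := ?_
            gen := ?_
            count := ?_ }⟩
  · intro A _ _ r g _ hr X Y hX hY
    have := hr _ _ (sk_sub' e hX) (sk_sub' e hY)
    simp only [Matrix.submatrix_mul_equiv] at this
    exact this
  · intro Q _ _ ε r g _ _ T _ hT _
    refine ⟨fun X hX => ?_, ?_⟩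
    · have := hT _ (sk_sub e hX)
      simpa using this
    · rintro ((a | a) | a) <;> exact a.elim
  · refine le_trans ?_ (Nat.le_add_right _ _)
    let f : skewAdjointMatricesSubmodule (J.submatrix e e) →ₗ[ℂ] skewAdjointMatricesSubmodule J :=
      ((Matrix.reindexLinearEquiv ℂ ℂ e e).toLinearMap.domRestrict _).codRestrict _
        fun X => mem_sk.mpr (sk_sub' e (mem_sk.mp X.2))
    refine LinearMap.finrank_le_finrank_of_injective (f := f) fun X Y hXY => ?_
    exact Subtype.ext ((Matrix.reindexLinearEquiv ℂ ℂ e e).injective (congrArg Subtype.val hXY))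

theorem om1_in11 {ι1 κ1 : Type} (ι2 κ2 : Type) [DecidableEq ι1] [DecidableEq ι2]
    (a b : Var ι1 κ1) :
    om1 (ι1 ⊕ ι2) (κ1 ⊕ κ2) (in1 ι2 κ2 a) (in1 ι2 κ2 b) = om1 ι1 κ1 a b := by
  rcases a with (a | a) | a <;> rcases b with (b | b) | b <;> simp [in1, om1, om0]

theorem om1_in22 (ι1 κ1 : Type) {ι2 κ2 : Type} [DecidableEq ι1] [DecidableEq ι2]
    (a b : Var ι2 κ2) :
    om1 (ι1 ⊕ ι2) (κ1 ⊕ κ2) (in2 ι1 κ1 a) (in2 ι1 κ1 b) = om1 ι2 κ2 a b := by
  rcases a with (a | a) | a <;> rcases b with (b | b) | b <;> simp [in2, om1, om0]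

theorem om1_in12 {ι1 κ1 ι2 κ2 : Type} [DecidableEq ι1] [DecidableEq ι2]
    (a : Var ι1 κ1) (b : Var ι2 κ2) :
    om1 (ι1 ⊕ ι2) (κ1 ⊕ κ2) (in1 ι2 κ2 a) (in2 ι1 κ1 b) = 0 := by
  rcases a with (a | a) | a <;> rcases b with (b | b) | b <;> simp [in1, in2, om1, om0]

theorem wt_in1 {ι1 κ1 : Type} (ι2 κ2 : Type) (a : Var ι1 κ1) : wt (in1 ι2 κ2 a) = wt a := by
  rcases a with (a | a) | a <;> rfl

theorem wt_in2 (ι1 κ1 : Type) {ι2 κ2 : Type} (a : Var ι2 κ2) : wt (in2 ι1 κ1 a) = wt a := by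
  rcases a with (a | a) | a <;> rfl

theorem in_cases {ι1 κ1 ι2 κ2 : Type} (a : Var (ι1 ⊕ ι2) (κ1 ⊕ κ2)) :
    (∃ b, a = in1 ι2 κ2 b) ∨ ∃ b, a = in2 ι1 κ1 b := by
  rcases a with ((a | a) | (a | a)) | (a | a)
  · exact Or.inl ⟨.inl (.inl a), rfl⟩
  · exact Or.inr ⟨.inl (.inl a), rfl⟩
  · exact Or.inl ⟨.inl (.inr a), rfl⟩
  · exact Or.inr ⟨.inl (.inr a), rfl⟩
  · exact Or.inl ⟨.inr a, rfl⟩
  · exact Or.inr ⟨.inr a, rfl⟩

theorem in1_ne_inr {ι1 κ1 ι2 κ2 : Type} (a : Var ι1 κ1) (k : κ2) :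
    in1 ι2 κ2 a ≠ Sum.inr (Sum.inr k) := by
  rcases a with a | a <;> simp [in1]

theorem in1_ne_inl {ι1 κ1 ι2 κ2 : Type} {a : Var ι1 κ1} {k : κ1} (h : a ≠ Sum.inr k) :
    in1 ι2 κ2 a ≠ Sum.inr (Sum.inl k) := by
  rcases a with a | a
  · simp [in1]
  · simpa [in1] using h

theorem in2_ne_inr {ι1 κ1 ι2 κ2 : Type} {a : Var ι2 κ2} {k : κ2} (h : a ≠ Sum.inr k) :
    in2 ι1 κ1 a ≠ Sum.inr (Sum.inr k) := by
  rcases a with a | a
  · simp [in2]
  · simpa [in2] using h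

theorem Ok.in1 {ι1 κ1 ι2 κ2 A : Type} [DecidableEq ι1] [DecidableEq ι2] [Ring A] [Algebra ℂ A]
    {J : Matrix I0 I0 ℂ} {ε : ℤ} {r : Matrix I0 I0 ℂ →ₗ[ℂ] A} {g : Var (ι1 ⊕ ι2) (κ1 ⊕ κ2) → A}
    (h : Ok J ε r g) : Ok J ε r fun a => g (in1 ι2 κ2 a) := by
  refine ⟨fun a b => ?_, fun X hX a => h.com X hX _⟩
  rw [h.sys, om1_in11]

theorem Ok.in2 {J0 : Matrix I0 I0 ℂ} {J1 : Matrix I1 I1 ℂ} (R : Rel J0 J1) {ι2 κ2 A : Type}
    [DecidableEq ι2] [Ring A] [Algebra ℂ A] {ε : ℤ} {r : Matrix I0 I0 ℂ →ₗ[ℂ] A}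
    {g : Var (R.ι ⊕ ι2) (R.κ ⊕ κ2) → A} (h : Ok J0 ε r g) :
    Ok J1 ε (R.E r fun a => g (Cn.in1 ι2 κ2 a)) fun a => g (Cn.in2 R.ι R.κ a) := by
  refine ⟨fun a b => ?_, fun X hX a => ?_⟩
  · rw [h.sys, om1_in22]
  · have hm : R.E r (fun a => g (Cn.in1 ι2 κ2 a)) X
        ∈ Subalgebra.centralizer ℂ {g (Cn.in2 R.ι R.κ a)} := by
      refine R.mem_sub _ (fun Y hY => ?_) (fun b => ?_) hX
      · rw [Subalgebra.mem_centralizer_iff]
        rintro _ rfl
        exact (h.com Y hY _).symm.eq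
      · rw [Subalgebra.mem_centralizer_iff]
        rintro _ rfl
        have h1 := h.sys (Cn.in1 ι2 κ2 b) (Cn.in2 R.ι R.κ a)
        rw [om1_in12, mul_zero, Int.cast_zero, sub_eq_zero] at h1
        exact h1.symm
    exact ((Subalgebra.mem_centralizer_iff ℂ).1 hm _ rfl).symm

/-- composition of relative realisations -/
noncomputable def Rel.comp {J0 : Matrix I0 I0 ℂ} {J1 : Matrix I1 I1 ℂ} {J2 : Matrix I2 I2 ℂ}
    (R1 : Rel J0 J1) (R2 : Rel J1 J2) : Rel J0 J2 where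
  ι := R1.ι ⊕ R2.ι
  κ := R1.κ ⊕ R2.κ
  E r g := R2.E (R1.E r fun a => g (in1 R2.ι R2.κ a)) fun a => g (in2 R1.ι R1.κ a)
  map φ r g X := by
    rw [R2.map]
    have h1 : φ.toLinearMap ∘ₗ (R1.E r fun a => g (in1 R2.ι R2.κ a))
        = R1.E (φ.toLinearMap ∘ₗ r) fun a => φ (g (in1 R2.ι R2.κ a)) :=
      LinearMap.ext fun Y => R1.map φ r _ Y
    rw [h1]
  mem G hG r g hr hg X hX := by
    refine R2.mem G hG _ _ (fun Y hY => R1.mem G hG r _ hr (fun a => ?_) Y hY) (fun a => ?_) X hX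
    · rw [← wt_in1 R2.ι R2.κ a]; exact hg _
    · rw [← wt_in2 R1.ι R1.κ a]; exact hg _
  lie r g h hr := by
    exact R2.lie _ _ (h.in2 R1) (R1.lie r _ h.in1 hr)
  gen ε r g h hτ T hs hT hl := by
    have h2 := R2.gen ε _ _ (h.in2 R1) (fun k => ?_) T hs hT (fun k => hl (Sum.inr k))
    · have h1 := R1.gen ε r _ h.in1 (fun k => ?_) T hs h2.1 (fun k => hl (Sum.inl k))
      · refine ⟨h1.1, fun a => ?_⟩
        rcases in_cases a with ⟨b, rfl⟩ | ⟨b, rfl⟩
        · exact h1.2 b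
        · exact h2.2 b
      · obtain ⟨τ, t1, t2, t3⟩ := hτ (Sum.inl k)
        exact ⟨τ, t1, t2, fun a ha => t3 _ (in1_ne_inl ha)⟩
    · obtain ⟨τ, t1, t2, t3⟩ := hτ (Sum.inr k)
      refine ⟨τ, fun X hX => ?_, t2, fun a ha => t3 _ (in2_ne_inr ha)⟩
      exact R1.mem_sub (AlgHom.equalizer τ (AlgHom.id ℂ _)) t1
        (fun a => t3 _ (in1_ne_inr a k)) hX
  count := by
    have h1 := R1.count
    have h2 := R2.count
    simp only [Fintype.card_sum] at h1 h2 ⊢
    omega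

theorem isJ_J (n : ℕ) : IsJ (Matrix.J (Fin n) ℂ) := by
  exact ⟨Matrix.J_transpose _ _, Matrix.J_squared _ _⟩

/-- splitting off one hyperbolic plane -/
def planeEquiv (m : ℕ) : Fin (m + 1) ⊕ Fin (m + 1) ≃ Option (Option (Fin m ⊕ Fin m)) where
  toFun := Sum.elim (Fin.cases none fun i => some (some (.inl i)))
    (Fin.cases (some none) fun i => some (some (.inr i)))
  invFun a := match a with
    | none => .inl 0
    | some none => .inr 0
    | some (some (.inl i)) => .inl i.succ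
    | some (some (.inr i)) => .inr i.succ
  left_inv := by
    rintro (i | i) <;> refine Fin.cases ?_ (fun j => ?_) i <;> simp
  right_inv := by
    rintro (_ | _ | i | i) <;> simp

theorem upJ_plane (m : ℕ) : (upJ (Matrix.J (Fin m) ℂ)).submatrix (planeEquiv m) (planeEquiv m)
    = Matrix.J (Fin (m + 1)) ℂ := by
  ext a b
  rcases a with i | i <;> rcases b with j | j <;> refine Fin.cases ?_ (fun i' => ?_) i <;>
    refine Fin.cases ?_ (fun j' => ?_) j <;>
    simp [planeEquiv, upJ, Matrix.J, Matrix.one_apply, (Fin.succ_ne_zero _).symm]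

theorem tower (m d : ℕ) : Nonempty (Rel (Matrix.J (Fin m) ℂ) (Matrix.J (Fin (m + d)) ℂ)) := by
  induction d with
  | zero => exact rel_equiv (Matrix.J (Fin m) ℂ) (Equiv.refl _)
  | succ d ih =>
    obtain ⟨R1⟩ := ih
    obtain ⟨R2⟩ := rel_one (isJ_J (m + d))
    obtain ⟨R3⟩ := rel_equiv (upJ (Matrix.J (Fin (m + d)) ℂ)) (planeEquiv (m + d))
    rw [upJ_plane] at R3
    exact ⟨R1.comp (R2.comp R3)⟩

end Pool.Agent.Lib.MP_75bae7_al.Cn
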